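import Mathlib

/-! # The Prekopa-Leindler inequality for midpoints -/

set_option autoImplicit false

namespace Pool.Agent.Helper99.TJ

open MeasureTheory Set
open scoped ENNReal

/-- one dimensional Brunn-Minkowski for compact sets -/
lemma bm_compact {K L : Set ℝ} (hK : IsCompact K) (hL : IsCompact L) (hKn : K.Nonempty)
    (hLn : L.Nonempty) {C : Set ℝ} (hC : ∀ a ∈ K, ∀ b ∈ L, (a + b) / 2 ∈ C) :
    volume K + volume L ≤ 2 * volume C := by
  obtain ⟨a, haK, ha⟩ := hK.exists_isMaxOn hKn continuousOn_id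
  obtain ⟨b, hbL, hb⟩ := hL.exists_isMinOn hLn continuousOn_id
  have ha' : ∀ x ∈ K, x ≤ a := fun x hx => ha hx
  have hb' : ∀ x ∈ L, b ≤ x := fun x hx => hb hx
  -- the two pieces
  set P : Set ℝ := (fun x => (x + b) / 2) '' K with hP
  set Q : Set ℝ := (fun x => (a + x) / 2) '' L with hQ
  have hPC : P ⊆ C := by
    rintro _ ⟨x, hx, rfl⟩
    exact hC x hx b hbL
  have hQC : Q ⊆ C := by
    rintro _ ⟨x, hx, rfl⟩
    exact hC a haK x hx
  have hPv : volume K = 2 * volume P := by
    have h1 : P = (fun x => (1 / 2 : ℝ) * x) '' ((fun x => b + x) '' K) := by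
      rw [hP, Set.image_image]
      refine Set.image_congr fun x _ => by ring
    have h2 := Real.volume_preimage_mul_left (a := (2 : ℝ)) two_ne_zero
      ((fun x => b + x) '' K)
    have h3 : (fun x => (1 / 2 : ℝ) * x) '' ((fun x => b + x) '' K) =
        (fun x => (2 : ℝ) * x) ⁻¹' ((fun x => b + x) '' K) := by
      ext y
      constructor
      · rintro ⟨x, hx, rfl⟩
        rw [Set.mem_preimage]
        simpa using hx
      · intro hy
        exact ⟨2 * y, hy, by ring⟩
    rw [h1, h3, h2]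
    have h4 : volume ((fun x => b + x) '' K) = volume K := by
      have := measure_preimage_add (volume : Measure ℝ) (-b) K
      rw [← this]
      congr 1
      ext y
      constructor
      · rintro ⟨x, hx, rfl⟩
        simpa using hx
      · intro hy
        exact ⟨-b + y, hy, by ring⟩
    rw [h4, ← mul_assoc]
    have h5 : (2 : ℝ≥0∞) * ENNReal.ofReal |(2 : ℝ)⁻¹| = 1 := by
      rw [abs_of_pos (by norm_num), ENNReal.ofReal_inv_of_pos two_pos, ENNReal.ofReal_ofNat]
      exact ENNReal.mul_inv_cancel two_ne_zero (by norm_num)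
    rw [h5, one_mul]
  have hQv : volume L = 2 * volume Q := by
    have h3 : Q = (fun x => (2 : ℝ) * x) ⁻¹' ((fun x => a + x) '' L) := by
      ext y
      constructor
      · rintro ⟨x, hx, rfl⟩
        exact ⟨x, hx, by ring⟩
      · rintro ⟨x, hx, hxy⟩
        refine ⟨x, hx, ?_⟩
        simp only at hxy ⊢
        linarith
    have h2 := Real.volume_preimage_mul_left (a := (2 : ℝ)) two_ne_zero
      ((fun x => a + x) '' L)
    rw [h3, h2]
    have h4 : volume ((fun x => a + x) '' L) = volume L := by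
      have := measure_preimage_add (volume : Measure ℝ) (-a) L
      rw [← this]
      congr 1
      ext y
      constructor
      · rintro ⟨x, hx, rfl⟩
        simpa using hx
      · intro hy
        exact ⟨-a + y, hy, by ring⟩
    rw [h4, ← mul_assoc]
    have h5 : (2 : ℝ≥0∞) * ENNReal.ofReal |(2 : ℝ)⁻¹| = 1 := by
      rw [abs_of_pos (by norm_num), ENNReal.ofReal_inv_of_pos two_pos, ENNReal.ofReal_ofNat]
      exact ENNReal.mul_inv_cancel two_ne_zero (by norm_num)
    rw [h5, one_mul]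
  have hinter : P ∩ Q ⊆ {(a + b) / 2} := by
    rintro z ⟨⟨x, hx, hxz⟩, ⟨y, hy, hyz⟩⟩
    have h1 := ha' x hx
    have h2 := hb' y hy
    simp only at hxz hyz
    rw [Set.mem_singleton_iff]
    linarith
  have hQm : MeasurableSet Q := by
    have : IsCompact Q := hL.image (by fun_prop)
    exact this.measurableSet
  have hdisj : AEDisjoint volume P Q :=
    measure_mono_null hinter (by simp)
  rw [hPv, hQv, ← mul_add]
  refine mul_le_mul_right ?_ 2
  rw [← measure_union₀ hQm.nullMeasurableSet hdisj]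
  exact measure_mono (union_subset hPC hQC)

/-- one dimensional Brunn-Minkowski -/
lemma bm_one {A B : Set ℝ} (hA : MeasurableSet A) (hB : MeasurableSet B) (hAn : A.Nonempty)
    (hBn : B.Nonempty) {C : Set ℝ} (hC : ∀ a ∈ A, ∀ b ∈ B, (a + b) / 2 ∈ C) :
    volume A + volume B ≤ 2 * volume C := by
  obtain ⟨a₀, ha₀⟩ := hAn
  obtain ⟨b₀, hb₀⟩ := hBn
  have hcomp : ∀ K ⊆ A, IsCompact K → ∀ L ⊆ B, IsCompact L →
      volume K + volume L ≤ 2 * volume C := by
    intro K hKA hK L hLB hL
    have h1 := bm_compact (hK.union (isCompact_singleton (x := a₀)))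
      (hL.union (isCompact_singleton (x := b₀))) ⟨a₀, Or.inr rfl⟩ ⟨b₀, Or.inr rfl⟩ (C := C) (by
        intro a ha b hb
        refine hC a ?_ b ?_
        · rcases ha with ha | ha
          · exact hKA ha
          · rw [Set.mem_singleton_iff.1 ha]; exact ha₀
        · rcases hb with hb | hb
          · exact hLB hb
          · rw [Set.mem_singleton_iff.1 hb]; exact hb₀)
    exact (add_le_add (measure_mono subset_union_left) (measure_mono subset_union_left)).trans h1
  by_contra hlt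
  rw [not_le] at hlt
  rcases eq_or_ne (volume A) 0 with hA0 | hA0
  · rw [hA0, zero_add] at hlt
    obtain ⟨L, hLB, hL, hL1⟩ := hB.exists_lt_isCompact hlt
    have := hcomp ∅ (empty_subset _) isCompact_empty L hLB hL
    rw [measure_empty, zero_add] at this
    exact absurd this (not_le.2 hL1)
  rcases eq_or_ne (volume B) 0 with hB0 | hB0
  · rw [hB0, add_zero] at hlt
    obtain ⟨K, hKA, hK, hK1⟩ := hA.exists_lt_isCompact hlt
    have := hcomp K hKA hK ∅ (empty_subset _) isCompact_empty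
    rw [measure_empty, add_zero] at this
    exact absurd this (not_le.2 hK1)
  obtain ⟨y, hy, z, hz, hyz⟩ := ENNReal.exists_lt_add_of_lt_add hlt hA0 hB0
  obtain ⟨K, hKA, hK, hK1⟩ := hA.exists_lt_isCompact hy
  obtain ⟨L, hLB, hL, hL1⟩ := hB.exists_lt_isCompact hz
  have := hcomp K hKA hK L hLB hL
  exact absurd this (not_le.2 (hyz.trans (ENNReal.add_lt_add hK1 hL1)))

/-- one dimensional case, functions with supremum one -/
lemma pl_norm {f g h : ℝ → ℝ} (hf : Measurable f) (hg : Measurable g) (hh : Measurable h)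
    (hf0 : ∀ x, 0 ≤ f x) (hg0 : ∀ x, 0 ≤ g x) (hh0 : ∀ x, 0 ≤ h x)
    (hf1 : ∀ x, f x ≤ 1) (hg1 : ∀ x, g x ≤ 1) (hfs : ∀ t < 1, ∃ x, t < f x)
    (hgs : ∀ t < 1, ∃ x, t < g x) (H : ∀ x y, f x * g y ≤ h ((x + y) / 2) ^ 2) :
    (∫⁻ x, ENNReal.ofReal (f x)) + ∫⁻ x, ENNReal.ofReal (g x) ≤
      2 * ∫⁻ x, ENNReal.ofReal (h x) := by
  have lc : ∀ {F : ℝ → ℝ}, Measurable F → (∀ x, 0 ≤ F x) →
      ∫⁻ x, ENNReal.ofReal (F x) = ∫⁻ t in Ioi (0 : ℝ), volume {a | t < F a} := by
    intro F hF hF0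
    exact lintegral_eq_lintegral_meas_lt volume (Filter.Eventually.of_forall hF0) hF.aemeasurable
  have hcut : ∀ {F : ℝ → ℝ}, (∀ x, F x ≤ 1) →
      ∫⁻ t in Ioi (0 : ℝ), volume {a | t < F a} = ∫⁻ t in Ioo (0 : ℝ) 1, volume {a | t < F a} := by
    intro F hF1
    have h1 : (Ioi (0 : ℝ)) = Ioo 0 1 ∪ Ici 1 := by
      ext t
      simp only [mem_Ioi, mem_union, mem_Ioo, mem_Ici]
      constructor
      · intro ht
        rcases lt_or_ge t 1 with h | h
        · exact Or.inl ⟨ht, h⟩
        · exact Or.inr h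
      · rintro (h | h)
        · exact h.1
        · linarith
    have h2 : Disjoint (Ioo (0 : ℝ) 1) (Ici 1) := by
      rw [Set.disjoint_left]
      intro t ht ht'
      exact absurd ht.2 (not_lt.2 ht')
    rw [h1, lintegral_union measurableSet_Ici h2]
    have h3 : ∫⁻ t in Ici (1 : ℝ), volume {a | t < F a} = 0 := by
      rw [← lintegral_zero (μ := volume.restrict (Ici (1 : ℝ)))]
      refine setLIntegral_congr_fun measurableSet_Ici fun t ht => ?_
      have : {a | t < F a} = ∅ := by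
        ext a
        simp only [Set.mem_ofPred_eq, mem_empty_iff_false, iff_false, not_lt]
        exact (hF1 a).trans ht
      rw [this, measure_empty]
    rw [h3, add_zero]
  rw [lc hf hf0, lc hg hg0, lc hh hh0, hcut hf1, hcut hg1]
  have hmono : ∫⁻ t in Ioo (0 : ℝ) 1, volume {a | t < h a} ≤
      ∫⁻ t in Ioi (0 : ℝ), volume {a | t < h a} :=
    lintegral_mono_set Ioo_subset_Ioi_self
  refine le_trans ?_ (mul_le_mul_right hmono 2)
  have hmeas : Measurable fun t : ℝ => volume {a | t < f a} := by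
    refine Antitone.measurable ?_
    intro s t hst
    exact measure_mono fun a ha => lt_of_le_of_lt hst ha
  rw [← lintegral_add_left hmeas, ← lintegral_const_mul' _ _ (by norm_num)]
  refine setLIntegral_mono' measurableSet_Ioo fun t ht => ?_
  refine bm_one (measurableSet_lt measurable_const hf) (measurableSet_lt measurable_const hg)
    (hfs t ht.2) (hgs t ht.2) ?_
  intro a ha b hb
  rw [Set.mem_ofPred_eq] at ha hb ⊢
  have h1 := H a b
  have h2 : t * t < f a * g b := by
    have h0 := ht.1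
    nlinarith
  have h3 : t ^ 2 < h ((a + b) / 2) ^ 2 := by nlinarith
  exact lt_of_pow_lt_pow_left₀ 2 (hh0 _) h3

lemma am_gm (a b : ℝ≥0∞) : 4 * (a * b) ≤ (a + b) ^ 2 := by
  rcases eq_or_ne a ∞ with ha | ha
  · subst ha
    simp
  rcases eq_or_ne b ∞ with hb | hb
  · subst hb
    simp
  lift a to NNReal using ha
  lift b to NNReal using hb
  have : 4 * (a * b) ≤ (a + b) ^ 2 := by
    rw [← NNReal.coe_le_coe]
    push_cast
    nlinarith [sq_nonneg ((a : ℝ) - b)]
  exact_mod_cast this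

/-- one dimensional case, bounded functions -/
lemma pl_bdd {f g h : ℝ → ℝ≥0∞} (hf : Measurable f) (hg : Measurable g) (hh : Measurable h)
    {M : ℝ≥0∞} (hM : M ≠ ∞) (hfM : ∀ x, f x ≤ M) (hgM : ∀ x, g x ≤ M)
    (H : ∀ x y, f x * g y ≤ h ((x + y) / 2) ^ 2) :
    (∫⁻ x, f x) * ∫⁻ x, g x ≤ (∫⁻ x, h x) ^ 2 := by
  set F := ⨆ x, f x with hF
  set G := ⨆ x, g x with hG
  have hFM : F ≤ M := iSup_le hfM
  have hGM : G ≤ M := iSup_le hgM
  have hFt : F ≠ ∞ := ne_top_of_le_ne_top hM hFM
  have hGt : G ≠ ∞ := ne_top_of_le_ne_top hM hGM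
  have hfF : ∀ x, f x ≤ F := fun x => le_iSup f x
  have hgG : ∀ x, g x ≤ G := fun x => le_iSup g x
  have hft : ∀ x, f x ≠ ∞ := fun x => ne_top_of_le_ne_top hFt (hfF x)
  have hgt : ∀ x, g x ≠ ∞ := fun x => ne_top_of_le_ne_top hGt (hgG x)
  rcases eq_or_ne F 0 with hF0 | hF0
  · have : ∀ x, f x = 0 := fun x => le_antisymm ((hfF x).trans hF0.le) zero_le
    simp [this]
  rcases eq_or_ne G 0 with hG0 | hG0
  · have : ∀ x, g x = 0 := fun x => le_antisymm ((hgG x).trans hG0.le) zero_le
    simp [this]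
  set F' := F.toReal with hF'
  set G' := G.toReal with hG'
  have hF'0 : 0 < F' := ENNReal.toReal_pos hF0 hFt
  have hG'0 : 0 < G' := ENNReal.toReal_pos hG0 hGt
  set s := Real.sqrt (F' * G') with hs
  have hs0 : 0 < s := Real.sqrt_pos.2 (mul_pos hF'0 hG'0)
  have hs2 : s ^ 2 = F' * G' := Real.sq_sqrt (mul_pos hF'0 hG'0).le
  have hk : ∀ x, min (h x) (ENNReal.ofReal s) ≠ ∞ := fun x =>
    ne_top_of_le_ne_top ENNReal.ofReal_ne_top (min_le_right _ _)
  have hFo : ENNReal.ofReal F' = F := ENNReal.ofReal_toReal hFt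
  have hGo : ENNReal.ofReal G' = G := ENNReal.ofReal_toReal hGt
  have key := pl_norm (f := fun x => (f x).toReal / F') (g := fun x => (g x).toReal / G')
    (h := fun x => (min (h x) (ENNReal.ofReal s)).toReal / s)
    (hf.ennreal_toReal.div_const _) (hg.ennreal_toReal.div_const _)
    ((hh.min measurable_const).ennreal_toReal.div_const _)
    (fun x => by positivity) (fun x => by positivity) (fun x => by positivity)
    (fun x => by
      rw [div_le_one hF'0]
      exact ENNReal.toReal_mono hFt (hfF x))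
    (fun x => by
      rw [div_le_one hG'0]
      exact ENNReal.toReal_mono hGt (hgG x))
    (by
      intro t ht
      rcases lt_or_ge t 0 with h0 | h0
      · exact ⟨0, lt_of_lt_of_le h0 (by positivity)⟩
      have h1 : ENNReal.ofReal (t * F') < F := by
        rw [← hFo, ENNReal.ofReal_lt_ofReal_iff hF'0]
        nlinarith
      obtain ⟨x, hx⟩ := lt_iSup_iff.1 h1
      refine ⟨x, ?_⟩
      rw [lt_div_iff₀ hF'0]
      exact (ENNReal.ofReal_lt_iff_lt_toReal (by positivity) (hft x)).1 hx)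
    (by
      intro t ht
      rcases lt_or_ge t 0 with h0 | h0
      · exact ⟨0, lt_of_lt_of_le h0 (by positivity)⟩
      have h1 : ENNReal.ofReal (t * G') < G := by
        rw [← hGo, ENNReal.ofReal_lt_ofReal_iff hG'0]
        nlinarith
      obtain ⟨x, hx⟩ := lt_iSup_iff.1 h1
      refine ⟨x, ?_⟩
      rw [lt_div_iff₀ hG'0]
      exact (ENNReal.ofReal_lt_iff_lt_toReal (by positivity) (hgt x)).1 hx)
    (by
      intro x y
      have h1 : f x * g y ≤ min (h ((x + y) / 2)) (ENNReal.ofReal s) ^ 2 := by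
        rcases le_total (h ((x + y) / 2)) (ENNReal.ofReal s) with h2 | h2
        · rw [min_eq_left h2]
          exact H x y
        · rw [min_eq_right h2, ← ENNReal.ofReal_pow hs0.le, hs2, ENNReal.ofReal_mul hF'0.le,
            hFo, hGo]
          exact mul_le_mul' (hfF x) (hgG y)
      have h3 := ENNReal.toReal_mono (ENNReal.pow_ne_top (hk _)) h1
      rw [ENNReal.toReal_mul, ENNReal.toReal_pow] at h3
      rw [div_mul_div_comm, div_pow, hs2]
      exact div_le_div_of_nonneg_right h3 (mul_pos hF'0 hG'0).le)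
  have e1 : ∀ {u : ℝ → ℝ≥0∞} {c : ℝ}, 0 < c → (∀ x, u x ≠ ∞) →
      ∫⁻ x, ENNReal.ofReal ((u x).toReal / c) = (∫⁻ x, u x) / ENNReal.ofReal c := by
    intro u c hc hu
    have : ∀ x, ENNReal.ofReal ((u x).toReal / c) = (ENNReal.ofReal c)⁻¹ * u x := by
      intro x
      rw [ENNReal.ofReal_div_of_pos hc, ENNReal.ofReal_toReal (hu x), ENNReal.div_eq_inv_mul]
    simp only [this]
    rw [lintegral_const_mul' _ _ (ENNReal.inv_ne_top.2 (by simpa using hc)),
      ENNReal.div_eq_inv_mul]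
  rw [e1 hF'0 hft, e1 hG'0 hgt, e1 hs0 hk, hFo, hGo] at key
  have hmin : (∫⁻ x, min (h x) (ENNReal.ofReal s)) ≤ ∫⁻ x, h x :=
    lintegral_mono fun x => min_le_left _ _
  have hso : ENNReal.ofReal s ^ 2 = F * G := by
    rw [← ENNReal.ofReal_pow hs0.le, hs2, ENNReal.ofReal_mul hF'0.le, hFo, hGo]
  have h1 : 4 * ((∫⁻ x, f x) / F * ((∫⁻ x, g x) / G)) ≤ 4 * ((∫⁻ x, h x) / ENNReal.ofReal s) ^ 2 := by
    refine (am_gm _ _).trans ?_
    have h2 : (∫⁻ x, f x) / F + (∫⁻ x, g x) / G ≤ 2 * ((∫⁻ x, h x) / ENNReal.ofReal s) :=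
      key.trans (mul_le_mul_right (ENNReal.div_le_div_right hmin _) 2)
    refine (pow_le_pow_left' h2 2).trans (le_of_eq ?_)
    rw [mul_pow]
    norm_num
  have h3 : (∫⁻ x, f x) / F * ((∫⁻ x, g x) / G) ≤ ((∫⁻ x, h x) / ENNReal.ofReal s) ^ 2 :=
    (ENNReal.mul_le_mul_iff_right (by norm_num) (by norm_num)).1 h1
  rw [div_eq_mul_inv, div_eq_mul_inv, mul_mul_mul_comm, ← ENNReal.mul_inv (Or.inl hF0) (Or.inl hFt),
    div_eq_mul_inv, mul_pow, ← ENNReal.inv_pow, hso] at h3
  have hFG0 : (F * G)⁻¹ ≠ 0 := ENNReal.inv_ne_zero.2 (ENNReal.mul_ne_top hFt hGt)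
  have hFGt : (F * G)⁻¹ ≠ ∞ := ENNReal.inv_ne_top.2 (mul_ne_zero hF0 hG0)
  exact (ENNReal.mul_le_mul_iff_left hFG0 hFGt).1 h3

/-- the one dimensional inequality -/
theorem pl_one {f g h : ℝ → ℝ≥0∞} (hf : Measurable f) (hg : Measurable g) (hh : Measurable h)
    (H : ∀ x y, f x * g y ≤ h ((x + y) / 2) ^ 2) :
    (∫⁻ x, f x) * ∫⁻ x, g x ≤ (∫⁻ x, h x) ^ 2 := by
  have hmc : ∀ {u : ℝ → ℝ≥0∞}, Measurable u → ∫⁻ x, u x = ⨆ n : ℕ, ∫⁻ x, min (u x) n := by
    intro u hu
    rw [← lintegral_iSup (fun n => hu.min measurable_const)]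
    · refine lintegral_congr fun x => ?_
      refine le_antisymm ?_ (iSup_le fun n => min_le_left _ _)
      rcases eq_or_ne (u x) ∞ with h0 | h0
      · rw [h0]
        simp only [min_eq_right le_top]
        exact ENNReal.iSup_natCast.ge
      · obtain ⟨n, hn⟩ := ENNReal.exists_nat_gt h0
        refine le_iSup_of_le n ?_
        rw [min_eq_left hn.le]
    · intro m n hmn x
      exact min_le_min_left _ (by exact_mod_cast hmn)
  rw [hmc hf, hmc hg, ENNReal.iSup_mul]
  refine iSup_le fun m => ?_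
  rw [ENNReal.mul_iSup]
  refine iSup_le fun n => ?_
  refine pl_bdd (hf.min measurable_const) (hg.min measurable_const) hh (M := max (m : ℝ≥0∞) n)
    (by simp) (fun x => (min_le_right _ _).trans (le_max_left _ _))
    (fun x => (min_le_right _ _).trans (le_max_right _ _)) fun x y => ?_
  exact (mul_le_mul' (min_le_left _ _) (min_le_left _ _)).trans (H x y)

lemma piFin_symm {n : ℕ} (a : ℝ) (v : Fin n → ℝ) :
    (MeasurableEquiv.piFinSuccAbove (fun _ : Fin (n + 1) => ℝ) 0).symm (a, v) = Fin.cons a v := by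
  have : (MeasurableEquiv.piFinSuccAbove (fun _ : Fin (n + 1) => ℝ) 0).symm (a, v) =
      Fin.insertNth 0 a v := rfl
  rw [this, Fin.insertNth_zero']

lemma measurable_cons {n : ℕ} :
    Measurable fun p : ℝ × (Fin n → ℝ) => (Fin.cons p.1 p.2 : Fin (n + 1) → ℝ) := by
  have h := (MeasurableEquiv.piFinSuccAbove (fun _ : Fin (n + 1) => ℝ) 0).symm.measurable
  have h2 : (fun p : ℝ × (Fin n → ℝ) => (Fin.cons p.1 p.2 : Fin (n + 1) → ℝ)) =
      (MeasurableEquiv.piFinSuccAbove (fun _ : Fin (n + 1) => ℝ) 0).symm := by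
    funext p
    exact (piFin_symm p.1 p.2).symm
  rw [h2]
  exact h

/-- splitting the integral over `Fin (n+1) → ℝ` -/
lemma lintegral_fin_succ {n : ℕ} {f : (Fin (n + 1) → ℝ) → ℝ≥0∞} (hf : Measurable f) :
    ∫⁻ x, f x = ∫⁻ a : ℝ, ∫⁻ v : Fin n → ℝ, f (Fin.cons a v) := by
  have h1 := (MeasureTheory.volume_preserving_piFinSuccAbove (fun _ : Fin (n + 1) => ℝ) 0).symm
  rw [← h1.lintegral_comp hf]
  have hm : Measurable fun y : ℝ × (Fin n → ℝ) =>
      f ((MeasurableEquiv.piFinSuccAbove (fun _ : Fin (n + 1) => ℝ) 0).symm y) :=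
    hf.comp (MeasurableEquiv.measurable _)
  have h2 : (volume : Measure (ℝ × (Fin n → ℝ))) = volume.prod volume := rfl
  rw [h2, lintegral_prod _ hm.aemeasurable]
  simp only [piFin_symm]

/-- **Prekopa-Leindler** (midpoint form) -/
theorem pl_fin : ∀ (n : ℕ) {f g h : (Fin n → ℝ) → ℝ≥0∞}, Measurable f → Measurable g →
    Measurable h → (∀ x y, f x * g y ≤ h ((1 / 2 : ℝ) • (x + y)) ^ 2) →
    (∫⁻ x, f x) * ∫⁻ x, g x ≤ (∫⁻ x, h x) ^ 2 := by
  intro n
  induction n with
  | zero =>
    intro f g h _ _ _ H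
    have h1 : (volume : Measure (Fin 0 → ℝ)) = Measure.dirac default := by
      rw [volume_pi, Measure.pi_of_empty]
      congr 1
      exact Subsingleton.elim _ _
    rw [h1, lintegral_dirac, lintegral_dirac, lintegral_dirac]
    refine (H default default).trans (le_of_eq ?_)
    congr 2
    exact Subsingleton.elim _ _
  | succ n ih =>
    intro f g h hf hg hh H
    have hc := measurable_cons (n := n)
    rw [lintegral_fin_succ hf, lintegral_fin_succ hg, lintegral_fin_succ hh]
    refine pl_one ?_ ?_ ?_ ?_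
    · exact (hf.comp hc).lintegral_prod_right'
    · exact (hg.comp hc).lintegral_prod_right'
    · exact (hh.comp hc).lintegral_prod_right'
    · intro a b
      refine ih (hf.comp (hc.comp measurable_prodMk_left)) (hg.comp (hc.comp measurable_prodMk_left))
        (hh.comp (hc.comp measurable_prodMk_left)) fun v w => ?_
      refine (H (Fin.cons a v) (Fin.cons b w)).trans (le_of_eq ?_)
      congr 2
      funext i
      refine Fin.cases ?_ (fun i => ?_) i
      · simp only [Pi.smul_apply, Pi.add_apply, Fin.cons_zero, smul_eq_mul]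
        ring
      · simp only [Pi.smul_apply, Pi.add_apply, Fin.cons_succ]

end Pool.Agent.Helper99.TJ
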