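import Mathlib

/-! # No tightness along walls: the abstract ergodic statement -/

set_option autoImplicit false

namespace Pool.Agent.Helper99.TJ

open MeasureTheory Filter Topology

noncomputable section

variable {Y : Type*} [MeasurableSpace Y]

/-- the phase `exp (i l x)` -/
def ph (x : Y → ℝ) (l : ℝ) (y : Y) : ℂ := Complex.exp (((l * x y : ℝ) : ℂ) * Complex.I)

lemma norm_ph (x : Y → ℝ) (l : ℝ) (y : Y) : ‖ph x l y‖ = 1 := by
  unfold ph
  exact Complex.norm_exp_ofReal_mul_I _

lemma measurable_ph {x : Y → ℝ} (hx : Measurable x) (l : ℝ) : Measurable (ph x l) := by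
  unfold ph
  fun_prop

variable {ν : Measure Y} [IsFiniteMeasure ν] {Θ : Y → Y}

lemma memLp_tw (hΘ : MeasurePreserving Θ ν ν) {x : Y → ℝ} (hx : Measurable x) (l : ℝ)
    (h : Lp ℂ 2 ν) : MemLp (fun y => ph x l y * h (Θ y)) 2 ν := by
  have h1 : MemLp (fun y => h (Θ y)) 2 ν := (Lp.memLp h).comp_measurePreserving hΘ
  refine h1.of_le ((measurable_ph hx l).aestronglyMeasurable.mul h1.aestronglyMeasurable) ?_
  refine Eventually.of_forall fun y => ?_
  rw [norm_mul, norm_ph, one_mul]

/-- the twisted Koopman operator -/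
def Tw (hΘ : MeasurePreserving Θ ν ν) {x : Y → ℝ} (hx : Measurable x) (l : ℝ) :
    Lp ℂ 2 ν →L[ℂ] Lp ℂ 2 ν :=
  LinearMap.mkContinuous
    { toFun := fun h => (memLp_tw hΘ hx l h).toLp
      map_add' := by
        intro f g
        rw [← MemLp.toLp_add]
        refine (MemLp.toLp_eq_toLp_iff _ _).2 ?_
        filter_upwards [hΘ.quasiMeasurePreserving.ae (Lp.coeFn_add f g)] with y hy
        simp only [Pi.add_apply]
        rw [hy]
        simp only [Pi.add_apply]
        ring
      map_smul' := by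
        intro c f
        rw [RingHom.id_apply, ← MemLp.toLp_const_smul]
        refine (MemLp.toLp_eq_toLp_iff _ _).2 ?_
        filter_upwards [hΘ.quasiMeasurePreserving.ae (Lp.coeFn_smul c f)] with y hy
        rw [hy]
        simp only [Pi.smul_apply, smul_eq_mul]
        ring } 1 (by
      intro f
      rw [one_mul]
      simp only [LinearMap.coe_mk, AddHom.coe_mk]
      rw [Lp.norm_toLp, Lp.norm_def]
      refine ENNReal.toReal_mono (Lp.eLpNorm_ne_top f) ?_
      have h1 : eLpNorm (fun y => ph x l y * f (Θ y)) 2 ν = eLpNorm (fun y => f (Θ y)) 2 ν := by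
        refine eLpNorm_congr_norm_ae (Eventually.of_forall fun y => ?_)
        rw [norm_mul, norm_ph, one_mul]
      rw [h1]
      have h2 := eLpNorm_comp_measurePreserving (p := 2) (Lp.aestronglyMeasurable f) hΘ
      exact h2.le)

lemma Tw_coe (hΘ : MeasurePreserving Θ ν ν) {x : Y → ℝ} (hx : Measurable x) (l : ℝ)
    (h : Lp ℂ 2 ν) : Tw hΘ hx l h =ᵐ[ν] fun y => ph x l y * h (Θ y) :=
  MemLp.coeFn_toLp (memLp_tw hΘ hx l h)

lemma Tw_norm (hΘ : MeasurePreserving Θ ν ν) {x : Y → ℝ} (hx : Measurable x) (l : ℝ) :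
    ‖Tw hΘ hx l‖ ≤ 1 := LinearMap.mkContinuous_norm_le _ zero_le_one _

/-- the constant function one -/
def oneLp (ν : Measure Y) [IsFiniteMeasure ν] : Lp ℂ 2 ν :=
  (memLp_const (1 : ℂ)).toLp (fun _ : Y => (1 : ℂ))

lemma oneLp_coe : oneLp ν =ᵐ[ν] fun _ => (1 : ℂ) := MemLp.coeFn_toLp _

lemma Tw_iter (hΘ : MeasurePreserving Θ ν ν) {x : Y → ℝ} (hx : Measurable x) (l : ℝ) (n : ℕ) :
    (Tw hΘ hx l)^[n] (oneLp ν) =ᵐ[ν] ph (birkhoffSum Θ x n) l := by
  induction n with
  | zero =>
    simp only [Function.iterate_zero, id]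
    filter_upwards [oneLp_coe (ν := ν)] with y hy
    rw [hy]
    simp [ph]
  | succ n ih =>
    rw [Function.iterate_succ_apply']
    filter_upwards [Tw_coe hΘ hx l ((Tw hΘ hx l)^[n] (oneLp ν)),
      hΘ.quasiMeasurePreserving.ae ih] with y h1 h2
    rw [h1, h2]
    unfold ph
    rw [← Complex.exp_add, birkhoffSum_succ']
    congr 1
    push_cast
    ring

/-- no eigenfunctions -/
def NoEig (ν : Measure Y) (Θ : Y → Y) (x : Y → ℝ) : Prop :=
  ∀ l : ℝ, l ≠ 0 → ∀ h : Y → ℂ, Measurable h → (∃ C : ℝ, ∀ y, ‖h y‖ ≤ C) →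
    (∀ᵐ y ∂ν, ph x l y * h (Θ y) = h y) → ∀ᵐ y ∂ν, h y = 0

lemma fixed_zero (hΘ : MeasurePreserving Θ ν ν) {x : Y → ℝ} (hx : Measurable x)
    (hNE : NoEig ν Θ x) {l : ℝ} (hl : l ≠ 0) (h : Lp ℂ 2 ν) (hh : Tw hΘ hx l h = h) : h = 0 := by
  set g : Y → ℂ := (Lp.aestronglyMeasurable h).mk h with hg
  have hgm : Measurable g := (Lp.aestronglyMeasurable h).stronglyMeasurable_mk.measurable
  have hgh : h =ᵐ[ν] g := (Lp.aestronglyMeasurable h).ae_eq_mk
  have hfix : ∀ᵐ y ∂ν, ph x l y * g (Θ y) = g y := by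
    have h1 := Tw_coe hΘ hx l h
    rw [hh] at h1
    filter_upwards [h1, hgh, hΘ.quasiMeasurePreserving.ae hgh] with y h2 h3 h4
    rw [← h3, ← h4, ← h2]
  have hz : ∀ m : ℕ, ∀ᵐ y ∂ν, ‖g y‖ ≤ m → g y = 0 := by
    intro m
    have hms : MeasurableSet {y | ‖g y‖ ≤ m} := measurableSet_le hgm.norm measurable_const
    have h5 := hNE l hl ({y | ‖g y‖ ≤ m}.indicator g) (hgm.indicator hms) ⟨m, fun y => by
      by_cases hy : y ∈ {y | ‖g y‖ ≤ m}
      · rw [Set.indicator_of_mem hy]
        exact hy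
      · rw [Set.indicator_of_notMem hy, norm_zero]
        positivity⟩ (by
      filter_upwards [hfix] with y hy
      have h6 : ‖g (Θ y)‖ = ‖g y‖ := by
        rw [← hy, norm_mul, norm_ph, one_mul]
      by_cases h7 : ‖g y‖ ≤ m
      · rw [Set.indicator_of_mem (show Θ y ∈ {y | ‖g y‖ ≤ m} by
            rw [Set.mem_ofPred_eq, h6]; exact h7),
          Set.indicator_of_mem (show y ∈ {y | ‖g y‖ ≤ m} from h7)]
        exact hy
      · rw [Set.indicator_of_notMem (show Θ y ∉ {y | ‖g y‖ ≤ m} by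
            rw [Set.mem_ofPred_eq, h6]; exact h7),
          Set.indicator_of_notMem (show y ∉ {y | ‖g y‖ ≤ m} from h7), mul_zero])
    filter_upwards [h5] with y hy h7
    rwa [Set.indicator_of_mem (show y ∈ {y | ‖g y‖ ≤ m} from h7)] at hy
  have hall : ∀ᵐ y ∂ν, g y = 0 := by
    filter_upwards [ae_all_iff.2 hz] with y hy
    obtain ⟨m, hm⟩ := exists_nat_ge ‖g y‖
    exact hy m hm
  rw [Lp.eq_zero_iff_ae_eq_zero]
  filter_upwards [hgh, hall] with y h1 h2
  rw [h1, h2]
  rfl

/-- Cesaro averages of the characteristic functions tend to zero -/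
theorem cesaro_char (hΘ : MeasurePreserving Θ ν ν) {x : Y → ℝ} (hx : Measurable x)
    (hNE : NoEig ν Θ x) {l : ℝ} (hl : l ≠ 0) :
    Tendsto (fun N : ℕ => (N : ℂ)⁻¹ * ∑ n ∈ Finset.range N,
      ∫ y, ph (birkhoffSum Θ x n) l y ∂ν) atTop (𝓝 0) := by
  have h1 := ContinuousLinearMap.tendsto_birkhoffAverage_orthogonalProjection
    (Tw hΘ hx l) (Tw_norm hΘ hx l) (oneLp ν)
  set P := ((Tw hΘ hx l).eqLocus (1 : Lp ℂ 2 ν →L[ℂ] Lp ℂ 2 ν)).orthogonalProjectionOnto
    (oneLp ν) with hP
  have h2 : (P : Lp ℂ 2 ν) = 0 := by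
    refine fixed_zero hΘ hx hNE hl _ ?_
    have := P.2
    exact this
  rw [h2] at h1
  have h3 : Tendsto (fun N : ℕ => inner ℂ (oneLp ν)
      (birkhoffAverage ℂ (Tw hΘ hx l) _root_.id N (oneLp ν))) atTop (𝓝 0) := by
    have := (tendsto_const_nhds (x := oneLp ν)).inner (𝕜 := ℂ) h1
    rwa [inner_zero_right] at this
  refine h3.congr fun N => ?_
  have h6 : birkhoffAverage ℂ (Tw hΘ hx l) _root_.id N (oneLp ν) =
      (N : ℂ)⁻¹ • ∑ n ∈ Finset.range N, (Tw hΘ hx l)^[n] (oneLp ν) := rfl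
  rw [h6, inner_smul_right, inner_sum]
  congr 1
  refine Finset.sum_congr rfl fun n _ => ?_
  rw [L2.inner_def]
  refine integral_congr_ae ?_
  filter_upwards [oneLp_coe (ν := ν), Tw_iter hΘ hx l n] with y h4 h5
  rw [h4, h5]
  simp

lemma gauss_char (v : ℝ) : ∫ l : ℝ, Complex.exp (((l * v : ℝ) : ℂ) * Complex.I) *
    Complex.exp (-(Real.pi : ℂ) * (l : ℂ) ^ 2) = ((Real.exp (-(v ^ 2 / (4 * Real.pi))) : ℝ) : ℂ) := by
  have h := fourierIntegral_gaussian (b := (Real.pi : ℂ)) (by simpa using Real.pi_pos) (v : ℂ)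
  have hpi : (Real.pi : ℂ) ≠ 0 := by exact_mod_cast Real.pi_ne_zero
  rw [div_self hpi, Complex.one_cpow, one_mul] at h
  push_cast
  rw [← neg_div, ← h]
  refine integral_congr_ae (Eventually.of_forall fun l => ?_)
  simp only
  congr 2
  ring

lemma gauss_integrable : Integrable (fun l : ℝ => Complex.exp (-(Real.pi : ℂ) * (l : ℂ) ^ 2)) := by
  have := integrable_cexp_neg_mul_sq (b := (Real.pi : ℂ)) (by simpa using Real.pi_pos)
  exact this

lemma gauss_norm (l : ℝ) : ‖Complex.exp (-(Real.pi : ℂ) * (l : ℂ) ^ 2)‖ =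
    Real.exp (-Real.pi * l ^ 2) := by
  rw [Complex.norm_exp]
  congr 1
  have : (-(Real.pi : ℂ) * (l : ℂ) ^ 2) = ((-Real.pi * l ^ 2 : ℝ) : ℂ) := by push_cast; ring
  rw [this, Complex.ofReal_re]

lemma fubini_gauss (V : Y → ℝ) (hV : Measurable V) :
    ((∫ y, Real.exp (-(V y ^ 2 / (4 * Real.pi))) ∂ν : ℝ) : ℂ) =
      ∫ l : ℝ, Complex.exp (-(Real.pi : ℂ) * (l : ℂ) ^ 2) * ∫ y, ph V l y ∂ν := by
  have hint : Integrable (Function.uncurry fun (y : Y) (l : ℝ) => ph V l y *
      Complex.exp (-(Real.pi : ℂ) * (l : ℂ) ^ 2)) (ν.prod volume) := by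
    have h1 : Integrable (fun p : Y × ℝ => Complex.exp (-(Real.pi : ℂ) * (p.2 : ℂ) ^ 2))
        (ν.prod volume) := gauss_integrable.comp_snd ν
    refine h1.mono ?_ (Eventually.of_forall fun p => ?_)
    · refine Measurable.aestronglyMeasurable ?_
      simp only [Function.uncurry_def]
      unfold ph
      fun_prop
    · simp only [Function.uncurry_def]
      rw [norm_mul, norm_ph, one_mul]
  rw [← integral_complex_ofReal]
  have h2 := integral_integral_swap hint
  have h3 : (∫ y, ((Real.exp (-(V y ^ 2 / (4 * Real.pi))) : ℝ) : ℂ) ∂ν) =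
      ∫ y, (∫ l : ℝ, ph V l y * Complex.exp (-(Real.pi : ℂ) * (l : ℂ) ^ 2)) ∂ν := by
    refine integral_congr_ae (Eventually.of_forall fun y => ?_)
    exact (gauss_char (V y)).symm
  rw [h3, h2]
  refine integral_congr_ae (Eventually.of_forall fun l => ?_)
  simp only
  rw [integral_mul_const, mul_comm]

lemma measurable_bs {x : Y → ℝ} (hx : Measurable x) (hΘ : Measurable Θ) (n : ℕ) :
    Measurable (birkhoffSum Θ x n) := by
  unfold birkhoffSum
  exact Finset.measurable_sum _ fun k _ => hx.comp (hΘ.iterate k)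

theorem cesaro_gauss (hΘ : MeasurePreserving Θ ν ν) {x : Y → ℝ} (hx : Measurable x)
    (hNE : NoEig ν Θ x) :
    Tendsto (fun N : ℕ => (N : ℝ)⁻¹ * ∑ n ∈ Finset.range N,
      ∫ y, Real.exp (-(birkhoffSum Θ x n y ^ 2 / (4 * Real.pi))) ∂ν) atTop (𝓝 0) := by
  have key : Tendsto (fun N : ℕ => ∫ l : ℝ, Complex.exp (-(Real.pi : ℂ) * (l : ℂ) ^ 2) *
      ((N : ℂ)⁻¹ * ∑ n ∈ Finset.range N, ∫ y, ph (birkhoffSum Θ x n) l y ∂ν)) atTop
      (𝓝 (∫ _ : ℝ, (0 : ℂ))) := by
    refine tendsto_integral_of_dominated_convergence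
      (fun l => Real.exp (-Real.pi * l ^ 2) * ν.real Set.univ) ?_ ?_ ?_ ?_
    · intro N
      refine Measurable.aestronglyMeasurable ?_
      refine Measurable.mul (by fun_prop) (Measurable.const_mul ?_ _)
      refine Finset.measurable_sum _ fun n _ => ?_
      have hm : Measurable (Function.uncurry fun (l : ℝ) (y : Y) => ph (birkhoffSum Θ x n) l y) := by
        simp only [Function.uncurry_def]
        unfold ph
        have := measurable_bs hx hΘ.measurable n
        fun_prop
      exact (hm.stronglyMeasurable.integral_prod_right (ν := ν)).measurable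
    · exact (integrable_exp_neg_mul_sq Real.pi_pos).mul_const _
    · intro N
      refine Eventually.of_forall fun l => ?_
      rw [norm_mul, gauss_norm]
      refine mul_le_mul_of_nonneg_left ?_ (Real.exp_pos _).le
      rw [norm_mul, norm_inv, Complex.norm_natCast]
      rcases Nat.eq_zero_or_pos N with h0 | h0
      · subst h0
        simp
      have h0' : (0 : ℝ) < N := by exact_mod_cast h0
      rw [inv_mul_le_iff₀ h0']
      calc ‖∑ n ∈ Finset.range N, ∫ y, ph (birkhoffSum Θ x n) l y ∂ν‖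
          ≤ ∑ n ∈ Finset.range N, ‖∫ y, ph (birkhoffSum Θ x n) l y ∂ν‖ := norm_sum_le _ _
        _ ≤ ∑ _n ∈ Finset.range N, ν.real Set.univ := by
            refine Finset.sum_le_sum fun n _ => ?_
            have := norm_integral_le_of_norm_le_const (μ := ν)
              (f := ph (birkhoffSum Θ x n) l) (C := 1)
              (Eventually.of_forall fun y => (norm_ph _ _ _).le)
            rwa [one_mul] at this
        _ = N * ν.real Set.univ := by
            rw [Finset.sum_const, Finset.card_range, nsmul_eq_mul]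
    · have hne : ∀ᵐ l : ℝ, l ≠ 0 := by
        rw [ae_iff]
        simp
      filter_upwards [hne] with l hl
      have := (cesaro_char hΘ hx hNE hl).const_mul (Complex.exp (-(Real.pi : ℂ) * (l : ℂ) ^ 2))
      rwa [mul_zero] at this
  rw [integral_zero] at key
  have h2 : ∀ N : ℕ, (∫ l : ℝ, Complex.exp (-(Real.pi : ℂ) * (l : ℂ) ^ 2) *
      ((N : ℂ)⁻¹ * ∑ n ∈ Finset.range N, ∫ y, ph (birkhoffSum Θ x n) l y ∂ν)) =
      (((N : ℝ)⁻¹ * ∑ n ∈ Finset.range N,
      ∫ y, Real.exp (-(birkhoffSum Θ x n y ^ 2 / (4 * Real.pi))) ∂ν : ℝ) : ℂ) := by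
    intro N
    rw [Complex.ofReal_mul, Complex.ofReal_inv, Complex.ofReal_natCast, Complex.ofReal_sum]
    have h3 : ∀ n, ((∫ y, Real.exp (-(birkhoffSum Θ x n y ^ 2 / (4 * Real.pi))) ∂ν : ℝ) : ℂ) =
      ∫ l : ℝ, Complex.exp (-(Real.pi : ℂ) * (l : ℂ) ^ 2) * ∫ y, ph (birkhoffSum Θ x n) l y ∂ν :=
      fun n => fubini_gauss _ (measurable_bs hx hΘ.measurable n)
    simp only [h3]
    rw [← integral_finsetSum, ← integral_const_mul]
    · refine integral_congr_ae (Eventually.of_forall fun l => ?_)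
      simp only [Finset.mul_sum]
      refine Finset.sum_congr rfl fun n _ => ?_
      ring
    · intro n _
      refine gauss_integrable.mul_bdd (c := ν.real Set.univ) ?_ ?_
      · have hm : Measurable (Function.uncurry fun (l : ℝ) (y : Y) => ph (birkhoffSum Θ x n) l y) := by
          simp only [Function.uncurry_def]
          unfold ph
          have := measurable_bs hx hΘ.measurable n
          fun_prop
        exact (hm.stronglyMeasurable.integral_prod_right (ν := ν)).aestronglyMeasurable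
      · refine Eventually.of_forall fun l => ?_
        have := norm_integral_le_of_norm_le_const (μ := ν)
              (f := ph (birkhoffSum Θ x n) l) (C := 1)
              (Eventually.of_forall fun y => (norm_ph _ _ _).le)
        rwa [one_mul] at this
  simp only [h2] at key
  have h4 := (Complex.continuous_re.tendsto 0).comp key
  rw [Complex.zero_re] at h4
  exact h4.congr fun N => Complex.ofReal_re _

/-- (CL) the Birkhoff sums are not tight, in the mean -/
theorem cesaro_small (hΘ : MeasurePreserving Θ ν ν) {x : Y → ℝ} (hx : Measurable x)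
    (hNE : NoEig ν Θ x) (K : ℝ) :
    Tendsto (fun N : ℕ => (N : ℝ)⁻¹ * ∑ n ∈ Finset.range N,
      ν.real {y | |birkhoffSum Θ x n y| ≤ K}) atTop (𝓝 0) := by
  have h1 := (cesaro_gauss hΘ hx hNE).const_mul (Real.exp (K ^ 2 / (4 * Real.pi)))
  rw [mul_zero] at h1
  refine squeeze_zero (fun N => ?_) (fun N => ?_) h1
  · exact mul_nonneg (by positivity) (Finset.sum_nonneg fun n _ => measureReal_nonneg)
  · rw [mul_left_comm]
    refine mul_le_mul_of_nonneg_left ?_ (by positivity)
    rw [Finset.mul_sum]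
    refine Finset.sum_le_sum fun n _ => ?_
    have hm := measurable_bs hx hΘ.measurable n
    have hms : MeasurableSet {y | |birkhoffSum Θ x n y| ≤ K} :=
      measurableSet_le hm.abs measurable_const
    rw [← integral_const_mul]
    have h2 : ν.real {y | |birkhoffSum Θ x n y| ≤ K} =
        ∫ y, {y | |birkhoffSum Θ x n y| ≤ K}.indicator (fun _ => (1 : ℝ)) y ∂ν := by
      rw [integral_indicator_const _ hms]
      simp
    rw [h2]
    refine integral_mono ?_ ?_ fun y => ?_
    · exact (integrable_const (1 : ℝ)).indicator hms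
    · refine Integrable.const_mul ?_ _
      refine Integrable.of_bound (C := 1) (Measurable.aestronglyMeasurable (by fun_prop)) ?_
      refine Eventually.of_forall fun y => ?_
      rw [Real.norm_eq_abs, abs_of_pos (Real.exp_pos _), Real.exp_le_one_iff]
      have : 0 ≤ birkhoffSum Θ x n y ^ 2 / (4 * Real.pi) := by
        have := Real.pi_pos
        positivity
      linarith
    · by_cases hy : |birkhoffSum Θ x n y| ≤ K
      · rw [Set.indicator_of_mem (show y ∈ {y | |birkhoffSum Θ x n y| ≤ K} from hy)]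
        simp only
        rw [← Real.exp_add]
        refine Real.one_le_exp ?_
        have h3 : birkhoffSum Θ x n y ^ 2 ≤ K ^ 2 := by
          rw [← sq_abs]
          exact pow_le_pow_left₀ (abs_nonneg _) hy 2
        have h4 : birkhoffSum Θ x n y ^ 2 / (4 * Real.pi) ≤ K ^ 2 / (4 * Real.pi) :=
          div_le_div_of_nonneg_right h3 (by have := Real.pi_pos; positivity)
        linarith
      · rw [Set.indicator_of_notMem (show y ∉ {y | |birkhoffSum Θ x n y| ≤ K} from hy)]
        positivity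

end

end Pool.Agent.Helper99.TJ
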