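import Mathlib

/-!
# Short T-joins in a box of the square lattice

Vertices are the points of `ℤ × ℤ`; the edge `(v, false)` joins `v` to `v + (1,0)` and `(v, true)` joins
`v` to `v + (0,1)`.  `bd X v` is the number of edges of `X` at `v` modulo two.

`exists_join`: an even set `S` of points of an `L × L` box is the boundary of a set of at most
`7 * L * √m` edges of the box, `2 m` being the number of points of `S`.
-/

open Finset

namespace TJ99

abbrev V := ℤ × ℤ
abbrev E := V × Bool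

/-- second endpoint of an edge -/
def tip (e : E) : V := if e.2 then (e.1.1, e.1.2 + 1) else (e.1.1 + 1, e.1.2)

/-- incidence number of an edge and a vertex, modulo two -/
def inc (e : E) (v : V) : ZMod 2 := (if v = e.1 then 1 else 0) + (if v = tip e then 1 else 0)

/-- boundary modulo two -/
def bd (X : Finset E) (v : V) : ZMod 2 := ∑ e ∈ X, inc e v

def delta (p v : V) : ZMod 2 := if v = p then 1 else 0

lemma bd_empty (v : V) : bd ∅ v = 0 := by simp [bd]

lemma bd_symmDiff (X Y : Finset E) (v : V) : bd (symmDiff X Y) v = bd X v + bd Y v := by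
  have h1 : bd X v = ∑ e ∈ X \ Y, inc e v + ∑ e ∈ X ∩ Y, inc e v := by
    unfold bd
    rw [← Finset.sum_union (Finset.disjoint_sdiff_inter X Y), Finset.sdiff_union_inter]
  have h2 : bd Y v = ∑ e ∈ Y \ X, inc e v + ∑ e ∈ X ∩ Y, inc e v := by
    unfold bd
    rw [Finset.inter_comm, ← Finset.sum_union (Finset.disjoint_sdiff_inter Y X),
      Finset.sdiff_union_inter]
  have h3 : bd (symmDiff X Y) v = ∑ e ∈ X \ Y, inc e v + ∑ e ∈ Y \ X, inc e v := by
    unfold bd
    rw [symmDiff_def, Finset.sup_eq_union, Finset.sum_union]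
    exact Finset.disjoint_left.2 fun a ha hb => (Finset.mem_sdiff.1 hb).2 (Finset.mem_sdiff.1 ha).1
  rw [h1, h2, h3]
  have h4 : (∑ e ∈ X ∩ Y, inc e v) + ∑ e ∈ X ∩ Y, inc e v = 0 := CharTwo.add_self_eq_zero _
  linear_combination -h4

lemma card_symmDiff_le (X Y : Finset E) : (symmDiff X Y).card ≤ X.card + Y.card := by
  rw [symmDiff_def, Finset.sup_eq_union]
  refine (Finset.card_union_le _ _).trans ?_
  exact add_le_add (Finset.card_le_card Finset.sdiff_subset) (Finset.card_le_card Finset.sdiff_subset)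

/-- the edge lies in the box `[a, a + M] × [b, b + N]` -/
def InBox (a b : ℤ) (M N : ℤ) (v : V) : Prop := a ≤ v.1 ∧ v.1 ≤ a + M ∧ b ≤ v.2 ∧ v.2 ≤ b + N

/-- horizontal path -/
lemma exists_hor (v : V) (n : ℕ) : ∃ Y : Finset E, Y.card ≤ n ∧
    (∀ u, bd Y u = delta v u + delta (v.1 + n, v.2) u) ∧
    ∀ e ∈ Y, InBox v.1 v.2 n 0 e.1 ∧ InBox v.1 v.2 n 0 (tip e) := by
  induction n with
  | zero =>
    refine ⟨∅, by simp, fun u => ?_, by simp⟩
    rw [bd_empty]
    simp only [Nat.cast_zero, add_zero]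
    exact (CharTwo.add_self_eq_zero _).symm
  | succ n ih =>
    obtain ⟨Y, h1, h2, h3⟩ := ih
    refine ⟨symmDiff Y {((v.1 + n, v.2), false)}, ?_, fun u => ?_, fun e he => ?_⟩
    · refine (card_symmDiff_le _ _).trans ?_
      simp only [Finset.card_singleton]
      omega
    · rw [bd_symmDiff, h2]
      have : bd {((v.1 + (n:ℤ), v.2), false)} u
          = delta (v.1 + n, v.2) u + delta (v.1 + (n + 1 : ℕ), v.2) u := by
        simp only [bd, Finset.sum_singleton, inc, tip, delta]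
        push_cast
        simp [add_assoc]
      rw [this]
      have h4 : delta (v.1 + n, v.2) u + delta (v.1 + n, v.2) u = 0 := CharTwo.add_self_eq_zero _
      linear_combination h4
    · have : e ∈ Y ∨ e = ((v.1 + (n:ℤ), v.2), false) := by
        rw [Finset.mem_symmDiff] at he
        rcases he with ⟨h, _⟩ | ⟨h, _⟩
        · exact Or.inl h
        · exact Or.inr (Finset.mem_singleton.1 h)
      rcases this with h | h
      · obtain ⟨⟨a1, a2, a3, a4⟩, ⟨b1, b2, b3, b4⟩⟩ := h3 e h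
        refine ⟨⟨a1, ?_, a3, a4⟩, ⟨b1, ?_, b3, b4⟩⟩
        · push_cast; linarith
        · push_cast; linarith
      · subst h
        refine ⟨⟨?_, ?_, ?_, ?_⟩, ⟨?_, ?_, ?_, ?_⟩⟩ <;> simp [tip] <;> omega

/-- vertical path -/
lemma exists_ver (v : V) (n : ℕ) : ∃ Y : Finset E, Y.card ≤ n ∧
    (∀ u, bd Y u = delta v u + delta (v.1, v.2 + n) u) ∧
    ∀ e ∈ Y, InBox v.1 v.2 0 n e.1 ∧ InBox v.1 v.2 0 n (tip e) := by
  induction n with
  | zero =>
    refine ⟨∅, by simp, fun u => ?_, by simp⟩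
    rw [bd_empty]
    simp only [Nat.cast_zero, add_zero]
    exact (CharTwo.add_self_eq_zero _).symm
  | succ n ih =>
    obtain ⟨Y, h1, h2, h3⟩ := ih
    refine ⟨symmDiff Y {((v.1, v.2 + n), true)}, ?_, fun u => ?_, fun e he => ?_⟩
    · refine (card_symmDiff_le _ _).trans ?_
      simp only [Finset.card_singleton]
      omega
    · rw [bd_symmDiff, h2]
      have : bd {((v.1, v.2 + (n:ℤ)), true)} u
          = delta (v.1, v.2 + n) u + delta (v.1, v.2 + (n + 1 : ℕ)) u := by
        simp only [bd, Finset.sum_singleton, inc, tip, delta]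
        push_cast
        simp [add_assoc]
      rw [this]
      have h4 : delta (v.1, v.2 + n) u + delta (v.1, v.2 + n) u = 0 := CharTwo.add_self_eq_zero _
      linear_combination h4
    · have : e ∈ Y ∨ e = ((v.1, v.2 + (n:ℤ)), true) := by
        rw [Finset.mem_symmDiff] at he
        rcases he with ⟨h, _⟩ | ⟨h, _⟩
        · exact Or.inl h
        · exact Or.inr (Finset.mem_singleton.1 h)
      rcases this with h | h
      · obtain ⟨⟨a1, a2, a3, a4⟩, ⟨b1, b2, b3, b4⟩⟩ := h3 e h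
        refine ⟨⟨a1, a2, a3, ?_⟩, ⟨b1, b2, b3, ?_⟩⟩
        · push_cast; linarith
        · push_cast; linarith
      · subst h
        refine ⟨⟨?_, ?_, ?_, ?_⟩, ⟨?_, ?_, ?_, ?_⟩⟩ <;> simp [tip] <;> omega

/-- all edges of `Y` have both endpoints in the box `[a, a + N]²` -/
def Inside (a b : ℤ) (N : ℤ) (Y : Finset E) : Prop :=
  ∀ e ∈ Y, InBox a b N N e.1 ∧ InBox a b N N (tip e)

lemma Inside.symmDiff {a b N : ℤ} {X Y : Finset E} (hX : Inside a b N X) (hY : Inside a b N Y) :
    Inside a b N (symmDiff X Y) := by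
  intro e he
  rw [Finset.mem_symmDiff] at he
  rcases he with ⟨h, _⟩ | ⟨h, _⟩
  · exact hX e h
  · exact hY e h

/-- horizontal path between two points of the box of the same height -/
lemma exists_hor' {a b N : ℤ} {p q : V} (hp : InBox a b N N p) (hq : InBox a b N N q)
    (h : p.2 = q.2) : ∃ Y : Finset E, (Y.card : ℤ) ≤ |q.1 - p.1| ∧
    (∀ u, bd Y u = delta p u + delta q u) ∧ Inside a b N Y := by
  obtain ⟨p1, p2, p3, p4⟩ := hp
  obtain ⟨q1, q2, q3, q4⟩ := hq
  rcases le_total p.1 q.1 with hle | hle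
  · obtain ⟨n, hn⟩ := Int.eq_ofNat_of_zero_le (sub_nonneg.2 hle)
    obtain ⟨Y, h1, h2, h3⟩ := exists_hor p n
    refine ⟨Y, ?_, fun u => ?_, fun e he => ?_⟩
    · rw [hn]; simpa using h1
    · have e1 : ((p.1 + (n:ℤ), p.2) : V) = q := by
        ext
        · simp only; omega
        · exact h
      rw [h2, e1]
    · obtain ⟨⟨a1, a2, a3, a4⟩, ⟨b1, b2, b3, b4⟩⟩ := h3 e he
      exact ⟨⟨by omega, by omega, by omega, by omega⟩, ⟨by omega, by omega, by omega, by omega⟩⟩
  · obtain ⟨n, hn⟩ := Int.eq_ofNat_of_zero_le (sub_nonneg.2 hle)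
    obtain ⟨Y, h1, h2, h3⟩ := exists_hor q n
    refine ⟨Y, ?_, fun u => ?_, fun e he => ?_⟩
    · rw [abs_sub_comm, hn]; simpa using h1
    · have e1 : ((q.1 + (n:ℤ), q.2) : V) = p := by
        ext
        · simp only; omega
        · exact h.symm
      rw [h2, e1, add_comm]
    · obtain ⟨⟨a1, a2, a3, a4⟩, ⟨b1, b2, b3, b4⟩⟩ := h3 e he
      exact ⟨⟨by omega, by omega, by omega, by omega⟩, ⟨by omega, by omega, by omega, by omega⟩⟩

/-- vertical path between two points of the box -/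
lemma exists_ver' {a b N : ℤ} {p q : V} (hp : InBox a b N N p) (hq : InBox a b N N q)
    (h : p.1 = q.1) : ∃ Y : Finset E, (Y.card : ℤ) ≤ |q.2 - p.2| ∧
    (∀ u, bd Y u = delta p u + delta q u) ∧ Inside a b N Y := by
  obtain ⟨p1, p2, p3, p4⟩ := hp
  obtain ⟨q1, q2, q3, q4⟩ := hq
  rcases le_total p.2 q.2 with hle | hle
  · obtain ⟨n, hn⟩ := Int.eq_ofNat_of_zero_le (sub_nonneg.2 hle)
    obtain ⟨Y, h1, h2, h3⟩ := exists_ver p n
    refine ⟨Y, ?_, fun u => ?_, fun e he => ?_⟩
    · rw [hn]; simpa using h1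
    · have e1 : ((p.1, p.2 + (n:ℤ)) : V) = q := by
        ext
        · exact h
        · simp only; omega
      rw [h2, e1]
    · obtain ⟨⟨a1, a2, a3, a4⟩, ⟨b1, b2, b3, b4⟩⟩ := h3 e he
      exact ⟨⟨by omega, by omega, by omega, by omega⟩, ⟨by omega, by omega, by omega, by omega⟩⟩
  · obtain ⟨n, hn⟩ := Int.eq_ofNat_of_zero_le (sub_nonneg.2 hle)
    obtain ⟨Y, h1, h2, h3⟩ := exists_ver q n
    refine ⟨Y, ?_, fun u => ?_, fun e he => ?_⟩
    · rw [abs_sub_comm, hn]; simpa using h1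
    · have e1 : ((q.1, q.2 + (n:ℤ)) : V) = p := by
        ext
        · exact h.symm
        · simp only; omega
      rw [h2, e1, add_comm]
    · obtain ⟨⟨a1, a2, a3, a4⟩, ⟨b1, b2, b3, b4⟩⟩ := h3 e he
      exact ⟨⟨by omega, by omega, by omega, by omega⟩, ⟨by omega, by omega, by omega, by omega⟩⟩

/-- a path between two points of the box -/
lemma exists_path {a b N : ℤ} {p q : V} (hp : InBox a b N N p) (hq : InBox a b N N q) :
    ∃ Y : Finset E, (Y.card : ℤ) ≤ |q.1 - p.1| + |q.2 - p.2| ∧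
    (∀ u, bd Y u = delta p u + delta q u) ∧ Inside a b N Y := by
  have hr : InBox a b N N (q.1, p.2) := ⟨hq.1, hq.2.1, hp.2.2.1, hp.2.2.2⟩
  obtain ⟨Y1, h1, h2, h3⟩ := exists_hor' hp hr rfl
  obtain ⟨Y2, k1, k2, k3⟩ := exists_ver' hr hq rfl
  refine ⟨symmDiff Y1 Y2, ?_, fun u => ?_, h3.symmDiff k3⟩
  · have := card_symmDiff_le Y1 Y2
    simp only at h1 k1
    have h5 : ((symmDiff Y1 Y2).card : ℤ) ≤ Y1.card + Y2.card := by exact_mod_cast this
    linarith
  · rw [bd_symmDiff, h2, k2]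
    have h4 : delta (q.1, p.2) u + delta (q.1, p.2) u = 0 := CharTwo.add_self_eq_zero _
    linear_combination h4

/-- the potential used to order the points -/
def Phi (b N h : ℤ) (p : V) : ℤ := (2 * N + h) * ((p.2 - b) / h) + p.1

lemma cost_le {a b N h : ℤ} (hh : 0 < h) {p q : V} (hp : InBox a b N N p) (hq : InBox a b N N q)
    (hpq : Phi b N h p ≤ Phi b N h q) :
    |q.1 - p.1| + |q.2 - p.2| ≤ Phi b N h q - Phi b N h p + h := by
  obtain ⟨p1, p2, p3, p4⟩ := hp
  obtain ⟨q1, q2, q3, q4⟩ := hq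
  have hN : 0 ≤ N := by linarith
  unfold Phi at *
  set s := (p.2 - b) / h with hs
  set t := (q.2 - b) / h with ht
  have a1 : h * s ≤ p.2 - b := Int.mul_ediv_self_le hh.ne'
  have a2 : p.2 - b < h * s + h := Int.lt_mul_ediv_self_add hh
  have b1 : h * t ≤ q.2 - b := Int.mul_ediv_self_le hh.ne'
  have b2 : q.2 - b < h * t + h := Int.lt_mul_ediv_self_add hh
  have hst : s ≤ t := by
    by_contra hlt
    push Not at hlt
    have : t + 1 ≤ s := hlt
    have h1 : (2 * N + h) * (t + 1) ≤ (2 * N + h) * s := mul_le_mul_of_nonneg_left this (by linarith)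
    nlinarith
  clear_value s t
  rcases hst.eq_or_lt with heq | hlt
  · subst heq
    have hx : p.1 ≤ q.1 := by linarith
    rw [abs_of_nonneg (by linarith : (0:ℤ) ≤ q.1 - p.1)]
    have : |q.2 - p.2| ≤ h := by rw [abs_le]; constructor <;> linarith
    linarith
  · have : s + 1 ≤ t := hlt
    have hx : |q.1 - p.1| ≤ N := by rw [abs_le]; constructor <;> linarith
    have hy : |q.2 - p.2| ≤ h * (t - s) + h := by
      rw [abs_le]
      constructor
      · nlinarith
      · nlinarith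
    nlinarith

lemma exists_join_aux {a b N h : ℤ} (hh : 0 < h) (M : ℤ) : ∀ (n : ℕ) (S : Finset V) (B : ℤ),
    S.card = 2 * n → B ≤ M → (∀ p ∈ S, InBox a b N N p ∧ B ≤ Phi b N h p ∧ Phi b N h p ≤ M) →
    ∃ X : Finset E, (X.card : ℤ) ≤ M - B + n * h ∧ (∀ u, bd X u = if u ∈ S then 1 else 0) ∧
      Inside a b N X := by
  intro n
  induction n with
  | zero =>
    intro S B hS hB _
    have : S = ∅ := by simpa using hS
    subst this
    refine ⟨∅, ?_, fun u => ?_, ?_⟩
    · simp only [Finset.card_empty, Nat.cast_zero, zero_mul, add_zero]; linarith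
    · rw [bd_empty]; simp
    · intro e he; simp at he
  | succ n ih =>
    intro S B hS hB hp
    have hne : S.Nonempty := by
      rw [← Finset.card_pos]; omega
    obtain ⟨p, hpS, hpmin⟩ := Finset.exists_min_image S (Phi b N h) hne
    have hne2 : (S.erase p).Nonempty := by
      rw [← Finset.card_pos, Finset.card_erase_of_mem hpS]; omega
    obtain ⟨q, hqS, hqmin⟩ := Finset.exists_min_image (S.erase p) (Phi b N h) hne2
    have hqS' : q ∈ S := Finset.mem_of_mem_erase hqS
    have hqp : q ≠ p := Finset.ne_of_mem_erase hqS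
    obtain ⟨X, x1, x2, x3⟩ := ih ((S.erase p).erase q) (Phi b N h q) (by
      rw [Finset.card_erase_of_mem hqS, Finset.card_erase_of_mem hpS]; omega) (hp q hqS').2.2 (by
      intro r hr
      have hr1 := Finset.mem_of_mem_erase hr
      have hr2 := Finset.mem_of_mem_erase hr1
      exact ⟨(hp r hr2).1, hqmin r hr1, (hp r hr2).2.2⟩)
    obtain ⟨Y, y1, y2, y3⟩ := exists_path (hp p hpS).1 (hp q hqS').1
    refine ⟨symmDiff X Y, ?_, fun u => ?_, x3.symmDiff y3⟩
    · have h1 : ((symmDiff X Y).card : ℤ) ≤ X.card + Y.card := by exact_mod_cast card_symmDiff_le X Y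
      have h2 := cost_le hh (hp p hpS).1 (hp q hqS').1 (hpmin q hqS')
      have h3 := (hp p hpS).2.1
      push_cast
      linarith
    · rw [bd_symmDiff, x2, y2]
      unfold delta
      by_cases h1 : u = p
      · subst h1
        simp [hpS, hqp.symm]
      · by_cases h2 : u = q
        · subst h2
          simp [hqS', hqp]
        · simp [h1, h2]

theorem exists_join_int {a b N h : ℤ} (hh : 0 < h) (hN : 0 ≤ N) (m : ℕ) (S : Finset V)
    (hS : S.card = 2 * m) (hin : ∀ p ∈ S, InBox a b N N p) :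
    ∃ X : Finset E, (X.card : ℤ) ≤ (2 * N + h) * (N / h) + N + m * h ∧
      (∀ u, bd X u = if u ∈ S then 1 else 0) ∧ Inside a b N X := by
  obtain ⟨X, x1, x2, x3⟩ := exists_join_aux (a := a) (b := b) (N := N) hh
    ((2 * N + h) * (N / h) + N + a) m S a hS
    (by
      have : 0 ≤ (2 * N + h) * (N / h) := mul_nonneg (by linarith) (Int.ediv_nonneg hN hh.le)
      linarith)
    (by
      intro p hpS
      obtain ⟨p1, p2, p3, p4⟩ := hin p hpS
      refine ⟨⟨p1, p2, p3, p4⟩, ?_, ?_⟩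
      · unfold Phi
        have : 0 ≤ (2 * N + h) * ((p.2 - b) / h) :=
          mul_nonneg (by linarith) (Int.ediv_nonneg (by linarith) hh.le)
        linarith
      · unfold Phi
        have h1 : (p.2 - b) / h ≤ N / h := Int.ediv_le_ediv hh (by linarith)
        have : (2 * N + h) * ((p.2 - b) / h) ≤ (2 * N + h) * (N / h) :=
          mul_le_mul_of_nonneg_left h1 (by linarith)
        linarith)
  refine ⟨X, ?_, x2, x3⟩
  linarith

/-- **Short T-joins.**  An even set of `2 m` points of the box `[a, a + N] × [b, b + N]` is the boundary of a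
set of at most `9 (N + 1) √m` edges of the box. -/
theorem exists_join {a b : ℤ} {N : ℕ} (m : ℕ) (S : Finset V)
    (hS : S.card = 2 * m) (hin : ∀ p ∈ S, InBox a b N N p) :
    ∃ X : Finset E, (X.card : ℝ) ≤ 9 * (N + 1) * √m ∧
      (∀ u, bd X u = if u ∈ S then 1 else 0) ∧ Inside a b N X := by
  rcases Nat.eq_zero_or_pos m with rfl | hm
  · have : S = ∅ := by simpa using hS
    subst this
    exact ⟨∅, by simp, fun u => by rw [bd_empty]; simp, fun e he => by simp at he⟩
  -- the number of points of the box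
  have hcard : 2 * m ≤ (N + 1) * (N + 1) := by
    rw [← hS]
    have hsub : S ⊆ (Finset.Icc a (a + N)) ×ˢ (Finset.Icc b (b + N)) := by
      intro p hp
      obtain ⟨p1, p2, p3, p4⟩ := hin p hp
      rw [Finset.mem_product, Finset.mem_Icc, Finset.mem_Icc]
      exact ⟨⟨p1, p2⟩, ⟨p3, p4⟩⟩
    refine (Finset.card_le_card hsub).trans ?_
    rw [Finset.card_product, Int.card_Icc, Int.card_Icc]
    apply le_of_eq
    congr 1 <;> omega
  set L : ℝ := (N : ℝ) + 1 with hL
  have hL1 : 1 ≤ L := by rw [hL]; linarith [Nat.cast_nonneg (α := ℝ) N]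
  have hmR : (1:ℝ) ≤ m := by exact_mod_cast hm
  have hsq1 : 1 ≤ √(m:ℝ) := by rw [Real.one_le_sqrt]; exact hmR
  have hsqL : √(m:ℝ) ≤ L := by
    rw [Real.sqrt_le_left (by linarith)]
    have : (2 * m : ℝ) ≤ L * L := by rw [hL]; exact_mod_cast hcard
    nlinarith
  have hsqsq : √(m:ℝ) * √(m:ℝ) = m := Real.mul_self_sqrt (by linarith)
  set h : ℕ := ⌈L / √(m:ℝ)⌉₊ with hh
  have hh1 : L / √(m:ℝ) ≤ h := Nat.le_ceil _
  have hh2 : (h:ℝ) < L / √(m:ℝ) + 1 := Nat.ceil_lt_add_one (by positivity)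
  have hdiv : L / √(m:ℝ) ≤ L := div_le_self (by linarith) hsq1
  have hhpos : 0 < h := by
    rw [hh, Nat.ceil_pos]; positivity
  obtain ⟨X, x1, x2, x3⟩ := exists_join_int (a := a) (b := b) (N := N) (h := h)
    (by exact_mod_cast hhpos) (by positivity) m S hS hin
  refine ⟨X, ?_, x2, x3⟩
  have x1' : (X.card : ℝ) ≤ (2 * N + h) * (((N:ℤ) / (h:ℤ) : ℤ) : ℝ) + N + m * h := by exact_mod_cast x1
  have hNh : ((((N:ℤ) / (h:ℤ) : ℤ)) : ℝ) ≤ √(m:ℝ) := by
    have e1 : ((N:ℤ) / (h:ℤ) : ℤ) = ((N / h : ℕ) : ℤ) := by push_cast; rfl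
    rw [e1]
    push_cast
    have e2 : (((N / h : ℕ)) : ℝ) ≤ (N:ℝ) / h := Nat.cast_div_le
    refine e2.trans ?_
    rw [div_le_iff₀ (by exact_mod_cast hhpos)]
    have : L ≤ √(m:ℝ) * h := by
      rw [div_le_iff₀ (by linarith)] at hh1
      linarith
    linarith
  have hNL : (N:ℝ) ≤ L := by rw [hL]; linarith
  have hhL : (h:ℝ) ≤ 2 * L := by linarith
  have h1 : (2 * (N:ℝ) + h) * (((N:ℤ) / (h:ℤ) : ℤ) : ℝ) ≤ (2 * L + 2 * L) * √(m:ℝ) := by
    apply mul_le_mul (by linarith) hNh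
    · have : (0:ℤ) ≤ ((N:ℤ) / (h:ℤ) : ℤ) := by positivity
      exact_mod_cast this
    · linarith
  have h2 : (m:ℝ) * h ≤ L * √(m:ℝ) + m := by
    have : (m:ℝ) * h ≤ m * (L / √(m:ℝ) + 1) := mul_le_mul_of_nonneg_left hh2.le (by linarith)
    refine this.trans (le_of_eq ?_)
    rw [mul_add, mul_one]
    congr 1
    rw [mul_div_assoc', div_eq_iff (by linarith)]
    rw [mul_assoc, hsqsq, mul_comm]
  have h3 : (m:ℝ) ≤ L * √(m:ℝ) := by
    calc (m:ℝ) = √(m:ℝ) * √(m:ℝ) := hsqsq.symm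
      _ ≤ L * √(m:ℝ) := mul_le_mul_of_nonneg_right hsqL (Real.sqrt_nonneg _)
  have h4 : L ≤ L * √(m:ℝ) := le_mul_of_one_le_right (by linarith) hsq1
  have h5 : 0 ≤ L * √(m:ℝ) := by positivity
  calc (X.card : ℝ) ≤ _ := x1'
    _ ≤ (2 * L + 2 * L) * √(m:ℝ) + L + (L * √(m:ℝ) + m) := by linarith
    _ ≤ 9 * L * √(m:ℝ) := by nlinarith

end TJ99
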