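import Pool.Agent.Helper60.TJ.Basic
import Pool.Agent.Helper99.TJ.TJoin

set_option autoImplicit false

/-!
# Short T-joins, in the format of `Pool.Agent.Helper60.TJ`
-/

namespace TJ99

open Pool.Agent.Helper60.TJ
open scoped symmDiff

/-- the dual edge which corresponds to an edge -/
def dE (e : E) : Ed := if e.2 then edg e.1 1 else edg e.1 0

lemma dE_injective : Function.Injective dE := by
  rintro ⟨⟨a, b⟩, c⟩ ⟨⟨a', b'⟩, c'⟩ h
  cases c <;> cases c' <;> simp [dE, edg] at h ⊢ <;> exact h

lemma par_dE (e : E) (v : Vx) :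
    (if par (ind {dE e}) v = true then (1 : ZMod 2) else 0) = inc e v := by
  obtain ⟨⟨a, b⟩, c⟩ := e
  have key : ∀ (x y : Vx), x ≠ y → (if vx (dl x) (dl y) v = true then (1 : ZMod 2) else 0)
      = (if v = x then 1 else 0) + (if v = y then 1 else 0) := by
    intro x y hxy
    by_cases h1 : v = x
    · subst h1
      simp [vx, dl, hxy]
    · by_cases h2 : v = y
      · subst h2
        simp [vx, dl, hxy.symm]
      · simp [vx, dl, h1, h2]
  cases c
  · have e1 : dE ((a, b), false) = edg (a, b) 0 := rfl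
    rw [e1, par_edg, key]
    · simp [inc, tip, stp]
    · simp [stp]
  · have e1 : dE ((a, b), true) = edg (a, b) 1 := rfl
    rw [e1, par_edg, key]
    · simp [inc, tip, stp]
    · simp [stp]

lemma par_image (X : Finset E) (v : Vx) :
    (if par (ind (X.image dE)) v = true then (1 : ZMod 2) else 0) = bd X v := by
  induction X using Finset.induction_on with
  | empty => simp [par, ind, bd]
  | insert e X he ih =>
    have e1 : (insert e X).image dE = ({dE e} : Finset Ed) ∆ (X.image dE) := by
      ext f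
      rw [Finset.image_insert, Finset.mem_insert, Finset.mem_symmDiff, Finset.mem_singleton]
      constructor
      · rintro (h | h)
        · refine Or.inl ⟨h, ?_⟩
          rw [h, Finset.mem_image]
          rintro ⟨g, hg, hgf⟩
          exact he (dE_injective hgf ▸ hg)
        · refine Or.inr ⟨h, ?_⟩
          rintro rfl
          obtain ⟨g, hg, hgf⟩ := Finset.mem_image.1 h
          exact he (dE_injective hgf ▸ hg)
      · rintro (h | h)
        · exact Or.inl h.1
        · exact Or.inr h.1
    have e2 : bd (insert e X) v = inc e v + bd X v := by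
      unfold bd; rw [Finset.sum_insert he]
    rw [e1, par_ind_symmDiff, e2, ← ih, ← par_dE]
    unfold vx
    generalize par (ind {dE e}) v = x
    generalize par (ind (X.image dE)) v = y
    cases x <;> cases y <;> simp
    exact (CharTwo.add_self_eq_zero _).symm

/-- **Short T-joins.** -/
theorem exists_join_box {L : ℕ} (m : ℕ) (S : Finset Vx) (hS : S.card = 2 * m) (hin : S ⊆ box L) :
    ∃ X : Finset Ed, (X.card : ℝ) ≤ 9 * (2 * L + 1) * √m ∧
      par (ind X) = (fun v => decide (v ∈ S)) ∧
      ∀ e ∈ X, ∃ v d, edg v d = e ∧ v ∈ box L ∧ v + stp d ∈ box L := by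
  have hbox : ∀ p : Vx, p ∈ box L ↔ InBox (-(L:ℤ)) (-(L:ℤ)) ((2 * L : ℕ) : ℤ) ((2 * L : ℕ) : ℤ) p := by
    intro p
    unfold box InBox
    rw [Finset.mem_product, Finset.mem_Icc, Finset.mem_Icc]
    constructor
    · rintro ⟨⟨h1, h2⟩, h3, h4⟩
      push_cast
      exact ⟨h1, by linarith, h3, by linarith⟩
    · rintro ⟨h1, h2, h3, h4⟩
      push_cast at h2 h4
      exact ⟨⟨h1, by linarith⟩, h3, by linarith⟩
  obtain ⟨X, x1, x2, x3⟩ := exists_join (a := -(L:ℤ)) (b := -(L:ℤ)) (N := 2 * L) m S hS
    (fun p hp => (hbox p).1 (hin hp))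
  refine ⟨X.image dE, ?_, ?_, ?_⟩
  · rw [Finset.card_image_of_injective _ dE_injective]
    push_cast at x1
    exact x1
  · funext v
    have h1 := par_image X v
    rw [x2 v] at h1
    by_cases hv : v ∈ S
    · rw [if_pos hv] at h1
      by_cases h2 : par (ind (X.image dE)) v = true
      · rw [h2]; simp [hv]
      · rw [if_neg h2] at h1; exact absurd h1 (by decide)
    · rw [if_neg hv] at h1
      by_cases h2 : par (ind (X.image dE)) v = true
      · rw [if_pos h2] at h1; exact absurd h1 (by decide)
      · rw [Bool.eq_false_iff.2 h2]; simp [hv]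
  · intro f hf
    obtain ⟨e, he, rfl⟩ := Finset.mem_image.1 hf
    obtain ⟨h1, h2⟩ := x3 e he
    obtain ⟨⟨a, b⟩, c⟩ := e
    cases c
    · exact ⟨(a, b), 0, rfl, (hbox _).2 h1, by simpa [stp, tip] using (hbox _).2 h2⟩
    · exact ⟨(a, b), 1, rfl, (hbox _).2 h1, by simpa [stp, tip] using (hbox _).2 h2⟩

end TJ99
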