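import Pool.Agent.Helper99.TJ.S6E
import Pool.Agent.Helper99.TJ.TJoin2

set_option autoImplicit false

/-!
# Section 6, part F: union bound over all boundaries in a box
-/

namespace Pool.Agent.Helper99.TJ

open Pool.Agent.Helper60.TJ
open scoped symmDiff ENNReal
open MeasureTheory

/-- the edges at the plaquettes of the box -/
noncomputable def BxE (L : ℕ) : Finset Ed :=
  (box L ×ˢ (Finset.univ : Finset Dir)).image fun p => edg p.1 p.2

theorem edg_mem_BxE {L : ℕ} {v : Vx} (hv : v ∈ box L) (d : Dir) : edg v d ∈ BxE L :=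
  Finset.mem_image.2 ⟨(v, d), Finset.mem_product.2 ⟨hv, Finset.mem_univ _⟩, rfl⟩

theorem card_box (L : ℕ) : (box L).card = (2 * L + 1) ^ 2 := by
  unfold box
  rw [Finset.card_product, Int.card_Icc, pow_two]
  congr 1 <;> omega

theorem card_BxE (L : ℕ) : (BxE L).card ≤ 4 * (2 * L + 1) ^ 2 := by
  unfold BxE
  refine Finset.card_image_le.trans ?_
  rw [Finset.card_product, card_box, Finset.card_univ, Fintype.card_fin]
  omega

/-- the bound for the energies of edge sets with `2 m` boundary points in the box -/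
noncomputable def tt (L : ℕ) (Λ : ℝ) (m : ℕ) : ℝ :=
  Λ * √(108 * ((2 * L + 1) * Real.log (2 * L + 1)) * (m * √m))

theorem tt_nonneg (L : ℕ) {Λ : ℝ} (hΛ : 0 ≤ Λ) (m : ℕ) : 0 ≤ tt L Λ m :=
  mul_nonneg hΛ (Real.sqrt_nonneg _)

theorem log_nonneg' (L : ℕ) : 0 ≤ Real.log (2 * L + 1) :=
  Real.log_nonneg (by linarith [Nat.cast_nonneg (α := ℝ) L])

theorem tt_sq (L : ℕ) (Λ : ℝ) (m : ℕ) :
    tt L Λ m ^ 2 = Λ ^ 2 * (108 * ((2 * L + 1) * Real.log (2 * L + 1)) * (m * √m)) := by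
  unfold tt
  rw [mul_pow, Real.sq_sqrt]
  have := log_nonneg' L
  positivity

/-- one boundary set -/
theorem exp_le {L m c : ℕ} {Λ : ℝ} (hΛ : 0 < Λ) (hc : 0 < c) (hc2 : (c : ℝ) ≤ 9 * (2 * L + 1) * √m)
    (hL : 1 ≤ L) :
    Real.exp (-(tt L Λ m ^ 2 / (2 * (c * Λ ^ 2)))) ≤ ((2 * (L:ℝ) + 1) ^ (6 * m))⁻¹ := by
  have hlog := log_nonneg' L
  have hL0 : (0:ℝ) < 2 * L + 1 := by positivity
  have hc0 : (0:ℝ) < c := by exact_mod_cast hc
  have h1 : Real.exp (-(tt L Λ m ^ 2 / (2 * (c * Λ ^ 2)))) ≤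
      Real.exp (-((6 * m : ℕ) * Real.log (2 * L + 1))) := by
    rw [Real.exp_le_exp, neg_le_neg_iff, le_div_iff₀ (by positivity), tt_sq]
    have hs : 0 ≤ √(m:ℝ) := Real.sqrt_nonneg _
    have hq : √(m:ℝ) * √(m:ℝ) = m := Real.mul_self_sqrt (Nat.cast_nonneg _)
    push_cast
    have h2 : (6 * (m:ℝ) * Real.log (2 * L + 1)) * (2 * (c * Λ ^ 2)) ≤
        (6 * (m:ℝ) * Real.log (2 * L + 1)) * (2 * ((9 * (2 * L + 1) * √m) * Λ ^ 2)) := by
      refine mul_le_mul_of_nonneg_left ?_ (by positivity)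
      have := mul_le_mul_of_nonneg_right hc2 (by positivity : (0:ℝ) ≤ Λ ^ 2)
      linarith
    refine h2.trans (le_of_eq ?_)
    ring
  refine h1.trans (le_of_eq ?_)
  rw [Real.exp_neg, Real.exp_nat_mul, Real.exp_log hL0]

/-- the event that some boundary set has a low energy -/
def BadL (L : ℕ) (Λ : ℝ) : Set (Ed → ℝ) :=
  {J | (∀ e, J e ≠ 0) ∧ (∀ e ∈ BxE L, |J e| ≤ Λ) ∧ ∃ m : ℕ, 1 ≤ m ∧ ∃ S : Finset Vx, S ⊆ box L ∧
    S.card = 2 * m ∧ ∃ U ∈ GJ J, ∃ Y : Finset Ed, par (ind Y) = (fun v => decide (v ∈ S)) ∧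
      en (wt J) U Y < -tt L Λ m}

theorem geom_bound (L M k : ℕ) (hL : 1 ≤ L) :
    ∑ m ∈ Finset.Icc 1 M, ((((box L).powersetCard (2 * m)).card : ℕ) : ℝ) *
      (2 * k * ((2 * (L:ℝ) + 1) ^ (6 * m))⁻¹) ≤ 4 * k / (2 * L + 1) ^ 2 := by
  set x : ℝ := ((2 * (L:ℝ) + 1) ^ 2)⁻¹ with hx
  have hL1 : (1:ℝ) ≤ L := by exact_mod_cast hL
  have hb : (3:ℝ) ≤ 2 * L + 1 := by linarith
  have hx0 : 0 < x := by positivity
  have hx1 : x ≤ 1 / 9 := by
    rw [hx, inv_eq_one_div]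
    apply one_div_le_one_div_of_le (by norm_num)
    nlinarith
  have h1 : ∀ m ∈ Finset.Icc 1 M, ((((box L).powersetCard (2 * m)).card : ℕ) : ℝ) *
      (2 * k * ((2 * (L:ℝ) + 1) ^ (6 * m))⁻¹) ≤ 2 * k * x ^ m := by
    intro m _
    have h2 : ((((box L).powersetCard (2 * m)).card : ℕ) : ℝ) ≤ (2 * (L:ℝ) + 1) ^ (4 * m) := by
      rw [Finset.card_powersetCard, card_box]
      have h3 : ((2 * L + 1) ^ 2).choose (2 * m) ≤ ((2 * L + 1) ^ 2) ^ (2 * m) := Nat.choose_le_pow _ _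
      have h4 : ((2 * L + 1) ^ 2) ^ (2 * m) = (2 * L + 1) ^ (4 * m) := by
        rw [← pow_mul]; congr 1; ring
      rw [h4] at h3
      exact_mod_cast h3
    calc ((((box L).powersetCard (2 * m)).card : ℕ) : ℝ) * (2 * k * ((2 * (L:ℝ) + 1) ^ (6 * m))⁻¹)
        ≤ (2 * (L:ℝ) + 1) ^ (4 * m) * (2 * k * ((2 * (L:ℝ) + 1) ^ (6 * m))⁻¹) :=
          mul_le_mul_of_nonneg_right h2 (by positivity)
      _ = 2 * k * x ^ m := by
          have h5 : (2 * (L:ℝ) + 1) ^ (6 * m) = (2 * (L:ℝ) + 1) ^ (4 * m) * (2 * (L:ℝ) + 1) ^ (2 * m) := by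
            rw [← pow_add]; congr 1; ring
          rw [hx, inv_pow, ← pow_mul, h5, mul_inv]
          have h6 : (2 * (L:ℝ) + 1) ^ (4 * m) ≠ 0 := by positivity
          field_simp
  refine (Finset.sum_le_sum h1).trans ?_
  rw [← Finset.mul_sum]
  have h2 : ∑ m ∈ Finset.Icc 1 M, x ^ m ≤ 2 * x := by
    have h3 : ∀ M : ℕ, ∑ m ∈ Finset.Icc 1 M, x ^ m ≤ 2 * x - 2 * x ^ (M + 1) := by
      intro M
      induction M with
      | zero => simp
      | succ n ih =>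
        rw [Finset.sum_Icc_succ_top (by omega)]
        have h4 : x ^ (n + 1 + 1) = x ^ (n + 1) * x := pow_succ _ _
        have h5 : 0 < x ^ (n + 1) := by positivity
        rw [h4]
        nlinarith
    refine (h3 M).trans ?_
    have : 0 < x ^ (M + 1) := by positivity
    linarith
  calc 2 * (k:ℝ) * ∑ m ∈ Finset.Icc 1 M, x ^ m ≤ 2 * k * (2 * x) :=
        mul_le_mul_of_nonneg_left h2 (by positivity)
    _ = 4 * k / (2 * L + 1) ^ 2 := by rw [hx]; ring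

/-- **Union bound.** -/
theorem prob_BadL {μ : Measure ℝ} [IsProbabilityMeasure μ] (hsym : μ.map (fun x => -x) = μ)
    {k : ℕ} (hnice : ∀ᵐ J ∂(PP μ), ∀ D : Finset Ed, Nice k (flp (ind D) J))
    {L : ℕ} (hL : 1 ≤ L) {Λ : ℝ} (hΛ : 0 < Λ) :
    PP μ (BadL L Λ) ≤ ENNReal.ofReal (4 * k / (2 * L + 1) ^ 2) := by
  classical
  have hex : ∀ (m : ℕ) (S : Finset Vx), ∃ X : Finset Ed, S.card = 2 * m → S ⊆ box L →
      (X.card : ℝ) ≤ 9 * (2 * L + 1) * √m ∧
      par (ind X) = (fun v => decide (v ∈ S)) ∧ X ⊆ BxE L := by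
    intro m S
    by_cases h : S.card = 2 * m ∧ S ⊆ box L
    · obtain ⟨X, h1, h2, h3⟩ := TJ99.exists_join_box m S h.1 h.2
      refine ⟨X, fun _ _ => ⟨h1, h2, ?_⟩⟩
      intro e he
      obtain ⟨v, d, h4, h5, _⟩ := h3 e he
      rw [← h4]
      exact edg_mem_BxE h5 d
    · exact ⟨∅, fun h1 h2 => absurd ⟨h1, h2⟩ h⟩
  choose X hX using hex
  have hsub : BadL L Λ ⊆ ⋃ m ∈ Finset.Icc 1 (box L).card, ⋃ S ∈ (box L).powersetCard (2 * m),
      LowW (BxE L) Λ (X m S) (tt L Λ m) := by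
    rintro J ⟨h1, h2, m, hm, S, hS, hcard, U, hU, Y, hY1, hY2⟩
    simp only [Set.mem_iUnion]
    refine ⟨m, Finset.mem_Icc.2 ⟨hm, ?_⟩, S, Finset.mem_powersetCard.2 ⟨hS, hcard⟩, h1, h2, U, hU, Y,
      ?_, hY2⟩
    · have := Finset.card_le_card hS
      omega
    · apply isCyc_symmDiff_of_eq
      rw [hY1, (hX m S hcard hS).2.1]
  refine (measure_mono hsub).trans ?_
  refine (measure_biUnion_finset_le _ _).trans ?_
  have h1 : ∀ m ∈ Finset.Icc 1 (box L).card,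
      PP μ (⋃ S ∈ (box L).powersetCard (2 * m), LowW (BxE L) Λ (X m S) (tt L Λ m)) ≤
      ENNReal.ofReal (((((box L).powersetCard (2 * m)).card : ℕ) : ℝ) *
        (2 * k * ((2 * (L:ℝ) + 1) ^ (6 * m))⁻¹)) := by
    intro m hm
    rw [Finset.mem_Icc] at hm
    refine (measure_biUnion_finset_le _ _).trans ?_
    have h2 : ∀ S ∈ (box L).powersetCard (2 * m), PP μ (LowW (BxE L) Λ (X m S) (tt L Λ m)) ≤
        ENNReal.ofReal (2 * k * ((2 * (L:ℝ) + 1) ^ (6 * m))⁻¹) := by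
      intro S hS
      obtain ⟨hS1, hS2⟩ := Finset.mem_powersetCard.1 hS
      obtain ⟨hX1, hX2, hX3⟩ := hX m S hS2 hS1
      refine (prob_low hsym hnice hX3 (tt_nonneg L hΛ.le m)).trans ?_
      refine ENNReal.ofReal_le_ofReal ?_
      refine mul_le_mul_of_nonneg_left ?_ (by positivity)
      refine exp_le hΛ ?_ hX1 hL
      rw [Finset.card_pos]
      by_contra hne
      rw [Finset.not_nonempty_iff_eq_empty] at hne
      have hSne : S.Nonempty := by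
        rw [← Finset.card_pos]; omega
      obtain ⟨v, hv⟩ := hSne
      have h3 := congrFun hX2 v
      rw [hne, par_empty] at h3
      simp [hv] at h3
    refine (Finset.sum_le_sum h2).trans ?_
    rw [Finset.sum_const, nsmul_eq_mul, ENNReal.ofReal_mul (Nat.cast_nonneg _),
      ENNReal.ofReal_natCast]
  refine (Finset.sum_le_sum h1).trans ?_
  rw [← ENNReal.ofReal_sum_of_nonneg fun m _ => by positivity]
  exact ENNReal.ofReal_le_ofReal (geom_bound L _ k hL)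

end Pool.Agent.Helper99.TJ
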