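import Pool.Agent.Helper99.TJ.S6G
import Pool.Agent.Helper99.TJ.S6F

set_option autoImplicit false

/-!
# Section 6, part G2: few starting points in a box have a low energy after `n` steps
-/

namespace Pool.Agent.Helper99.TJ

open Pool.Agent.Helper60.TJ
open scoped symmDiff

/-- the point of the wall space which corresponds to a directed edge -/
def yz (p : XX) (z : DE) : YY := (shX z.1 p, z.2)

theorem nxt_sh (W : Ed → Bool) (u v : Vx) (d : Dir) : nxt (sh u W) v d = nxt W (v + u) d := by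
  unfold nxt
  rw [sh_edg, sh_edg]

theorem Th_yz (p : XX) (z : DE) : Th (yz p z) = yz p (tau (wl p) z) := by
  obtain ⟨v, d⟩ := z
  show ((shX (stp d) (shX v p), nxt (wl (shX (stp d) (shX v p))) 0 d) : YY) =
    (shX (v + stp d) p, nxt (wl p) (v + stp d) d)
  rw [shX_shX, wl_shX, nxt_sh, zero_add, add_comm v]

theorem Th_iter_yz (p : XX) (z : DE) (n : ℕ) : Th^[n] (yz p z) = yz p ((tau (wl p))^[n] z) := by
  induction n with
  | zero => rfl
  | succ n ih => rw [Function.iterate_succ_apply', ih, Th_yz, Function.iterate_succ_apply']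

theorem tau_pos (p : XX) (z : DE) (n : ℕ) : ((tau (wl p))^[n] z).1 = z.1 + pos (yz p z) n := by
  induction n with
  | zero => simp [pos]
  | succ n ih =>
    rw [Function.iterate_succ_apply']
    show ((tau (wl p))^[n] z).1 + stp ((tau (wl p))^[n] z).2 = z.1 + (pos (yz p z) n + stp (Th^[n] (yz p z)).2)
    rw [ih, Th_iter_yz, add_assoc]
    rfl

/-- acyclic -/
def Ac (W : Ed → Bool) : Prop := ∀ C : Finset Ed, IsCyc C → (∀ e ∈ C, W e = true) → C = ∅

theorem gy_yz {p : XX} (hdeg : Deg2 (wl p)) (hac : Ac (wl p)) {z : DE} (hz : On (wl p) z) :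
    GY (yz p z) := by
  refine ⟨⟨fun v => ?_, fun v => ?_⟩, ?_, ?_⟩
  · show par (sh z.1 (wl p)) v = false
    rw [par_sh]; exact hdeg.1 _
  · obtain ⟨d, hd⟩ := hdeg.2 (v + z.1)
    exact ⟨d, by show sh z.1 (wl p) (edg v d) = false; rw [sh_edg]; exact hd⟩
  · show sh z.1 (wl p) (edg 0 z.2) = true
    rw [sh_edg, zero_add]; exact hz
  · intro C hC hW
    have h1 : shF (-z.1) C = ∅ := by
      apply hac _ (isCyc_shF.2 hC)
      intro e he
      rw [mem_shF] at he
      have := hW _ he
      change sh z.1 (wl p) _ = true at this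
      unfold sh at this
      simpa using this
    have h2 : shF z.1 (shF (-z.1) C) = ∅ := by rw [h1]; rfl
    rwa [shF_shF, add_neg_cancel, shF_zero] at h2

theorem we_eq (p : XX) (z : DE) (i : ℕ) :
    we (wl p) z i = ((wedge (yz p z) i).1 + z.1, (wedge (yz p z) i).2) := by
  unfold we wedge
  rw [tau_pos, Th_iter_yz, add_comm z.1, edg_add]
  rfl

theorem sg'_eq (p : XX) (z : DE) (n : ℕ) : sg' (wl p) n z = shF (-z.1) (seg (yz p z) n) := by
  ext e
  rw [mem_shF]
  unfold sg' seg
  rw [Finset.mem_image, Finset.mem_image]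
  constructor
  · rintro ⟨i, hi, rfl⟩
    refine ⟨i, hi, ?_⟩
    rw [we_eq]
    simp
  · rintro ⟨i, hi, h⟩
    refine ⟨i, hi, ?_⟩
    rw [we_eq, h]
    simp

theorem en_sg' {p : XX} (hdeg : Deg2 (wl p)) (hac : Ac (wl p)) {z : DE} (hz : On (wl p) z) (n : ℕ) :
    en (wt p.1) p.2.1 (sg' (wl p) n z) = Vn n (yz p z) := by
  rw [sg'_eq, Vn_eq (gy_yz hdeg hac hz)]
  have h1 := en_sh (-z.1) (wt (sh z.1 p.1)) (sh z.1 p.2.1) (seg (yz p z) n)
  rw [wt_sh, sh_sh, sh_sh, neg_add_cancel, sh_zero, sh_zero] at h1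
  exact h1

theorem par_sg' {p : XX} (hdeg : Deg2 (wl p)) (hac : Ac (wl p)) {z : DE} (hz : On (wl p) z) (n : ℕ) :
    par (ind (sg' (wl p) n z)) = vx (dl z.1) (dl (z.1 + pos (yz p z) n)) := by
  funext v
  rw [sg'_eq, ind_shF, par_sh, par_seg (gy_yz hdeg hac hz)]
  unfold vx dl
  have e1 : (v + -z.1 = 0) ↔ (v = z.1) := by rw [← sub_eq_add_neg, sub_eq_zero]
  have e2 : (v + -z.1 = pos (yz p z) n) ↔ (v = z.1 + pos (yz p z) n) := by
    rw [← sub_eq_add_neg, sub_eq_iff_eq_add, add_comm]
  simp only [e1, e2]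

/-- boundaries of disjoint unions of paths -/
theorem exists_bdry (Z : Finset DE) (Y : DE → Finset Ed) (a b : DE → Vx)
    (hd : ∀ z ∈ Z, ∀ z' ∈ Z, z ≠ z' → Disjoint (Y z) (Y z'))
    (hp : ∀ z ∈ Z, par (ind (Y z)) = vx (dl (a z)) (dl (b z))) {B : Finset Vx}
    (ha : ∀ z ∈ Z, a z ∈ B) (hb : ∀ z ∈ Z, b z ∈ B) :
    ∃ S ⊆ B, ∃ m : ℕ, m ≤ Z.card ∧ S.card = 2 * m ∧
      par (ind (Z.biUnion Y)) = fun v => decide (v ∈ S) := by
  induction Z using Finset.induction_on with
  | empty =>
    refine ⟨∅, Finset.empty_subset _, 0, le_rfl, rfl, ?_⟩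
    rw [Finset.biUnion_empty, par_empty]
    funext v; simp
  | insert z Z hz ih =>
    obtain ⟨S, hS, m, hm, hcard, hpar⟩ := ih
      (fun x hx x' hx' => hd x (Finset.mem_insert_of_mem hx) x' (Finset.mem_insert_of_mem hx'))
      (fun x hx => hp x (Finset.mem_insert_of_mem hx))
      (fun x hx => ha x (Finset.mem_insert_of_mem hx))
      (fun x hx => hb x (Finset.mem_insert_of_mem hx))
    have hdis : Disjoint (Y z) (Z.biUnion Y) := by
      rw [Finset.disjoint_biUnion_right]
      intro x hx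
      refine hd z (Finset.mem_insert_self _ _) x (Finset.mem_insert_of_mem hx) ?_
      rintro rfl
      exact hz hx
    have hun : (insert z Z).biUnion Y = (Y z) ∆ (Z.biUnion Y) := by
      rw [Finset.biUnion_insert, ← Finset.sup_eq_union]
      exact hdis.symmDiff_eq_sup.symm
    have hcs : ∀ A B : Finset Vx, (A ∆ B).card + 2 * (A ∩ B).card = A.card + B.card := by
      intro A B
      have h1 : (A ∆ B).card = (A \ B).card + (B \ A).card := by
        rw [symmDiff_def, Finset.sup_eq_union, Finset.card_union_of_disjoint]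
        exact Finset.disjoint_left.2 fun x hx hx' =>
          (Finset.mem_sdiff.1 hx').2 (Finset.mem_sdiff.1 hx).1
      have h2 := Finset.card_sdiff_add_card_inter A B
      have h3 := Finset.card_sdiff_add_card_inter B A
      rw [Finset.inter_comm B A] at h3
      omega
    set S' := (({a z} : Finset Vx) ∆ {b z}) ∆ S with hS'
    have h1 := hcs {a z} {b z}
    have h2 := hcs (({a z} : Finset Vx) ∆ {b z}) S
    have h3 : ((({a z} : Finset Vx) ∩ {b z})).card ≤ 1 := by
      refine (Finset.card_le_card Finset.inter_subset_left).trans ?_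
      rw [Finset.card_singleton]
    rw [Finset.card_singleton, Finset.card_singleton] at h1
    refine ⟨S', ?_, S'.card / 2, ?_, ?_, ?_⟩
    · intro v hv
      rw [hS', Finset.mem_symmDiff, Finset.mem_symmDiff] at hv
      rcases hv with ⟨h | h, _⟩ | ⟨h, _⟩
      · rw [Finset.mem_singleton.1 h.1]; exact ha z (Finset.mem_insert_self _ _)
      · rw [Finset.mem_singleton.1 h.1]; exact hb z (Finset.mem_insert_self _ _)
      · exact hS h
    · rw [Finset.card_insert_of_notMem hz, hS']
      omega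
    · rw [hS']; omega
    · rw [hun, par_ind_symmDiff, hp z (Finset.mem_insert_self _ _), hpar]
      funext v
      unfold vx dl
      by_cases h4 : v = a z <;> by_cases h5 : v = b z <;> by_cases h6 : v ∈ S <;>
        simp [hS', Finset.mem_symmDiff, h4, h5, h6] <;> simp_all
end Pool.Agent.Helper99.TJ
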