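import Pool.Agent.Helper99.TJ.S6J

set_option autoImplicit false

/-!
# Section 6, part H2: the energies after `n` steps are at most `n ^ (1/3)`
-/

namespace Pool.Agent.Helper99.TJ

open Pool.Agent.Helper60.TJ
open scoped symmDiff ENNReal
open MeasureTheory Filter Topology

/-- first term -/
theorem term_one {a ε s : ℝ} (hε : 0 < ε) (hs : 1 + 4 * a + 2 * ε - 4 / 3 = -s) {n : ℕ} (hn : 1 ≤ n) :
    8 * n * NB (2 * n) ((n:ℝ) ^ a) ((n:ℝ) ^ (1 / 3 : ℝ)) / (2 * n + 1) ^ 2 ≤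
      (8 * 108 ^ 2 * 4 * 5 ^ (2 * ε) / ε ^ 2) * (n:ℝ) ^ (-s) := by
  have hn1 : (1:ℝ) ≤ n := by exact_mod_cast hn
  have hn0 : (0:ℝ) < n := by linarith
  unfold NB
  push_cast
  set l := Real.log (2 * (2 * (n:ℝ)) + 1) with hl
  have hl0 : 0 ≤ l := Real.log_nonneg (by linarith)
  have hl1 : l ≤ (5 * (n:ℝ)) ^ ε / ε := by
    refine (Real.log_le_rpow_div (by positivity) hε).trans ?_
    refine div_le_div_of_nonneg_right ?_ hε.le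
    exact Real.rpow_le_rpow (by positivity) (by linarith) hε.le
  have hl2 : l ^ 2 ≤ (5 * (n:ℝ)) ^ (2 * ε) / ε ^ 2 := by
    have h1 := pow_le_pow_left₀ hl0 hl1 2
    rw [div_pow, ← Real.rpow_natCast ((5 * (n:ℝ)) ^ ε) 2, ← Real.rpow_mul (by positivity)] at h1
    have h2 : ε * ((2:ℕ):ℝ) = 2 * ε := by push_cast; ring
    rwa [h2] at h1
  have e1 : ((n:ℝ) ^ a) ^ 4 = (n:ℝ) ^ (4 * a) := by
    rw [← Real.rpow_natCast ((n:ℝ) ^ a) 4, ← Real.rpow_mul hn0.le]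
    congr 1; push_cast; ring
  have e2 : ((n:ℝ) ^ (1 / 3 : ℝ)) ^ 4 = (n:ℝ) ^ (4 / 3 : ℝ) := by
    rw [← Real.rpow_natCast ((n:ℝ) ^ (1 / 3 : ℝ)) 4, ← Real.rpow_mul hn0.le]
    congr 1; push_cast; ring
  rw [e1, e2]
  have h3 : (2 * (2 * (n:ℝ)) + 1) ^ 2 ≤ 4 * (2 * n + 1) ^ 2 := by nlinarith
  have h4 : 8 * (n:ℝ) * ((n:ℝ) ^ (4 * a) * (108 * ((2 * (2 * (n:ℝ)) + 1) * l)) ^ 2 / (n:ℝ) ^ (4 / 3 : ℝ)) /
      (2 * n + 1) ^ 2 = (8 * 108 ^ 2) * ((n:ℝ) * (n:ℝ) ^ (4 * a) / (n:ℝ) ^ (4 / 3 : ℝ)) *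
        ((2 * (2 * (n:ℝ)) + 1) ^ 2 / (2 * n + 1) ^ 2) * l ^ 2 := by ring
  rw [h4]
  have h5 : (2 * (2 * (n:ℝ)) + 1) ^ 2 / (2 * n + 1) ^ 2 ≤ 4 := by
    rw [div_le_iff₀ (by positivity)]; exact h3
  have h6 : (n:ℝ) * (n:ℝ) ^ (4 * a) / (n:ℝ) ^ (4 / 3 : ℝ) = (n:ℝ) ^ (1 + 4 * a - 4 / 3) := by
    rw [Real.rpow_sub hn0, Real.rpow_add hn0, Real.rpow_one]
  rw [h6]
  have h7 : (5 * (n:ℝ)) ^ (2 * ε) = 5 ^ (2 * ε) * (n:ℝ) ^ (2 * ε) :=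
    Real.mul_rpow (by norm_num) hn0.le
  calc (8 * 108 ^ 2) * (n:ℝ) ^ (1 + 4 * a - 4 / 3) *
        ((2 * (2 * (n:ℝ)) + 1) ^ 2 / (2 * n + 1) ^ 2) * l ^ 2
      ≤ (8 * 108 ^ 2) * (n:ℝ) ^ (1 + 4 * a - 4 / 3) * 4 * ((5 * (n:ℝ)) ^ (2 * ε) / ε ^ 2) := by
        apply mul_le_mul _ hl2 (by positivity) (by positivity)
        exact mul_le_mul_of_nonneg_left h5 (by positivity)
    _ = (8 * 108 ^ 2 * 4 * 5 ^ (2 * ε) / ε ^ 2) * ((n:ℝ) ^ (1 + 4 * a - 4 / 3) * (n:ℝ) ^ (2 * ε)) := by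
        rw [h7]; ring
    _ = _ := by
        rw [← Real.rpow_add hn0]
        congr 2
        linarith

theorem term_two {n : ℕ} (hn : 1 ≤ n) (k : ℕ) :
    4 * (k:ℝ) / (2 * (2 * n : ℕ) + 1) ^ 2 ≤ 4 * k * (n:ℝ) ^ (-1 : ℝ) := by
  have hn1 : (1:ℝ) ≤ n := by exact_mod_cast hn
  have hn0 : (0:ℝ) < n := by linarith
  rw [Real.rpow_neg_one, ← div_eq_mul_inv]
  refine div_le_div_of_nonneg_left (by positivity) hn0 ?_
  push_cast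
  nlinarith

theorem term_three {a q M s : ℝ} (hM : 0 ≤ M) (hs : 2 - a * q = -s) {n : ℕ} (hn : 1 ≤ n) :
    4 * (2 * ((2 * n : ℕ) : ℝ) + 1) ^ 2 * (M / ((n:ℝ) ^ a) ^ q) ≤ (100 * M) * (n:ℝ) ^ (-s) := by
  have hn1 : (1:ℝ) ≤ n := by exact_mod_cast hn
  have hn0 : (0:ℝ) < n := by linarith
  rw [← Real.rpow_mul hn0.le]
  push_cast
  have h1 : (2 * (2 * (n:ℝ)) + 1) ^ 2 ≤ 25 * n ^ 2 := by nlinarith
  have h2 : (n:ℝ) ^ (-s) = (n:ℝ) ^ 2 / (n:ℝ) ^ (a * q) := by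
    rw [← hs, Real.rpow_sub hn0, Real.rpow_two]
  rw [h2]
  calc 4 * (2 * (2 * (n:ℝ)) + 1) ^ 2 * (M / (n:ℝ) ^ (a * q))
      ≤ 4 * (25 * n ^ 2) * (M / (n:ℝ) ^ (a * q)) := by
        refine mul_le_mul_of_nonneg_right ?_ (by positivity)
        linarith
    _ = _ := by ring

theorem markov_rpow {μ : Measure ℝ} [IsProbabilityMeasure μ] {q : ℝ} (hq : 0 < q)
    (hmom : Integrable (fun x : ℝ => |x| ^ q) μ) {Λ : ℝ} (hΛ : 0 < Λ) :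
    μ {x | Λ < |x|} ≤ ENNReal.ofReal ((∫ x, |x| ^ q ∂μ) / Λ ^ q) := by
  have h1 := mul_meas_ge_le_integral_of_nonneg (μ := μ) (f := fun x : ℝ => |x| ^ q)
    (Eventually.of_forall fun x => by positivity) hmom (Λ ^ q)
  have h2 : μ.real {x | Λ < |x|} ≤ μ.real {x | Λ ^ q ≤ |x| ^ q} := by
    refine measureReal_mono (fun x hx => ?_) (measure_ne_top _ _)
    exact Real.rpow_le_rpow hΛ.le (le_of_lt hx) hq.le
  have hΛq : 0 < Λ ^ q := Real.rpow_pos_of_pos hΛ q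
  rw [← ofReal_measureReal (measure_ne_top _ _)]
  refine ENNReal.ofReal_le_ofReal ?_
  rw [le_div_iff₀ hΛq]
  calc μ.real {x | Λ < |x|} * Λ ^ q ≤ μ.real {x | Λ ^ q ≤ |x| ^ q} * Λ ^ q :=
        mul_le_mul_of_nonneg_right h2 hΛq.le
    _ = Λ ^ q * μ.real {x | Λ ^ q ≤ |x| ^ q} := mul_comm _ _
    _ ≤ _ := h1

/-- **Section 6.** -/
theorem sub_main {μ : Measure ℝ} [IsProbabilityMeasure μ] (hsym : μ.map (fun x => -x) = μ)
    {q : ℝ} (hq : 24 < q) (hmom : Integrable (fun x : ℝ => |x| ^ q) μ)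
    {k : ℕ} (hN : ∀ᵐ J ∂(PP μ), Nice k J) {Q : Measure XX} (hQ : IsQ μ k Q) {δ : ℝ} (hδ : 0 < δ) :
    ∃ n₁ : ℕ, ∀ n ≥ n₁, ∀ m ≤ n, (nuM Q).real {y | (n : ℝ) < |Vn m y| ^ 3} ≤ δ := by
  have hnice : ∀ᵐ J ∂(PP μ), ∀ D : Finset Ed, Nice k (flp (ind D) J) :=
    ae_all_iff.2 fun D => ae_flp hsym (ind D) hN
  set M : ℝ := ∫ x, |x| ^ q ∂μ with hM
  have hM0 : 0 ≤ M := integral_nonneg fun x => by positivity
  set a : ℝ := 1 / q + 1 / 24 with ha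
  have hq0 : 0 < q := by linarith
  have haq : a * q = 1 + q / 24 := by
    rw [ha]; field_simp
  have ha1 : a < 1 / 12 := by
    have : 1 / q < 1 / 24 := one_div_lt_one_div_of_lt (by norm_num) hq
    rw [ha]; linarith
  set s : ℝ := (1 / 3 - 4 * a) / 2 with hs
  have hs0 : 0 < s := by rw [hs]; linarith
  set ε : ℝ := (1 / 3 - 4 * a) / 4 with hεd
  have hε : 0 < ε := by rw [hεd]; linarith
  set s2 : ℝ := a * q - 2 with hs2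
  have hs20 : 0 < s2 := by rw [hs2, haq]; linarith
  set C1 : ℝ := (8 * 108 ^ 2 * 4 * 5 ^ (2 * ε) / ε ^ 2) with hC1
  have hlim : Tendsto (fun n : ℕ => C1 * (n:ℝ) ^ (-s) * (k * k) +
      4 * (k * k) * (4 * k * (n:ℝ) ^ (-1 : ℝ) + (100 * M) * (n:ℝ) ^ (-s2))) atTop (𝓝 0) := by
    have h1 : ∀ t : ℝ, 0 < t → Tendsto (fun n : ℕ => (n:ℝ) ^ (-t)) atTop (𝓝 0) := fun t ht =>
      (tendsto_rpow_neg_atTop ht).comp tendsto_natCast_atTop_atTop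
    have h2 := (((h1 s hs0).const_mul C1).mul_const ((k:ℝ) * k)).add
      (((((h1 1 one_pos).const_mul (4 * (k:ℝ))).add ((h1 s2 hs20).const_mul (100 * M)))).const_mul
        (4 * ((k:ℝ) * k)))
    simpa using h2
  obtain ⟨n₀, hn₀⟩ := eventually_atTop.1 (hlim.eventually_le_const hδ)
  refine ⟨max n₀ 1, fun n hn m hmn => ?_⟩
  have hn1 : 1 ≤ n := le_trans (le_max_right _ _) hn
  have hnR : (1:ℝ) ≤ n := by exact_mod_cast hn1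
  have hn0 : (0:ℝ) < n := by linarith
  have hkey := nu_large hsym hnice hQ (M := M) (q := q) (fun Λ hΛ => markov_rpow hq0 hmom hΛ) hM0
    hn1 hmn (Λ := (n:ℝ) ^ a) (lam := (n:ℝ) ^ (1 / 3 : ℝ)) (by positivity) (by positivity)
  have hsub : nuM Q {y | (n : ℝ) < |Vn m y| ^ 3} ≤ nuM Q {y | (n:ℝ) ^ (1 / 3 : ℝ) ≤ |Vn m y|} := by
    refine measure_mono fun y hy => ?_
    by_contra hcon
    have hcon' : |Vn m y| < (n:ℝ) ^ (1 / 3 : ℝ) := not_le.1 hcon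
    have h1 : |Vn m y| ^ 3 < ((n:ℝ) ^ (1 / 3 : ℝ)) ^ 3 :=
      pow_lt_pow_left₀ hcon' (abs_nonneg _) (by norm_num)
    have h2 : ((n:ℝ) ^ (1 / 3 : ℝ)) ^ 3 = n := by
      rw [← Real.rpow_natCast ((n:ℝ) ^ (1 / 3 : ℝ)) 3, ← Real.rpow_mul hn0.le]
      norm_num
    rw [h2] at h1
    exact absurd hy (not_lt.2 h1.le)
  have hbd : nuM Q {y | (n : ℝ) < |Vn m y| ^ 3} ≤ ENNReal.ofReal δ := by
    refine hsub.trans (hkey.trans (ENNReal.ofReal_le_ofReal ?_))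
    refine le_trans ?_ (hn₀ n (le_trans (le_max_left _ _) hn))
    have t1 := term_one (a := a) (ε := ε) (s := s) hε (by rw [hs, hεd]; ring) hn1
    have t2 := term_two hn1 k
    have t3 := term_three (a := a) (q := q) (M := M) (s := s2) hM0 (by rw [hs2]; ring) hn1
    refine add_le_add (mul_le_mul_of_nonneg_right t1 (by positivity)) ?_
    exact mul_le_mul_of_nonneg_left (add_le_add t2 t3) (by positivity)
  rw [Measure.real]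
  exact ENNReal.toReal_le_of_le_ofReal hδ.le hbd

end Pool.Agent.Helper99.TJ
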