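import Mathlib

/-! # Bounded differences inequality for fair bits -/

set_option autoImplicit false

namespace Pool.Agent.Helper99.TJ

open Finset

/-- the moment generating function for `n` fair bits -/
theorem mgf_fin (n : ℕ) : ∀ (f : (Fin n → Bool) → ℝ) (c : Fin n → ℝ),
    (∀ s i, |f (Function.update s i (!s i)) - f s| ≤ c i) → ∀ l : ℝ,
    ∑ s, Real.exp (l * f s) ≤
      2 ^ n * Real.exp (l * ((∑ s, f s) / 2 ^ n) + l ^ 2 * (∑ i, c i ^ 2) / 8) := by
  induction n with
  | zero =>
    intro f c _ l
    simp
  | succ n ih =>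
    intro f c h l
    -- average over the first bit
    set g : (Fin n → Bool) → ℝ := fun s => (f (Fin.cons false s) + f (Fin.cons true s)) / 2 with hg
    have hsum : ∀ F : (Fin (n + 1) → Bool) → ℝ,
        ∑ s, F s = ∑ s : Fin n → Bool, (F (Fin.cons false s) + F (Fin.cons true s)) := by
      intro F
      rw [← (Fin.consEquiv fun _ => Bool).sum_comp, Fintype.sum_prod_type, Fintype.sum_bool,
        ← Finset.sum_add_distrib]
      refine Finset.sum_congr rfl fun s _ => ?_
      rw [add_comm]
      rfl
    have hgd : ∀ s i, |g (Function.update s i (!s i)) - g s| ≤ c i.succ := by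
      intro s i
      have h1 := h (Fin.cons false s) i.succ
      have h2 := h (Fin.cons true s) i.succ
      rw [Fin.cons_succ, ← Fin.cons_update] at h1 h2
      rw [abs_le] at h1 h2 ⊢
      simp only [hg]
      constructor <;> linarith [h1.1, h1.2, h2.1, h2.2]
    have hpoint : ∀ s : Fin n → Bool,
        Real.exp (l * f (Fin.cons false s)) + Real.exp (l * f (Fin.cons true s)) ≤
          2 * Real.exp (l ^ 2 * c 0 ^ 2 / 8) * Real.exp (l * g s) := by
      intro s
      set d := (f (Fin.cons true s) - f (Fin.cons false s)) / 2 with hd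
      have hd1 : |f (Fin.cons true s) - f (Fin.cons false s)| ≤ c 0 := by
        have := h (Fin.cons false s) 0
        simpa using this
      have h3 : Real.exp (l * f (Fin.cons false s)) + Real.exp (l * f (Fin.cons true s)) =
          2 * Real.cosh (l * d) * Real.exp (l * g s) := by
        rw [Real.cosh_eq, mul_div_cancel₀ _ (two_ne_zero), add_mul, ← Real.exp_add, ← Real.exp_add,
          add_comm]
        congr 2
        · simp only [hg, hd]
          ring
        · simp only [hg, hd]
          ring
      rw [h3]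
      refine mul_le_mul_of_nonneg_right ?_ (Real.exp_pos _).le
      refine mul_le_mul_of_nonneg_left ?_ zero_le_two
      refine (Real.cosh_le_exp_half_sq _).trans ?_
      refine Real.exp_le_exp.2 ?_
      have h4 : d ^ 2 ≤ c 0 ^ 2 / 4 := by
        have h5 : (f (Fin.cons true s) - f (Fin.cons false s)) ^ 2 ≤ c 0 ^ 2 := by
          rw [← sq_abs]
          exact pow_le_pow_left₀ (abs_nonneg _) hd1 2
        rw [hd]
        nlinarith
      nlinarith [sq_nonneg l]
    have hmean : (∑ s, f s) / 2 ^ (n + 1) = (∑ s, g s) / 2 ^ n := by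
      rw [hsum f]
      simp only [hg]
      rw [← Finset.sum_div, pow_succ]
      field_simp
    calc ∑ s, Real.exp (l * f s)
        = ∑ s : Fin n → Bool, (Real.exp (l * f (Fin.cons false s)) +
            Real.exp (l * f (Fin.cons true s))) := hsum _
      _ ≤ ∑ s : Fin n → Bool, 2 * Real.exp (l ^ 2 * c 0 ^ 2 / 8) * Real.exp (l * g s) :=
          Finset.sum_le_sum fun s _ => hpoint s
      _ = 2 * Real.exp (l ^ 2 * c 0 ^ 2 / 8) * ∑ s, Real.exp (l * g s) := by
          rw [Finset.mul_sum]
      _ ≤ 2 * Real.exp (l ^ 2 * c 0 ^ 2 / 8) *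
            (2 ^ n * Real.exp (l * ((∑ s, g s) / 2 ^ n) + l ^ 2 * (∑ i : Fin n, c i.succ ^ 2) / 8)) :=
          mul_le_mul_of_nonneg_left (ih g (fun i => c i.succ) hgd l) (by positivity)
      _ = _ := by
          rw [hmean, Fin.sum_univ_succ]
          rw [show 2 * Real.exp (l ^ 2 * c 0 ^ 2 / 8) *
            (2 ^ n * Real.exp (l * ((∑ s, g s) / 2 ^ n) + l ^ 2 * (∑ i : Fin n, c i.succ ^ 2) / 8)) =
            2 ^ (n + 1) * (Real.exp (l ^ 2 * c 0 ^ 2 / 8) *
              Real.exp (l * ((∑ s, g s) / 2 ^ n) + l ^ 2 * (∑ i : Fin n, c i.succ ^ 2) / 8)) by ring,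
            ← Real.exp_add]
          congr 2
          ring

/-- the moment generating function for fair bits indexed by a finite type -/
theorem mgf_bits {ι : Type*} [Fintype ι] [DecidableEq ι] (f : (ι → Bool) → ℝ) (c : ι → ℝ)
    (h : ∀ s i, |f (Function.update s i (!s i)) - f s| ≤ c i) (l : ℝ) :
    ∑ s, Real.exp (l * f s) ≤
      2 ^ Fintype.card ι * Real.exp (l * ((∑ s, f s) / 2 ^ Fintype.card ι) +
        l ^ 2 * (∑ i, c i ^ 2) / 8) := by
  classical
  set e := Fintype.equivFin ι with he
  set E : (Fin (Fintype.card ι) → Bool) ≃ (ι → Bool) := e.arrowCongr (Equiv.refl Bool) |>.symm with hE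
  have hE1 : ∀ s i, E s i = s (e i) := fun s i => rfl
  have hup : ∀ s i, E (Function.update s i (!s i)) =
      Function.update (E s) (e.symm i) (!(E s) (e.symm i)) := by
    intro s i
    funext k
    rw [hE1]
    by_cases hk : e k = i
    · have : k = e.symm i := by rw [← hk, Equiv.symm_apply_apply]
      subst this
      rw [Function.update_self, hE1, Equiv.apply_symm_apply, Function.update_self]
    · have : k ≠ e.symm i := by
        intro h'
        apply hk
        rw [h', Equiv.apply_symm_apply]
      rw [Function.update_of_ne hk, Function.update_of_ne this, hE1]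
  have h1 := mgf_fin (Fintype.card ι) (fun s => f (E s)) (fun i => c (e.symm i)) (by
    intro s i
    rw [hup]
    exact h (E s) (e.symm i)) l
  rw [E.sum_comp (fun s => Real.exp (l * f s)), E.sum_comp f,
    e.symm.sum_comp (fun i => c i ^ 2)] at h1
  exact h1

/-- bounded differences (McDiarmid) for a centred function of fair bits, one side -/
theorem mcdiarmid_upper {ι : Type*} [Fintype ι] [DecidableEq ι] (f : (ι → Bool) → ℝ) (c : ι → ℝ)
    (h : ∀ s i, |f (Function.update s i (!s i)) - f s| ≤ c i) (h0 : ∑ s, f s = 0)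
    (t : ℝ) (ht : 0 ≤ t) :
    ((univ.filter fun s => t ≤ f s).card : ℝ) ≤
      2 ^ Fintype.card ι * Real.exp (-(2 * t ^ 2 / ∑ i, c i ^ 2)) := by
  classical
  set C := ∑ i, c i ^ 2 with hC
  have hC0 : 0 ≤ C := Finset.sum_nonneg fun i _ => sq_nonneg _
  rcases hC0.eq_or_lt with hC1 | hC1
  · rw [← hC1, div_zero, neg_zero, Real.exp_zero, mul_one]
    have h1 : (univ.filter fun s => t ≤ f s).card ≤ (univ : Finset (ι → Bool)).card :=
      Finset.card_filter_le _ _
    have h2 : (univ : Finset (ι → Bool)).card = 2 ^ Fintype.card ι := by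
      rw [Finset.card_univ, Fintype.card_fun, Fintype.card_bool]
    rw [h2] at h1
    exact_mod_cast h1
  · set l := 4 * t / C with hl
    have hl0 : 0 ≤ l := by positivity
    have h1 := mgf_bits f c h l
    rw [h0, zero_div, mul_zero, zero_add] at h1
    have h2 : ((univ.filter fun s => t ≤ f s).card : ℝ) * Real.exp (l * t) ≤
        ∑ s, Real.exp (l * f s) := by
      calc ((univ.filter fun s => t ≤ f s).card : ℝ) * Real.exp (l * t)
          = ∑ _s ∈ univ.filter fun s => t ≤ f s, Real.exp (l * t) := by
            rw [Finset.sum_const, nsmul_eq_mul]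
        _ ≤ ∑ s ∈ univ.filter fun s => t ≤ f s, Real.exp (l * f s) := by
            refine Finset.sum_le_sum fun s hs => ?_
            rw [Finset.mem_filter] at hs
            exact Real.exp_le_exp.2 (mul_le_mul_of_nonneg_left hs.2 hl0)
        _ ≤ ∑ s, Real.exp (l * f s) :=
            Finset.sum_le_sum_of_subset_of_nonneg (Finset.filter_subset _ _)
              fun s _ _ => (Real.exp_pos _).le
    have h3 := h2.trans h1
    rw [← le_div_iff₀ (Real.exp_pos _)] at h3
    refine h3.trans (le_of_eq ?_)
    rw [mul_div_assoc, ← Real.exp_sub]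
    congr 2
    rw [hl]
    field_simp
    ring

/-- bounded differences (McDiarmid) for a centred function of fair bits -/
theorem mcdiarmid {ι : Type*} [Fintype ι] [DecidableEq ι] (f : (ι → Bool) → ℝ) (c : ι → ℝ)
    (h : ∀ s i, |f (Function.update s i (!s i)) - f s| ≤ c i) (h0 : ∑ s, f s = 0)
    (t : ℝ) (ht : 0 ≤ t) :
    ((univ.filter fun s => t ≤ |f s|).card : ℝ) ≤
      2 * 2 ^ Fintype.card ι * Real.exp (-(2 * t ^ 2 / ∑ i, c i ^ 2)) := by
  classical
  have h1 := mcdiarmid_upper f c h h0 t ht
  have h2 := mcdiarmid_upper (fun s => -f s) c (by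
    intro s i
    rw [← abs_neg]
    have := h s i
    rwa [show -(-f (Function.update s i (!s i)) - -f s) = f (Function.update s i (!s i)) - f s by
      ring]) (by rw [Finset.sum_neg_distrib, h0, neg_zero]) t ht
  have h3 : (univ.filter fun s => t ≤ |f s|) ⊆
      (univ.filter fun s => t ≤ f s) ∪ (univ.filter fun s => t ≤ -f s) := by
    intro s hs
    rw [Finset.mem_filter] at hs
    rw [Finset.mem_union, Finset.mem_filter, Finset.mem_filter]
    rcases le_abs.1 hs.2 with h4 | h4
    · exact Or.inl ⟨hs.1, h4⟩
    · exact Or.inr ⟨hs.1, h4⟩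
  have h4 := (Finset.card_le_card h3).trans (Finset.card_union_le _ _)
  have h5 : ((univ.filter fun s => t ≤ |f s|).card : ℝ) ≤
      ((univ.filter fun s => t ≤ f s).card : ℝ) + ((univ.filter fun s => t ≤ -f s).card : ℝ) := by
    exact_mod_cast h4
  linarith

/-- a function that is odd under the exchange of all bits is centred -/
theorem centred_of_odd {ι : Type*} [Fintype ι] [DecidableEq ι] (f : (ι → Bool) → ℝ)
    (h : ∀ s, f (fun i => !s i) = -f s) : ∑ s, f s = 0 := by
  classical
  set E : (ι → Bool) ≃ (ι → Bool) :=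
    { toFun := fun s i => !s i
      invFun := fun s i => !s i
      left_inv := fun s => by funext i; simp
      right_inv := fun s => by funext i; simp } with hE
  have h1 := E.sum_comp f
  have h2 : ∑ s, f (E s) = -∑ s, f s := by
    rw [← Finset.sum_neg_distrib]
    exact Finset.sum_congr rfl fun s _ => h s
  linarith

end Pool.Agent.Helper99.TJ
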