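import Pool.Agent.Helper99.TJ.McD

set_option autoImplicit false

/-!
# McDiarmid's inequality for functions of the subsets of a finite set
-/

namespace Pool.Agent.Helper99.TJ

open scoped symmDiff

/-- the subset with indicator `s` -/
def subOf {α : Type*} [DecidableEq α] (π : Finset α) (s : (↥π) → Bool) : Finset α :=
  (Finset.univ.filter fun e : ↥π => s e = true).image Subtype.val

lemma mem_subOf {α : Type*} [DecidableEq α] {π : Finset α} {s : (↥π) → Bool} {a : α} :
    a ∈ subOf π s ↔ ∃ h : a ∈ π, s ⟨a, h⟩ = true := by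
  unfold subOf
  rw [Finset.mem_image]
  constructor
  · rintro ⟨⟨b, hb⟩, h1, rfl⟩
    exact ⟨hb, (Finset.mem_filter.1 h1).2⟩
  · rintro ⟨h, h1⟩
    exact ⟨⟨a, h⟩, Finset.mem_filter.2 ⟨Finset.mem_univ _, h1⟩, rfl⟩

lemma subOf_subset {α : Type*} [DecidableEq α] (π : Finset α) (s : (↥π) → Bool) : subOf π s ⊆ π := by
  intro a ha
  exact (mem_subOf.1 ha).1

lemma subOf_update {α : Type*} [DecidableEq α] (π : Finset α) (s : (↥π) → Bool) (i : ↥π) :
    subOf π (Function.update s i (!s i)) = subOf π s ∆ {(i : α)} := by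
  ext a
  rw [Finset.mem_symmDiff, mem_subOf, mem_subOf, Finset.mem_singleton]
  by_cases h : a = i
  · subst h
    constructor
    · rintro ⟨h1, h2⟩
      refine Or.inr ⟨rfl, ?_⟩
      rintro ⟨h3, h4⟩
      have e1 : (⟨(i:α), h3⟩ : ↥π) = i := rfl
      rw [e1] at h4 h2
      rw [Function.update_self, h4] at h2
      exact absurd h2 (by decide)
    · rintro (⟨_, h⟩ | ⟨_, h⟩)
      · exact absurd rfl h
      · refine ⟨i.2, ?_⟩
        have e1 : (⟨(i:α), i.2⟩ : ↥π) = i := rfl
        rw [e1, Function.update_self]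
        by_contra h5
        apply h
        refine ⟨i.2, ?_⟩
        rw [e1]
        cases hs : s i
        · exact absurd (by rw [hs]; rfl) h5
        · rfl
  · constructor
    · rintro ⟨h1, h2⟩
      refine Or.inl ⟨⟨h1, ?_⟩, h⟩
      rwa [Function.update_of_ne] at h2
      intro h3
      apply h
      rw [← h3]
    · rintro (⟨⟨h1, h2⟩, _⟩ | ⟨h', _⟩)
      · refine ⟨h1, ?_⟩
        rw [Function.update_of_ne]
        · exact h2
        · intro h3
          apply h
          rw [← h3]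
      · exact absurd h' h

lemma subOf_not {α : Type*} [DecidableEq α] (π : Finset α) (s : (↥π) → Bool) :
    subOf π (fun i => !s i) = π \ subOf π s := by
  ext a
  rw [Finset.mem_sdiff, mem_subOf, mem_subOf]
  constructor
  · rintro ⟨h1, h2⟩
    refine ⟨h1, ?_⟩
    rintro ⟨h3, h4⟩
    rw [h4] at h2
    exact absurd h2 (by decide)
  · rintro ⟨h1, h2⟩
    refine ⟨h1, ?_⟩
    by_contra h3
    apply h2
    refine ⟨h1, ?_⟩
    cases hs : s ⟨a, h1⟩
    · exact absurd (by rw [hs]; rfl) h3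
    · rfl

lemma subOf_injective {α : Type*} [DecidableEq α] (π : Finset α) : Function.Injective (subOf π) := by
  intro s s' h
  funext ⟨a, ha⟩
  have h1 : a ∈ subOf π s ↔ a ∈ subOf π s' := by rw [h]
  rw [mem_subOf, mem_subOf] at h1
  have h2 : s ⟨a, ha⟩ = true ↔ s' ⟨a, ha⟩ = true :=
    ⟨fun h3 => (h1.1 ⟨ha, h3⟩).2, fun h3 => (h1.2 ⟨ha, h3⟩).2⟩
  exact Bool.eq_iff_iff.2 h2

lemma exists_subOf {α : Type*} [DecidableEq α] {π D : Finset α} (h : D ⊆ π) : ∃ s, subOf π s = D := by
  refine ⟨fun i => decide ((i:α) ∈ D), ?_⟩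
  ext a
  rw [mem_subOf]
  constructor
  · rintro ⟨h1, h2⟩
    simpa using h2
  · intro h1
    exact ⟨h h1, by simpa using h1⟩

/-- **McDiarmid's inequality** for an odd function of the subsets of `π`. -/
theorem mcdiarmid_subsets {α : Type*} [DecidableEq α] (π : Finset α) (f : Finset α → ℝ) (c : α → ℝ)
    (h : ∀ D ⊆ π, ∀ e ∈ π, |f (D ∆ {e}) - f D| ≤ c e) (hodd : ∀ D ⊆ π, f (π \ D) = -f D)
    (t : ℝ) (ht : 0 ≤ t) :
    ((π.powerset.filter fun D => t ≤ |f D|).card : ℝ) ≤
      2 * 2 ^ π.card * Real.exp (-(2 * t ^ 2 / ∑ e ∈ π, c e ^ 2)) := by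
  classical
  have key := mcdiarmid (ι := ↥π) (fun s => f (subOf π s)) (fun i => c i) (by
    intro s i
    rw [subOf_update]
    exact h _ (subOf_subset π s) _ i.2) (by
    apply centred_of_odd
    intro s
    rw [subOf_not]
    exact hodd _ (subOf_subset π s)) t ht
  have e1 : (∑ i : ↥π, c i ^ 2) = ∑ e ∈ π, c e ^ 2 := Finset.sum_coe_sort π (fun e => c e ^ 2)
  rw [e1, Fintype.card_coe] at key
  refine le_trans (le_of_eq ?_) key
  norm_cast
  symm
  refine Finset.card_bij (fun s _ => subOf π s) ?_ ?_ ?_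
  · intro s hs
    rw [Finset.mem_filter, Finset.mem_powerset]
    exact ⟨subOf_subset π s, (Finset.mem_filter.1 hs).2⟩
  · intro s _ s' _ h1
    exact subOf_injective π h1
  · intro D hD
    rw [Finset.mem_filter, Finset.mem_powerset] at hD
    obtain ⟨s, hs⟩ := exists_subOf hD.1
    refine ⟨s, ?_, hs⟩
    rw [Finset.mem_filter]
    refine ⟨Finset.mem_univ _, ?_⟩
    rw [hs]
    exact hD.2

end Pool.Agent.Helper99.TJ
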