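import Pool.Agent.Helper99.TJ.PL

/-! # Reverse Hoelder inequality for linear functionals of log-concave measures -/

set_option autoImplicit false

namespace Pool.Agent.Helper99.TJ

open MeasureTheory Set
open scoped ENNReal

/-- midpoint log-concavity of a density -/
def LogConc {n : ℕ} (w : (Fin n → ℝ) → ℝ≥0∞) : Prop :=
  ∀ x y, w x * w y ≤ w ((1 / 2 : ℝ) • (x + y)) ^ 2

/-- Prekopa-Leindler for the tails of a linear functional -/
lemma tail_pl {n : ℕ} {w : (Fin n → ℝ) → ℝ≥0∞} (hw : Measurable w) (hc : LogConc w)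
    (A : (Fin n → ℝ) →ₗ[ℝ] ℝ) (t : ℝ) :
    (volume.withDensity w) {x | 3 * t < |A x|} * (volume.withDensity w) {x | |A x| ≤ t} ≤
      (volume.withDensity w) {x | t < |A x|} ^ 2 := by
  have hA : Measurable fun x => |A x| := (A.toContinuousLinearMap.continuous.abs).measurable
  have h1 : MeasurableSet {x | 3 * t < |A x|} := measurableSet_lt measurable_const hA
  have h2 : MeasurableSet {x | |A x| ≤ t} := measurableSet_le hA measurable_const
  have h3 : MeasurableSet {x | t < |A x|} := measurableSet_lt measurable_const hA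
  rw [withDensity_apply _ h1, withDensity_apply _ h2, withDensity_apply _ h3,
    ← lintegral_indicator h1, ← lintegral_indicator h2, ← lintegral_indicator h3]
  refine pl_fin n (hw.indicator h1) (hw.indicator h2) (hw.indicator h3) fun x y => ?_
  by_cases hx : 3 * t < |A x|
  · by_cases hy : |A y| ≤ t
    · rw [indicator_of_mem (show x ∈ {x | 3 * t < |A x|} from hx),
        indicator_of_mem (show y ∈ {x | |A x| ≤ t} from hy), indicator_of_mem]
      · exact hc x y
      · rw [Set.mem_ofPred_eq, map_smul, map_add, smul_eq_mul]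
        have h4 : |A x| ≤ |A x + A y| + |A y| := by
          calc |A x| = |(A x + A y) - A y| := by ring_nf
            _ ≤ _ := abs_sub _ _
        rw [abs_mul, abs_of_pos (by norm_num : (0:ℝ) < 1 / 2)]
        linarith
    · rw [indicator_of_notMem (show y ∉ {x | |A x| ≤ t} from hy), mul_zero]
      exact zero_le
  · rw [indicator_of_notMem (show x ∉ {x | 3 * t < |A x|} from hx), zero_mul]
    exact zero_le

/-- the absolute constant -/
noncomputable def rhC : ℝ := 16 * (1 + 3 ^ 12)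

lemma rhC_pos : 0 < rhC := by unfold rhC; norm_num

lemma pow_arith (j : ℕ) : 5 * j ≤ 2 ^ j + 7 := by
  rcases Nat.lt_or_ge j 5 with h | h
  · interval_cases j <;> norm_num
  · induction j, h using Nat.le_induction with
    | base => norm_num
    | succ k hk ih =>
      rw [pow_succ]
      have : 5 ≤ 2 ^ k := by
        calc 5 ≤ 2 ^ 5 := by norm_num
          _ ≤ 2 ^ k := Nat.pow_le_pow_right (by norm_num) hk
      omega

lemma term_le (j : ℕ) : (3 ^ (j + 1) : ℝ) ^ 4 * (3 / 4 * (1 / 3) ^ (2 ^ j)) ≤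
    3 ^ 11 * (3 / 4) * (1 / 3) ^ j := by
  have h1 : (3 ^ (j + 1) : ℝ) ^ 4 * (1 / 3) ^ (2 ^ j) ≤ 3 ^ 11 * (1 / 3) ^ j := by
    rw [one_div, inv_pow, inv_pow, ← div_eq_mul_inv, ← div_eq_mul_inv, div_le_div_iff₀
      (by positivity) (by positivity), ← pow_mul, ← pow_add, ← pow_add]
    refine pow_le_pow_right₀ (by norm_num) ?_
    have := pow_arith j
    omega
  nlinarith

/-- **reverse Hoelder**: fourth against second moment of a linear functional -/
theorem rev_holder {n : ℕ} {w : (Fin n → ℝ) → ℝ≥0∞} (hw : Measurable w) (hc : LogConc w)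
    (hfin : ∫⁻ x, w x ≠ ∞) (A : (Fin n → ℝ) →ₗ[ℝ] ℝ) :
    (volume.withDensity w) univ * ∫⁻ x, ENNReal.ofReal (A x ^ 4) ∂(volume.withDensity w) ≤
      ENNReal.ofReal rhC * (∫⁻ x, ENNReal.ofReal (A x ^ 2) ∂(volume.withDensity w)) ^ 2 := by
  set μ : Measure (Fin n → ℝ) := volume.withDensity w with hμ
  have hμf : IsFiniteMeasure μ := isFiniteMeasure_withDensity hfin
  have hAc : Continuous A := A.toContinuousLinearMap.continuous
  set S := ∫⁻ x, ENNReal.ofReal (A x ^ 2) ∂μ with hS
  rcases eq_or_ne S ∞ with hSt | hSt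
  · rw [hSt]
    have : ENNReal.ofReal rhC ≠ 0 := by simpa using rhC_pos
    simp [this]
  rcases eq_or_ne S 0 with hS0 | hS0
  · have h1 : ∀ᵐ x ∂μ, ENNReal.ofReal (A x ^ 2) = 0 :=
      (lintegral_eq_zero_iff (by fun_prop)).1 hS0
    have h2 : ∫⁻ x, ENNReal.ofReal (A x ^ 4) ∂μ = 0 := by
      refine (lintegral_eq_zero_iff (by fun_prop)).2 ?_
      filter_upwards [h1] with x hx
      rw [ENNReal.ofReal_eq_zero] at hx
      have h3 : A x = 0 := by
        have := le_antisymm hx (sq_nonneg _)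
        exact pow_eq_zero_iff two_ne_zero |>.1 this
      simp [h3]
    rw [h2, mul_zero]
    exact zero_le
  rcases eq_or_ne (μ univ) 0 with hm0 | hm0
  · rw [hm0, zero_mul]
    exact zero_le
  set m := μ.real univ with hm
  have hmpos : 0 < m := ENNReal.toReal_pos hm0 (measure_ne_top _ _)
  set s := S.toReal with hs
  have hspos : 0 < s := ENNReal.toReal_pos hS0 hSt
  set t := Real.sqrt (4 * s / m) with ht
  have htpos : 0 < t := Real.sqrt_pos.2 (by positivity)
  have ht2 : t ^ 2 = 4 * s / m := Real.sq_sqrt (by positivity)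
  have hmu : μ univ = ENNReal.ofReal m := (ENNReal.ofReal_toReal (measure_ne_top _ _)).symm
  have hSo : S = ENNReal.ofReal s := (ENNReal.ofReal_toReal hSt).symm
  have hmeas : ∀ u : ℝ, MeasurableSet {x | u < |A x|} := fun u =>
    measurableSet_lt measurable_const hAc.abs.measurable
  -- Chebyshev
  have hcheb : μ.real {x | t < |A x|} ≤ m / 4 := by
    have h1 : ENNReal.ofReal (t ^ 2) * μ {x | t < |A x|} ≤ S := by
      have h2 := mul_meas_ge_le_lintegral (μ := μ) (f := fun x => ENNReal.ofReal (A x ^ 2))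
        (by fun_prop) (ENNReal.ofReal (t ^ 2))
      refine le_trans (mul_le_mul_right (measure_mono fun x hx => ?_) _) h2
      rw [Set.mem_ofPred_eq] at hx ⊢
      refine ENNReal.ofReal_le_ofReal ?_
      rw [← sq_abs (A x)]
      exact pow_le_pow_left₀ htpos.le hx.le 2
    have h3 := ENNReal.toReal_mono hSt h1
    rw [ENNReal.toReal_mul, ENNReal.toReal_ofReal (by positivity), ht2] at h3
    have h4 : 4 * s / m * μ.real {x | t < |A x|} ≤ s := h3
    rw [div_mul_eq_mul_div, div_le_iff₀ hmpos] at h4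
    nlinarith
  -- recursion
  have hrec : ∀ j : ℕ, μ.real {x | 3 ^ j * t < |A x|} ≤ m * (3 / 4 * (1 / 3) ^ (2 ^ j)) := by
    intro j
    induction j with
    | zero =>
      simp only [pow_zero, one_mul, pow_one]
      linarith
    | succ j ih =>
      have h1 := tail_pl hw hc A (3 ^ j * t)
      have h2 := ENNReal.toReal_mono (ENNReal.pow_ne_top (measure_ne_top _ _)) h1
      rw [ENNReal.toReal_mul, ENNReal.toReal_pow] at h2
      have h3 : μ.real {x | 3 * (3 ^ j * t) < |A x|} * μ.real {x | |A x| ≤ 3 ^ j * t} ≤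
          μ.real {x | 3 ^ j * t < |A x|} ^ 2 := h2
      have h4 : {x | |A x| ≤ 3 ^ j * t} = {x | 3 ^ j * t < |A x|}ᶜ := by
        ext x
        simp
      have h5 : μ.real {x | |A x| ≤ 3 ^ j * t} = m - μ.real {x | 3 ^ j * t < |A x|} := by
        rw [h4, measureReal_compl (hmeas _)]
      have h6 : m * (3 / 4 * (1 / 3) ^ (2 ^ j)) ≤ m / 4 := by
        have : ((1 : ℝ) / 3) ^ (2 ^ j) ≤ 1 / 3 := by
          calc ((1 : ℝ) / 3) ^ (2 ^ j) ≤ (1 / 3) ^ 1 :=
                pow_le_pow_of_le_one (by norm_num) (by norm_num) Nat.one_le_two_pow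
            _ = 1 / 3 := pow_one _
        nlinarith
      have h7 : 3 * m / 4 ≤ μ.real {x | |A x| ≤ 3 ^ j * t} := by
        rw [h5]
        linarith
      have h8 : (3 : ℝ) * (3 ^ j * t) = 3 ^ (j + 1) * t := by ring
      rw [h8] at h3
      have h9 : 0 ≤ μ.real {x | 3 ^ j * t < |A x|} := measureReal_nonneg
      have h10 : 0 ≤ μ.real {x | 3 ^ (j + 1) * t < |A x|} := measureReal_nonneg
      have h11 : μ.real {x | 3 ^ (j + 1) * t < |A x|} * (3 * m / 4) ≤
          (m * (3 / 4 * (1 / 3) ^ (2 ^ j))) ^ 2 :=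
        (mul_le_mul_of_nonneg_left h7 h10).trans (h3.trans (pow_le_pow_left₀ h9 ih 2))
      have h12 : (m * (3 / 4 * (1 / 3) ^ (2 ^ j))) ^ 2 =
          (m * (3 / 4 * (1 / 3) ^ (2 ^ (j + 1)))) * (3 * m / 4) := by
        rw [pow_succ 2 j, pow_mul]
        ring
      rw [h12] at h11
      exact le_of_mul_le_mul_right h11 (by positivity)
  -- the pointwise bound
  have hpt : ∀ x, ENNReal.ofReal (A x ^ 4) ≤ ENNReal.ofReal (t ^ 4) +
      ∑' j : ℕ, ({x | 3 ^ j * t < |A x|}.indicator
        (fun _ => ENNReal.ofReal ((3 ^ (j + 1) * t) ^ 4)) x) := by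
    intro x
    rcases le_or_gt |A x| t with hx | hx
    · refine le_trans (ENNReal.ofReal_le_ofReal ?_) (le_add_of_nonneg_right zero_le)
      have := pow_le_pow_left₀ (abs_nonneg (A x)) hx 4
      rwa [show |A x| ^ 4 = A x ^ 4 by
        rw [show (4 : ℕ) = 2 * 2 by norm_num, pow_mul, pow_mul, sq_abs]] at this
    · obtain ⟨j, hj1, hj2⟩ : ∃ j : ℕ, 3 ^ j * t < |A x| ∧ |A x| ≤ 3 ^ (j + 1) * t := by
        have hex : ∃ k : ℕ, |A x| ≤ 3 ^ k * t := by
          obtain ⟨k, hk⟩ := pow_unbounded_of_one_lt (|A x| / t) (by norm_num : (1 : ℝ) < 3)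
          refine ⟨k, ?_⟩
          rw [div_lt_iff₀ htpos] at hk
          exact hk.le
        classical
        have h0 : Nat.find hex ≠ 0 := by
          intro h
          have := Nat.find_spec hex
          rw [h, pow_zero, one_mul] at this
          linarith
        obtain ⟨j, hj⟩ := Nat.exists_eq_succ_of_ne_zero h0
        refine ⟨j, ?_, ?_⟩
        · have := Nat.find_min hex (m := j) (by omega)
          exact not_le.1 this
        · have := Nat.find_spec hex
          rwa [hj] at this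
      refine le_trans ?_ (le_add_of_nonneg_left zero_le)
      refine le_trans ?_ (ENNReal.le_tsum j)
      rw [indicator_of_mem (show x ∈ {x | 3 ^ j * t < |A x|} from hj1)]
      refine ENNReal.ofReal_le_ofReal ?_
      have := pow_le_pow_left₀ (abs_nonneg (A x)) hj2 4
      rwa [show |A x| ^ 4 = A x ^ 4 by
        rw [show (4 : ℕ) = 2 * 2 by norm_num, pow_mul, pow_mul, sq_abs]] at this
  have hint : ∫⁻ x, ENNReal.ofReal (A x ^ 4) ∂μ ≤ ENNReal.ofReal (m * t ^ 4 * (1 + 3 ^ 12)) := by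
    calc ∫⁻ x, ENNReal.ofReal (A x ^ 4) ∂μ
        ≤ ∫⁻ x, (ENNReal.ofReal (t ^ 4) + ∑' j : ℕ, ({x | 3 ^ j * t < |A x|}.indicator
            (fun _ => ENNReal.ofReal ((3 ^ (j + 1) * t) ^ 4)) x)) ∂μ := lintegral_mono hpt
      _ = ENNReal.ofReal (t ^ 4) * μ univ +
          ∑' j : ℕ, ENNReal.ofReal ((3 ^ (j + 1) * t) ^ 4) * μ {x | 3 ^ j * t < |A x|} := by
          rw [lintegral_add_left measurable_const, lintegral_const, lintegral_tsum]
          · congr 1
            refine tsum_congr fun j => ?_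
            rw [lintegral_indicator_const (hmeas _)]
          · intro j
            exact (measurable_const.indicator (hmeas _)).aemeasurable
      _ ≤ ENNReal.ofReal (t ^ 4) * ENNReal.ofReal m +
          ∑' j : ℕ, ENNReal.ofReal (m * t ^ 4 * (3 ^ 11 * (3 / 4) * (1 / 3) ^ j)) := by
          rw [hmu]
          refine add_le_add le_rfl (ENNReal.tsum_le_tsum fun j => ?_)
          have h1 : μ {x | 3 ^ j * t < |A x|} = ENNReal.ofReal (μ.real {x | 3 ^ j * t < |A x|}) :=
            (ENNReal.ofReal_toReal (measure_ne_top _ _)).symm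
          rw [h1, ← ENNReal.ofReal_mul (by positivity)]
          refine ENNReal.ofReal_le_ofReal ?_
          calc (3 ^ (j + 1) * t) ^ 4 * μ.real {x | 3 ^ j * t < |A x|}
              ≤ (3 ^ (j + 1) * t) ^ 4 * (m * (3 / 4 * (1 / 3) ^ (2 ^ j))) :=
                mul_le_mul_of_nonneg_left (hrec j) (by positivity)
            _ = m * t ^ 4 * ((3 ^ (j + 1) : ℝ) ^ 4 * (3 / 4 * (1 / 3) ^ (2 ^ j))) := by ring
            _ ≤ _ := mul_le_mul_of_nonneg_left (term_le j) (by positivity)
      _ = ENNReal.ofReal (t ^ 4 * m) + ENNReal.ofReal (m * t ^ 4 * (3 ^ 11 * (3 / 4) * (3 / 2))) := by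
          rw [ENNReal.ofReal_mul (by positivity : 0 ≤ t ^ 4), ← ENNReal.ofReal_tsum_of_nonneg]
          · congr 2
            simp only [← mul_assoc]
            rw [tsum_mul_left, tsum_geometric_of_lt_one (by norm_num) (by norm_num)]
            norm_num
          · intro j
            positivity
          · refine Summable.mul_left _ (Summable.mul_left _ ?_)
            exact summable_geometric_of_lt_one (by norm_num) (by norm_num)
      _ ≤ ENNReal.ofReal (m * t ^ 4 * (1 + 3 ^ 12)) := by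
          rw [← ENNReal.ofReal_add (by positivity) (by positivity)]
          refine ENNReal.ofReal_le_ofReal ?_
          have : 0 < m * t ^ 4 := by positivity
          nlinarith
  calc μ univ * ∫⁻ x, ENNReal.ofReal (A x ^ 4) ∂μ
      ≤ ENNReal.ofReal m * ENNReal.ofReal (m * t ^ 4 * (1 + 3 ^ 12)) := by
        rw [hmu]
        exact mul_le_mul_right hint _
    _ = ENNReal.ofReal rhC * S ^ 2 := by
        rw [hSo, ← ENNReal.ofReal_mul hmpos.le, ← ENNReal.ofReal_pow hspos.le,
          ← ENNReal.ofReal_mul rhC_pos.le]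
        congr 1
        have : t ^ 4 = (4 * s / m) ^ 2 := by rw [← ht2]; ring
        rw [this]
        unfold rhC
        field_simp
        ring

/-- fourth moments of linear functionals are controlled by second moments -/
def RevH {n : ℕ} (μ : Measure (Fin n → ℝ)) (C : ℝ≥0∞) : Prop :=
  ∀ A : (Fin n → ℝ) →ₗ[ℝ] ℝ, ∫⁻ x, ENNReal.ofReal (A x ^ 4) ∂μ ≤
    C * (∫⁻ x, ENNReal.ofReal (A x ^ 2) ∂μ) ^ 2

theorem revH_of_logConc {n : ℕ} {w : (Fin n → ℝ) → ℝ≥0∞} (hw : Measurable w) (hc : LogConc w)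
    (hfin : ∫⁻ x, w x ≠ ∞) {c : ℝ} (hc0 : 0 < c) (hmass : ENNReal.ofReal c ≤ ∫⁻ x, w x) :
    RevH (volume.withDensity w) (ENNReal.ofReal (rhC / c)) := by
  intro A
  have h1 := rev_holder hw hc hfin A
  have h2 : (volume.withDensity w) univ = ∫⁻ x, w x := by
    rw [withDensity_apply _ MeasurableSet.univ, Measure.restrict_univ]
  rw [h2] at h1
  have h3 : ENNReal.ofReal c * ∫⁻ x, ENNReal.ofReal (A x ^ 4) ∂(volume.withDensity w) ≤
      ENNReal.ofReal rhC * (∫⁻ x, ENNReal.ofReal (A x ^ 2) ∂(volume.withDensity w)) ^ 2 :=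
    (mul_le_mul_left hmass _).trans h1
  have hc1 : ENNReal.ofReal c ≠ 0 := by simpa using hc0
  rw [ENNReal.ofReal_div_of_pos hc0, ENNReal.div_eq_inv_mul, mul_assoc]
  rw [← ENNReal.mul_le_mul_iff_right hc1 ENNReal.ofReal_ne_top, ← mul_assoc (ENNReal.ofReal c),
    ENNReal.mul_inv_cancel hc1 ENNReal.ofReal_ne_top, one_mul]
  exact h3

theorem RevH.add {n : ℕ} {μ ν : Measure (Fin n → ℝ)} {C : ℝ≥0∞} (h1 : RevH μ C)
    (h2 : RevH ν C) : RevH (μ + ν) C := by
  intro A
  rw [lintegral_add_measure, lintegral_add_measure]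
  refine (add_le_add (h1 A) (h2 A)).trans ?_
  rw [← mul_add]
  refine mul_le_mul_right ?_ C
  rw [add_sq]
  exact add_le_add le_self_add le_rfl

/-- scaling of the measure -/
theorem RevH.smul {n : ℕ} {μ : Measure (Fin n → ℝ)} {C : ℝ≥0∞} (h1 : RevH μ C)
    {a : ℝ≥0∞} (ha0 : a ≠ 0) (hat : a ≠ ∞) : RevH (a • μ) (C / a) := by
  intro A
  rw [lintegral_smul_measure, lintegral_smul_measure, smul_eq_mul, smul_eq_mul, mul_pow]
  refine (mul_le_mul_right (h1 A) a).trans (le_of_eq ?_)
  rw [ENNReal.div_eq_inv_mul, sq a]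
  calc a * (C * (∫⁻ x, ENNReal.ofReal (A x ^ 2) ∂μ) ^ 2)
      = (a⁻¹ * a) * a * (C * (∫⁻ x, ENNReal.ofReal (A x ^ 2) ∂μ) ^ 2) := by
        rw [ENNReal.inv_mul_cancel ha0 hat, one_mul]
    _ = _ := by ring

/-- the form with Bochner integrals -/
theorem RevH.integral {n : ℕ} {μ : Measure (Fin n → ℝ)} {C : ℝ} (hC : 0 ≤ C)
    (h : RevH μ (ENNReal.ofReal C)) (A : (Fin n → ℝ) →ₗ[ℝ] ℝ)
    (hI : Integrable (fun x => A x ^ 2) μ) :
    Integrable (fun x => A x ^ 4) μ ∧ ∫ x, A x ^ 4 ∂μ ≤ C * (∫ x, A x ^ 2 ∂μ) ^ 2 := by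
  have hAc : Continuous A := A.toContinuousLinearMap.continuous
  have h0 : ∀ x, 0 ≤ A x ^ 4 := fun x => by positivity
  have h2 : ∫⁻ x, ENNReal.ofReal (A x ^ 2) ∂μ = ENNReal.ofReal (∫ x, A x ^ 2 ∂μ) :=
    (ofReal_integral_eq_lintegral_ofReal hI (Filter.Eventually.of_forall fun x => sq_nonneg _)).symm
  have h3 := h A
  rw [h2, ← ENNReal.ofReal_pow (integral_nonneg fun x => sq_nonneg _), ← ENNReal.ofReal_mul hC] at h3
  have hI4 : Integrable (fun x => A x ^ 4) μ := by
    refine ⟨(by fun_prop : Continuous fun x => A x ^ 4).aestronglyMeasurable, ?_⟩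
    rw [hasFiniteIntegral_iff_ofReal (Filter.Eventually.of_forall h0)]
    exact lt_of_le_of_lt h3 ENNReal.ofReal_lt_top
  refine ⟨hI4, ?_⟩
  rw [← ofReal_integral_eq_lintegral_ofReal hI4 (Filter.Eventually.of_forall h0)] at h3
  exact (ENNReal.ofReal_le_ofReal_iff (by positivity)).1 h3

end Pool.Agent.Helper99.TJ
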