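import Pool.Agent.Helper60.TJ.Basic
import Pool.Agent.Helper99.TJ.McD2

set_option autoImplicit false

/-!
# Section 6, part A: the boundary energies `hh w U D = inf {en w U X : ∂X = ∂D}`
-/

namespace Pool.Agent.Helper99.TJ

open Pool.Agent.Helper60.TJ
open scoped symmDiff

/-- the cycles, as a type -/
abbrev Cyc := {C : Finset Ed // IsCyc C}

instance : Nonempty Cyc := ⟨⟨∅, isCyc_empty⟩⟩

/-- minimal cost of an edge set with the same boundary as `D` -/
noncomputable def hh (w : Ed → ℝ) (U : Ed → Bool) (D : Finset Ed) : ℝ :=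
  ⨅ C : Cyc, en w U (C.1 ∆ D)

/-- weights are nonnegative and `U` is locally minimal -/
structure LM (w : Ed → ℝ) (U : Ed → Bool) : Prop where
  w0 : ∀ e, 0 ≤ w e
  cyc : ∀ C : Finset Ed, IsCyc C → 0 ≤ en w U C

theorem LM.of_mem {J : Ed → ℝ} {U : Ed → Bool} (h : U ∈ GJ J) : LM (wt J) U :=
  ⟨wt_nonneg J, h.2⟩

variable {w : Ed → ℝ} {U : Ed → Bool}

theorem LM.lower (h : LM w U) {C : Finset Ed} (hC : IsCyc C) (D : Finset Ed) :
    -tw w D ≤ en w U (C ∆ D) := by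
  have h1 := le_en_symmDiff h.w0 U C D
  have h2 := h.cyc C hC
  linarith

theorem LM.bdd (h : LM w U) (D : Finset Ed) :
    BddBelow (Set.range fun C : Cyc => en w U (C.1 ∆ D)) := by
  refine ⟨-tw w D, ?_⟩
  rintro _ ⟨C, rfl⟩
  exact h.lower C.2 D

theorem LM.hh_le (h : LM w U) {C : Finset Ed} (hC : IsCyc C) (D : Finset Ed) :
    hh w U D ≤ en w U (C ∆ D) := ciInf_le (h.bdd D) (⟨C, hC⟩ : Cyc)

/-- `hh` is a lower bound for the cost of every edge set with the boundary of `D` -/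
theorem LM.hh_le' (h : LM w U) {X D : Finset Ed} (hX : IsCyc (X ∆ D)) :
    hh w U D ≤ en w U X := by
  have h1 := h.hh_le hX D
  rwa [symmDiff_assoc, symmDiff_self, Finset.bot_eq_empty, ← Finset.bot_eq_empty, symmDiff_bot] at h1

theorem LM.neg_tw_le_hh (h : LM w U) (D : Finset Ed) : -tw w D ≤ hh w U D :=
  le_ciInf fun C => h.lower C.2 D

theorem LM.hh_le_tw (h : LM w U) (D : Finset Ed) : hh w U D ≤ tw w D := by
  refine (h.hh_le' (X := D) ?_).trans (en_le_tw h.w0 U D)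
  rw [symmDiff_self]; exact isCyc_empty

theorem exists_near_hh (w : Ed → ℝ) (U : Ed → Bool) (D : Finset Ed) {ε : ℝ} (hε : 0 < ε) :
    ∃ X : Finset Ed, IsCyc (X ∆ D) ∧ en w U X < hh w U D + ε := by
  obtain ⟨C, hC⟩ := exists_lt_of_ciInf_lt (show (⨅ C : Cyc, en w U (C.1 ∆ D)) < hh w U D + ε by
    change hh w U D < hh w U D + ε; linarith)
  refine ⟨C.1 ∆ D, ?_, hC⟩
  rw [symmDiff_assoc, symmDiff_self, symmDiff_bot]
  exact C.2

theorem isCyc_symm {X Y : Finset Ed} (h : IsCyc (X ∆ Y)) : IsCyc (Y ∆ X) := by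
  rwa [symmDiff_comm]

theorem isCyc_trans {X Y Z : Finset Ed} (h : IsCyc (X ∆ Y)) (h' : IsCyc (Y ∆ Z)) :
    IsCyc (X ∆ Z) := by
  have := h.symmDiff h'
  rwa [symmDiff_assoc, ← symmDiff_assoc Y, symmDiff_self, bot_symmDiff] at this

/-- `hh` depends on the boundary only -/
theorem LM.hh_congr (h : LM w U) {D D' : Finset Ed} (hD : IsCyc (D ∆ D')) :
    hh w U D = hh w U D' := by
  have key : ∀ {D D' : Finset Ed}, IsCyc (D ∆ D') → hh w U D ≤ hh w U D' := by
    intro D D' hD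
    refine le_ciInf fun C => ?_
    refine h.hh_le' ?_
    have : (C.1 ∆ D') ∆ D = C.1 ∆ (D ∆ D') := by
      rw [symmDiff_assoc, symmDiff_comm D' D]
    rw [this]
    exact C.2.symmDiff hD
  exact le_antisymm (key hD) (key (isCyc_symm hD))

/-- one more edge -/
theorem LM.hh_step (h : LM w U) (D : Finset Ed) (e : Ed) :
    |hh w U (D ∆ {e}) - hh w U D| ≤ w e := by
  have key : ∀ D : Finset Ed, hh w U (D ∆ {e}) ≤ hh w U D + w e := by
    intro D
    rw [← sub_le_iff_le_add]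
    refine le_ciInf fun C => ?_
    rw [sub_le_iff_le_add]
    have h1 := h.hh_le C.2 (D ∆ {e})
    have h2 := en_symmDiff_le h.w0 U (C.1 ∆ D) {e}
    rw [symmDiff_assoc] at h2
    have h3 : tw w {e} = w e := by simp [tw]
    linarith
  rw [abs_le]
  constructor
  · have := key (D ∆ {e})
    rw [symmDiff_assoc, symmDiff_self, symmDiff_bot] at this
    linarith
  · linarith [key D]

/-- the odd functional of McDiarmid's inequality -/
noncomputable def ff (w : Ed → ℝ) (U : Ed → Bool) (π D : Finset Ed) : ℝ :=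
  hh w U (π \ D) - hh w U D

theorem ff_odd (w : Ed → ℝ) (U : Ed → Bool) {π D : Finset Ed} (hD : D ⊆ π) :
    ff w U π (π \ D) = -ff w U π D := by
  unfold ff
  rw [sdiff_sdiff_right_self, Finset.inf_eq_inter, Finset.inter_eq_right.2 hD]
  ring

theorem LM.ff_step (h : LM w U) {π D : Finset Ed} (hD : D ⊆ π) {e : Ed} (he : e ∈ π) :
    |ff w U π (D ∆ {e}) - ff w U π D| ≤ 2 * w e := by
  unfold ff
  have h1 : π \ (D ∆ {e}) = (π \ D) ∆ {e} := by
    ext a
    simp only [Finset.mem_sdiff, Finset.mem_symmDiff, Finset.mem_singleton]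
    constructor
    · rintro ⟨ha, hb⟩
      by_cases hae : a = e
      · subst hae
        refine Or.inr ⟨rfl, ?_⟩
        rintro ⟨_, hd⟩
        exact hb (Or.inr ⟨rfl, hd⟩)
      · refine Or.inl ⟨⟨ha, fun hd => hb (Or.inl ⟨hd, hae⟩)⟩, hae⟩
    · rintro (⟨⟨ha, hb⟩, hae⟩ | ⟨rfl, hb⟩)
      · refine ⟨ha, ?_⟩
        rintro (⟨hd, _⟩ | ⟨hd, _⟩)
        · exact hb hd
        · exact hae hd
      · refine ⟨he, ?_⟩
        rintro (⟨_, hd⟩ | ⟨_, hd⟩)
        · exact hd rfl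
        · exact hb ⟨he, hd⟩
  rw [h1]
  have h2 := h.hh_step (π \ D) e
  have h3 := h.hh_step D e
  calc |hh w U ((π \ D) ∆ {e}) - hh w U (D ∆ {e}) - (hh w U (π \ D) - hh w U D)|
      = |(hh w U ((π \ D) ∆ {e}) - hh w U (π \ D)) - (hh w U (D ∆ {e}) - hh w U D)| := by
        congr 1; ring
    _ ≤ |hh w U ((π \ D) ∆ {e}) - hh w U (π \ D)| + |hh w U (D ∆ {e}) - hh w U D| := abs_sub _ _
    _ ≤ 2 * w e := by linarith

/-- **McDiarmid** for `ff` -/
theorem LM.mcd (h : LM w U) (π : Finset Ed) (t : ℝ) (ht : 0 ≤ t) :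
    ((π.powerset.filter fun D => t ≤ |ff w U π D|).card : ℝ) ≤
      2 * 2 ^ π.card * Real.exp (-(t ^ 2 / (2 * ∑ e ∈ π, w e ^ 2))) := by
  classical
  have key := mcdiarmid_subsets π (ff w U π) (fun e => 2 * w e)
    (fun D hD e he => h.ff_step hD he) (fun D hD => ff_odd w U hD) t ht
  refine key.trans (le_of_eq ?_)
  congr 3
  have : ∑ e ∈ π, (2 * w e) ^ 2 = 4 * ∑ e ∈ π, w e ^ 2 := by
    rw [Finset.mul_sum]
    exact Finset.sum_congr rfl fun e _ => by ring
  rw [this]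
  by_cases h0 : ∑ e ∈ π, w e ^ 2 = 0
  · rw [h0]; simp
  · field_simp
    ring

end Pool.Agent.Helper99.TJ
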