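import Pool.Agent.Helper99.TJ.S6A

set_option autoImplicit false

/-!
# Section 6, parts B and C: limits of minimising sequences, and where the ground states of `J^D` come from
-/

namespace Pool.Agent.Helper99.TJ

open Pool.Agent.Helper60.TJ
open scoped symmDiff
open Filter Topology

theorem wt_flp (D : Ed → Bool) (J : Ed → ℝ) : wt (flp D J) = wt J := by
  funext e
  unfold wt flp
  split_ifs
  · exact abs_neg _
  · rfl

theorem flp_flp (D : Ed → Bool) (J : Ed → ℝ) : flp D (flp D J) = J := by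
  funext e
  unfold flp
  split_ifs
  · exact neg_neg _
  · rfl

theorem flp_ne_zero {D : Ed → Bool} {J : Ed → ℝ} (h : ∀ e, J e ≠ 0) (e : Ed) : flp D J e ≠ 0 := by
  unfold flp
  split_ifs
  · exact neg_ne_zero.2 (h e)
  · exact h e

theorem ng_flp {D : Ed → Bool} {J : Ed → ℝ} (h : ∀ e, J e ≠ 0) : ng (flp D J) = bx (ng J) D := by
  funext e
  unfold ng flp bx
  have h0 := h e
  by_cases hD : D e = true
  · rw [if_pos hD, hD]
    rcases lt_or_gt_of_ne h0 with h1 | h1
    · simp [h1, h1.le]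
    · simp [h1, h1.le]
  · rw [if_neg hD, Bool.eq_false_iff.2 hD]
    simp

theorem fr_flp {D : Ed → Bool} {J : Ed → ℝ} (h : ∀ e, J e ≠ 0) :
    fr (flp D J) = vx (fr J) (par D) := by
  unfold fr
  rw [ng_flp h, par_bx']

/-- values of `par` only depend on the four edges around -/
theorem par_congr {U U' : Ed → Bool} {v : Vx} (h : ∀ d : Dir, U (edg v d) = U' (edg v d)) :
    par U v = par U' v := by
  unfold par
  rw [h 0, h 1, h 2, h 3]

theorem par_of_isCyc_symmDiff {X D : Finset Ed} (h : IsCyc (X ∆ D)) : par (ind X) = par (ind D) := by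
  funext v
  have h1 := h v
  rw [par_ind_symmDiff] at h1
  unfold vx at h1
  cases h2 : par (ind X) v <;> cases h3 : par (ind D) v <;> simp_all

/-- **Limits of minimising sequences.** -/
theorem exists_limit {J : Ed → ℝ} (hnz : ∀ e, J e ≠ 0) {U : Ed → Bool} (hU : U ∈ GJ J)
    (D : Finset Ed) : ∃ U' ∈ GJ (flp (ind D) J), ∀ F : Finset Ed, ∀ ε : ℝ, 0 < ε →
      ∃ X : Finset Ed, IsCyc (X ∆ D) ∧ (∀ e ∈ F, bx U (ind X) e = U' e) ∧
        en (wt J) U X < hh (wt J) U D + ε := by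
  have hL : LM (wt J) U := LM.of_mem hU
  choose X hX1 hX2 using fun n : ℕ => exists_near_hh (wt J) U D
    (ε := 1 / ((n : ℝ) + 1)) (by positivity)
  obtain ⟨U', φ, hφ, hlim⟩ := CompactSpace.tendsto_subseq (fun n => bx U (ind (X n)))
  have hpt : ∀ e, ∀ᶠ n in atTop, bx U (ind (X (φ n))) e = U' e := by
    intro e
    have h1 : Tendsto (fun n => bx U (ind (X (φ n))) e) atTop (𝓝 (U' e)) :=
      (tendsto_pi_nhds.1 hlim) e
    rw [nhds_discrete, tendsto_pure] at h1
    exact h1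
  have hfin : ∀ F : Finset Ed, ∀ᶠ n in atTop, ∀ e ∈ F, bx U (ind (X (φ n))) e = U' e := by
    intro F
    exact (Filter.eventually_all_finset F).2 fun e _ => hpt e
  have hsmall : ∀ ε : ℝ, 0 < ε → ∀ᶠ n : ℕ in atTop, 1 / ((φ n : ℝ) + 1) < ε := by
    intro ε hε
    have h1 : Tendsto (fun n : ℕ => 1 / ((n : ℝ) + 1)) atTop (𝓝 0) :=
      tendsto_one_div_add_atTop_nhds_zero_nat
    exact (h1.comp hφ.tendsto_atTop).eventually_lt_const hε
  have hmain : ∀ F : Finset Ed, ∀ ε : ℝ, 0 < ε →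
      ∃ X : Finset Ed, IsCyc (X ∆ D) ∧ (∀ e ∈ F, bx U (ind X) e = U' e) ∧
        en (wt J) U X < hh (wt J) U D + ε := by
    intro F ε hε
    obtain ⟨n, hn1, hn2⟩ := ((hfin F).and (hsmall ε hε)).exists
    refine ⟨X (φ n), hX1 _, hn1, ?_⟩
    have := hX2 (φ n)
    linarith
  refine ⟨U', ⟨?_, ?_⟩, hmain⟩
  · intro v
    obtain ⟨Y, hY1, hY2, _⟩ := hmain (Finset.univ.image (edg v)) 1 one_pos
    rw [fr_flp hnz]
    have h1 : par U' v = par (bx U (ind Y)) v :=
      par_congr fun d => (hY2 _ (Finset.mem_image_of_mem _ (Finset.mem_univ d))).symm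
    rw [h1, par_bx, hU.1 v, par_of_isCyc_symmDiff hY1]
    rfl
  · intro C hC
    rw [wt_flp]
    refine le_of_forall_pos_lt_add fun ε hε => ?_
    obtain ⟨Y, hY1, hY2, hY3⟩ := hmain C ε hε
    have h1 : en (wt J) U' C = en (wt J) (bx U (ind Y)) C :=
      en_congr fun e he => (hY2 e he).symm
    have h2 := en_symmDiff (wt J) U Y C
    have h3 : hh (wt J) U D ≤ en (wt J) U (Y ∆ C) := by
      refine hL.hh_le' ?_
      have : (Y ∆ C) ∆ D = (Y ∆ D) ∆ C := by
        rw [symmDiff_assoc, symmDiff_comm C D, ← symmDiff_assoc]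
      rw [this]
      exact hY1.symmDiff hC
    linarith

/-- subadditivity along the limit -/
theorem hh_subadd {J : Ed → ℝ} {U U' : Ed → Bool} (hU : U ∈ GJ J) {D : Finset Ed}
    (h : ∀ F : Finset Ed, ∀ ε : ℝ, 0 < ε →
      ∃ X : Finset Ed, IsCyc (X ∆ D) ∧ (∀ e ∈ F, bx U (ind X) e = U' e) ∧
        en (wt J) U X < hh (wt J) U D + ε) (Y : Finset Ed) :
    hh (wt J) U (D ∆ Y) ≤ hh (wt J) U D + en (wt J) U' Y := by
  have hL : LM (wt J) U := LM.of_mem hU
  refine le_of_forall_pos_lt_add fun ε hε => ?_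
  obtain ⟨X, hX1, hX2, hX3⟩ := h Y ε hε
  have h1 : en (wt J) U' Y = en (wt J) (bx U (ind X)) Y := en_congr fun e he => (hX2 e he).symm
  have h2 := en_symmDiff (wt J) U X Y
  have h3 : hh (wt J) U (D ∆ Y) ≤ en (wt J) U (X ∆ Y) := by
    refine hL.hh_le' ?_
    have : (X ∆ Y) ∆ (D ∆ Y) = X ∆ D := by
      rw [symmDiff_comm D Y, symmDiff_assoc, symmDiff_symmDiff_cancel_left]
    rw [this]
    exact hX1
  linarith

/-- **Every ground state of `J^D` comes from a ground state of `J`.** -/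
theorem exists_source {J : Ed → ℝ} (hnz : ∀ e, J e ≠ 0) {D : Finset Ed}
    (hib : IB (wt (flp (ind D) J)) (fr (flp (ind D) J))) {U' : Ed → Bool}
    (hU' : U' ∈ GJ (flp (ind D) J)) :
    ∃ U ∈ GJ J, ∀ Y : Finset Ed, hh (wt J) U (D ∆ Y) ≤ hh (wt J) U D + en (wt J) U' Y := by
  obtain ⟨U, hU, hback⟩ := exists_limit (flp_ne_zero hnz) hU' D
  rw [flp_flp] at hU
  rw [wt_flp] at hback
  obtain ⟨U'', hU'', hforth⟩ := exists_limit hnz hU D
  refine ⟨U, hU, ?_⟩
  have heq : U' = U'' := by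
    by_contra hne
    refine hib U' hU' U'' hU'' hne
      (hh (wt J) U' D + 1 + (hh (wt J) U D + 1)) ?_
    intro F
    rw [wt_flp]
    obtain ⟨X', hX1', hX2', hX3'⟩ := hforth F 1 one_pos
    obtain ⟨X, hX1, hX2, hX3⟩ := hback (F ∪ X') 1 one_pos
    refine ⟨X ∆ X', ?_, ?_, ?_⟩
    · exact isCyc_trans hX1 (isCyc_symm hX1')
    · intro e he
      rw [ind_symmDiff, ← bx_assoc]
      have h1 : bx (bx U' (ind X)) (ind X') e = bx U (ind X') e := by
        unfold bx
        rw [← hX2 e (Finset.mem_union_left _ he)]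
        rfl
      rw [h1, hX2' e he]
    · rw [en_symmDiff]
      have h1 : en (wt J) (bx U' (ind X)) X' = en (wt J) U X' :=
        en_congr fun e he => hX2 e (Finset.mem_union_right _ he)
      rw [h1]
      linarith
  rw [heq]
  exact hh_subadd hU hforth

end Pool.Agent.Helper99.TJ
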