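import Pool.Agent.Helper99.TJ.S6B

set_option autoImplicit false

/-!
# Section 6, part D: counting the bad flips
-/

namespace Pool.Agent.Helper99.TJ

open Pool.Agent.Helper60.TJ
open scoped symmDiff

/-- some ground state has an edge set with the boundary of `π` of cost less than `-t` -/
def Low (π : Finset Ed) (t : ℝ) (J : Ed → ℝ) : Prop :=
  ∃ U ∈ GJ J, ∃ Y : Finset Ed, IsCyc (Y ∆ π) ∧ en (wt J) U Y < -t

theorem low_ff {J : Ed → ℝ} (hnz : ∀ e, J e ≠ 0) {π D : Finset Ed} (hD : D ⊆ π) {t : ℝ}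
    (hib : IB (wt (flp (ind D) J)) (fr (flp (ind D) J)))
    (hlow : Low π t (flp (ind D) J)) : ∃ U ∈ GJ J, t ≤ |ff (wt J) U π D| := by
  obtain ⟨U', hU', Y, hY1, hY2⟩ := hlow
  rw [wt_flp] at hY2
  obtain ⟨U, hU, hsub⟩ := exists_source hnz hib hU'
  refine ⟨U, hU, ?_⟩
  have hL : LM (wt J) U := LM.of_mem hU
  have h1 := hsub Y
  have h2 : hh (wt J) U (D ∆ Y) = hh (wt J) U (π \ D) := by
    refine hL.hh_congr ?_
    have h3 : π \ D = D ∆ π := by
      rw [symmDiff_def, Finset.sup_eq_union, Finset.sdiff_eq_empty_iff_subset.2 hD,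
        Finset.empty_union]
    have h4 : (D ∆ Y) ∆ (D ∆ π) = Y ∆ π := by
      rw [symmDiff_comm D Y, symmDiff_assoc, symmDiff_symmDiff_cancel_left]
    rw [h3, h4]
    exact hY1
  rw [h2] at h1
  have h3 : ff (wt J) U π D < -t := by
    unfold ff
    linarith
  rw [le_abs]
  right
  linarith

/-- **Counting.** -/
theorem card_low {J : Ed → ℝ} (hnz : ∀ e, J e ≠ 0) {k : ℕ} (hfin : (GJ J).Finite)
    (hk : (GJ J).ncard ≤ k) (π : Finset Ed)
    (hib : ∀ D ⊆ π, IB (wt (flp (ind D) J)) (fr (flp (ind D) J))) {t : ℝ} (ht : 0 ≤ t) :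
    (({D : Finset Ed | D ⊆ π ∧ Low π t (flp (ind D) J)}).ncard : ℝ) ≤
      k * (2 * 2 ^ π.card * Real.exp (-(t ^ 2 / (2 * ∑ e ∈ π, (wt J e) ^ 2)))) := by
  classical
  set B : ℝ := 2 * 2 ^ π.card * Real.exp (-(t ^ 2 / (2 * ∑ e ∈ π, (wt J e) ^ 2))) with hB
  have hB0 : 0 ≤ B := by positivity
  have hsub : {D : Finset Ed | D ⊆ π ∧ Low π t (flp (ind D) J)} ⊆
      ↑(hfin.toFinset.biUnion fun U => π.powerset.filter fun D => t ≤ |ff (wt J) U π D|) := by
    rintro D ⟨hD, hlow⟩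
    obtain ⟨U, hU, h1⟩ := low_ff hnz hD (hib D hD) hlow
    rw [Finset.mem_coe, Finset.mem_biUnion]
    exact ⟨U, hfin.mem_toFinset.2 hU, Finset.mem_filter.2 ⟨Finset.mem_powerset.2 hD, h1⟩⟩
  have h1 := Set.ncard_le_ncard hsub (Finset.finite_toSet _)
  rw [Set.ncard_coe_finset] at h1
  have h2 : ((hfin.toFinset.biUnion fun U => π.powerset.filter fun D =>
      t ≤ |ff (wt J) U π D|).card : ℝ) ≤ ∑ U ∈ hfin.toFinset, B := by
    refine le_trans (Nat.cast_le.2 Finset.card_biUnion_le) ?_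
    push_cast
    refine Finset.sum_le_sum fun U hU => ?_
    exact (LM.of_mem (hfin.mem_toFinset.1 hU)).mcd π t ht
  rw [Finset.sum_const, nsmul_eq_mul] at h2
  have h3 : ((hfin.toFinset.card : ℕ) : ℝ) ≤ k := by
    rw [← Set.ncard_eq_toFinset_card _ hfin]
    exact_mod_cast hk
  calc (({D : Finset Ed | D ⊆ π ∧ Low π t (flp (ind D) J)}).ncard : ℝ) ≤ _ := by exact_mod_cast h1
    _ ≤ _ := h2
    _ ≤ k * B := mul_le_mul_of_nonneg_right h3 hB0

end Pool.Agent.Helper99.TJ
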