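import Pool.Agent.Helper99.TJ.S6D

set_option autoImplicit false

/-!
# Section 6, part E: measurability and probability
-/

namespace Pool.Agent.Helper99.TJ

open Pool.Agent.Helper60.TJ
open scoped symmDiff ENNReal
open MeasureTheory

/-! ### measurability -/

theorem continuous_par (v : Vx) : Continuous fun U : Ed → Bool => par U v := by
  have h1 : Continuous fun x : (Bool × Bool) × (Bool × Bool) =>
      xor (xor x.1.1 x.1.2) (xor x.2.1 x.2.2) := continuous_of_discreteTopology
  have h2 : Continuous fun U : Ed → Bool =>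
      (((U (edg v 0), U (edg v 1)), (U (edg v 2), U (edg v 3))) : (Bool × Bool) × (Bool × Bool)) := by
    fun_prop
  exact h1.comp h2

theorem continuous_en (Y : Finset Ed) :
    Continuous fun q : (Ed → ℝ) × (Ed → Bool) => en (wt q.1) q.2 Y := by
  unfold en wt
  refine continuous_finsetSum _ fun e _ => ?_
  have h1 : Continuous fun q : (Ed → ℝ) × (Ed → Bool) => |q.1 e| := by fun_prop
  have h2 : Continuous fun b : Bool => sg b := continuous_of_discreteTopology
  have h3 : Continuous fun q : (Ed → ℝ) × (Ed → Bool) => q.2 e := by fun_prop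
  exact h1.mul (h2.comp h3)

/-- closed version of the frustration condition at `v` -/
def Wk (v : Vx) (q : (Ed → ℝ) × (Ed → Bool)) : Prop :=
  ∃ b : Dir → Bool, (∀ d, b d = true → q.1 (edg v d) ≤ 0) ∧ (∀ d, b d = false → 0 ≤ q.1 (edg v d)) ∧
    par q.2 v = xor (xor (b 0) (b 1)) (xor (b 2) (b 3))

theorem isClosed_Wk (v : Vx) : IsClosed {q | Wk v q} := by
  have h0 : {q | Wk v q} = ⋃ b : Dir → Bool, (({q : (Ed → ℝ) × (Ed → Bool) | ∀ d, b d = true → q.1 (edg v d) ≤ 0}
      ∩ {q | ∀ d, b d = false → 0 ≤ q.1 (edg v d)}) ∩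
      {q | par q.2 v = xor (xor (b 0) (b 1)) (xor (b 2) (b 3))}) := by
    ext q
    simp only [Set.mem_ofPred_eq, Wk, Set.mem_iUnion, Set.mem_inter_iff]
    constructor
    · rintro ⟨b, h1, h2, h3⟩
      exact ⟨b, ⟨h1, h2⟩, h3⟩
    · rintro ⟨b, ⟨h1, h2⟩, h3⟩
      exact ⟨b, h1, h2, h3⟩
  rw [h0]
  refine isClosed_iUnion_of_finite fun b => ?_
  refine (IsClosed.inter ?_ ?_).inter ?_
  · simp only [Set.ofPred_forall]
    exact isClosed_iInter fun d => isClosed_iInter fun _ => isClosed_le (by fun_prop) continuous_const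
  · simp only [Set.ofPred_forall]
    exact isClosed_iInter fun d => isClosed_iInter fun _ => isClosed_le continuous_const (by fun_prop)
  · exact isClosed_eq ((continuous_par v).comp continuous_snd) continuous_const

theorem wk_iff {J : Ed → ℝ} (hnz : ∀ e, J e ≠ 0) (v : Vx) (U : Ed → Bool) :
    Wk v (J, U) ↔ par U v = fr J v := by
  constructor
  · rintro ⟨b, h1, h2, h3⟩
    have hb : ∀ d, b d = ng J (edg v d) := by
      intro d
      unfold ng
      cases hd : b d
      · have := h2 d hd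
        symm
        rw [decide_eq_false_iff_not]
        exact not_lt.2 this
      · have := h1 d hd
        symm
        rw [decide_eq_true_iff]
        exact lt_of_le_of_ne this (hnz _)
    simp only at h3
    rw [h3, hb, hb, hb, hb]
    rfl
  · intro h
    refine ⟨fun d => ng J (edg v d), ?_, ?_, h⟩
    · intro d hd
      unfold ng at hd
      exact (of_decide_eq_true hd).le
    · intro d hd
      unfold ng at hd
      exact not_lt.1 (of_decide_eq_false hd)

/-- the closed set of `(J, U)` used for measurability -/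
def KK (Y : Finset Ed) (c : ℝ) : Set ((Ed → ℝ) × (Ed → Bool)) :=
  {q | (∀ v, Wk v q) ∧ (∀ C : Finset Ed, IsCyc C → 0 ≤ en (wt q.1) q.2 C) ∧ en (wt q.1) q.2 Y ≤ c}

theorem isClosed_KK (Y : Finset Ed) (c : ℝ) : IsClosed (KK Y c) := by
  have h0 : KK Y c = ((⋂ v, {q | Wk v q}) ∩ (⋂ C : Finset Ed, ⋂ _ : IsCyc C,
      {q : (Ed → ℝ) × (Ed → Bool) | 0 ≤ en (wt q.1) q.2 C})) ∩
      {q | en (wt q.1) q.2 Y ≤ c} := by
    ext q
    simp only [KK, Set.mem_ofPred_eq, Set.mem_inter_iff, Set.mem_iInter]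
    tauto
  rw [h0]
  refine (IsClosed.inter (isClosed_iInter isClosed_Wk) ?_).inter ?_
  · exact isClosed_iInter fun C => isClosed_iInter fun _ =>
      isClosed_le continuous_const (continuous_en C)
  · exact isClosed_le (continuous_en Y) continuous_const

theorem measurableSet_nz : MeasurableSet {J : Ed → ℝ | ∀ e, J e ≠ 0} := by
  simp only [Set.ofPred_forall]
  refine MeasurableSet.iInter fun e => ?_
  exact (measurableSet_singleton (0 : ℝ)).compl.preimage (measurable_pi_apply e)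

/-- nonzero couplings, bounded by `Λ` on `Bx`, for which `Low` holds -/
def LowW (Bx : Finset Ed) (Λ : ℝ) (π : Finset Ed) (t : ℝ) : Set (Ed → ℝ) :=
  {J | (∀ e, J e ≠ 0) ∧ (∀ e ∈ Bx, |J e| ≤ Λ) ∧ Low π t J}

theorem measurableSet_LowW (Bx : Finset Ed) (Λ : ℝ) (π : Finset Ed) (t : ℝ) :
    MeasurableSet (LowW Bx Λ π t) := by
  have h0 : LowW Bx Λ π t = ({J : Ed → ℝ | ∀ e, J e ≠ 0} ∩ {J : Ed → ℝ | ∀ e ∈ Bx, |J e| ≤ Λ}) ∩
      ⋃ Y : Finset Ed, ⋃ _ : IsCyc (Y ∆ π), ⋃ j : ℕ,
        Prod.fst '' KK Y (-t - 1 / ((j : ℝ) + 1)) := by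
    ext J
    simp only [LowW, Low, Set.mem_ofPred_eq, Set.mem_inter_iff, Set.mem_iUnion, Set.mem_image]
    constructor
    · rintro ⟨h1, h2, U, hU, Y, hY1, hY2⟩
      refine ⟨⟨h1, h2⟩, Y, hY1, ?_⟩
      obtain ⟨j, hj⟩ := exists_nat_one_div_lt (show (0:ℝ) < -t - en (wt J) U Y by linarith)
      refine ⟨j, (J, U), ⟨fun v => (wk_iff h1 v U).2 (hU.1 v), hU.2, ?_⟩, rfl⟩
      simp only
      linarith
    · rintro ⟨⟨h1, h2⟩, Y, hY1, j, ⟨J', U⟩, ⟨h3, h4, h5⟩, h6⟩
      simp only at h6
      subst h6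
      refine ⟨h1, h2, U, ⟨fun v => (wk_iff h1 v U).1 (h3 v), h4⟩, Y, hY1, ?_⟩
      simp only at h5
      have : (0:ℝ) < 1 / ((j:ℝ) + 1) := by positivity
      linarith
  rw [h0]
  refine (measurableSet_nz.inter ?_).inter ?_
  · have : {J : Ed → ℝ | ∀ e ∈ Bx, |J e| ≤ Λ} = ⋂ e ∈ Bx, {J : Ed → ℝ | |J e| ≤ Λ} := by
      ext J; simp
    rw [this]
    refine Finset.measurableSet_biInter _ fun e _ => ?_
    exact measurableSet_le (measurable_pi_apply e).abs measurable_const
  · refine MeasurableSet.iUnion fun Y => MeasurableSet.iUnion fun _ => MeasurableSet.iUnion fun j => ?_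
    exact (isClosedMap_fst_of_compactSpace _ (isClosed_KK _ _)).measurableSet

/-! ### flips -/

theorem measurable_flp (D : Ed → Bool) : Measurable (flp D) := by
  unfold flp
  refine measurable_pi_lambda _ fun e => ?_
  split_ifs
  · exact (measurable_pi_apply e).neg
  · exact measurable_pi_apply e

theorem map_flp {μ : Measure ℝ} [IsProbabilityMeasure μ] (hsym : μ.map (fun x => -x) = μ)
    (D : Ed → Bool) : (PP μ).map (flp D) = PP μ := by
  have h1 : flp D = fun J e => (fun x : ℝ => if D e then -x else x) (J e) := by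
    funext J e; rfl
  rw [h1]
  have h2 := Measure.infinitePi_map_pi (μ := fun _ : Ed => μ)
    (f := fun e => fun x : ℝ => if D e then -x else x) (fun e => by
      split_ifs
      · exact measurable_neg
      · exact measurable_id)
  refine h2.trans ?_
  congr 1
  funext e
  by_cases h : D e = true
  · simp only [h, if_true]
    exact hsym
  · simp only [h]
    exact Measure.map_id

theorem prob_flip {μ : Measure ℝ} [IsProbabilityMeasure μ] (hsym : μ.map (fun x => -x) = μ)
    (π : Finset Ed) {R : Set (Ed → ℝ)} (hR : MeasurableSet R) {c : ℝ}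
    (hc : ∀ᵐ J ∂(PP μ), (({D : Finset Ed | D ⊆ π ∧ flp (ind D) J ∈ R}).ncard : ℝ) ≤ c * 2 ^ π.card) :
    PP μ R ≤ ENNReal.ofReal c := by
  classical
  have h1 : ∀ D : Finset Ed, PP μ R = ∫⁻ J, R.indicator 1 (flp (ind D) J) ∂(PP μ) := by
    intro D
    rw [← lintegral_indicator_one hR]
    conv_lhs => rw [← map_flp hsym (ind D)]
    rw [lintegral_map (measurable_one.indicator hR) (measurable_flp _)]
  have h2 : (2 ^ π.card : ℝ≥0∞) * PP μ R =
      ∫⁻ J, ∑ D ∈ π.powerset, R.indicator 1 (flp (ind D) J) ∂(PP μ) := by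
    have h2' : ∫⁻ J, ∑ D ∈ π.powerset, R.indicator (1 : (Ed → ℝ) → ℝ≥0∞) (flp (ind D) J) ∂(PP μ) =
        ∑ D ∈ π.powerset, ∫⁻ J, R.indicator (1 : (Ed → ℝ) → ℝ≥0∞) (flp (ind D) J) ∂(PP μ) :=
      lintegral_finsetSum _ fun D _ => (measurable_one.indicator hR).comp (measurable_flp (ind D))
    rw [h2', ← Finset.sum_congr rfl fun D _ => h1 D, Finset.sum_const, Finset.card_powerset]
    simp
  have h3 : ∫⁻ J, ∑ D ∈ π.powerset, R.indicator 1 (flp (ind D) J) ∂(PP μ) ≤
      ∫⁻ _, ENNReal.ofReal (c * 2 ^ π.card) ∂(PP μ) := by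
    refine lintegral_mono_ae ?_
    filter_upwards [hc] with J hJ
    have h4 : ∑ D ∈ π.powerset, R.indicator (1 : (Ed → ℝ) → ℝ≥0∞) (flp (ind D) J) =
        (((π.powerset.filter fun D => flp (ind D) J ∈ R).card : ℕ) : ℝ≥0∞) := by
      rw [Finset.card_filter]
      push_cast
      refine Finset.sum_congr rfl fun D _ => ?_
      by_cases h : flp (ind D) J ∈ R
      · simp [h]
      · simp [h]
    rw [h4]
    have h5 : {D : Finset Ed | D ⊆ π ∧ flp (ind D) J ∈ R} =
        ↑(π.powerset.filter fun D => flp (ind D) J ∈ R) := by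
      ext D
      simp
    rw [h5, Set.ncard_coe_finset] at hJ
    rw [← ENNReal.ofReal_natCast]
    exact ENNReal.ofReal_le_ofReal hJ
  rw [lintegral_const, measure_univ, mul_one, ← h2] at h3
  have h6 : ENNReal.ofReal (c * 2 ^ π.card) = 2 ^ π.card * ENNReal.ofReal c := by
    rw [mul_comm, ENNReal.ofReal_mul (by positivity), ENNReal.ofReal_pow (by norm_num)]
    simp
  rw [h6] at h3
  have h7 : (2 ^ π.card : ℝ≥0∞) ≠ 0 := by positivity
  have h8 : (2 ^ π.card : ℝ≥0∞) ≠ ∞ := by finiteness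
  exact (ENNReal.mul_le_mul_iff_right h7 h8).1 h3

/-- **Part E.** -/
theorem prob_low {μ : Measure ℝ} [IsProbabilityMeasure μ] (hsym : μ.map (fun x => -x) = μ)
    {k : ℕ} (hnice : ∀ᵐ J ∂(PP μ), ∀ D : Finset Ed, Nice k (flp (ind D) J))
    {Bx π : Finset Ed} (hπ : π ⊆ Bx) {t Λ : ℝ} (ht : 0 ≤ t) :
    PP μ (LowW Bx Λ π t) ≤
      ENNReal.ofReal (2 * k * Real.exp (-(t ^ 2 / (2 * (π.card * Λ ^ 2))))) := by
  refine prob_flip hsym π (measurableSet_LowW Bx Λ π t) ?_
  filter_upwards [hnice] with J hJ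
  have h0 : flp (ind ∅) J = J := by
    funext e; simp [flp, ind]
  have hJ0 : Nice k J := by
    have := hJ ∅
    rwa [h0] at this
  by_cases hb : ∀ e ∈ Bx, |J e| ≤ Λ
  · have h1 := card_low hJ0.nz hJ0.fin hJ0.card.le π (fun D _ => (hJ D).ib) ht
    have h2 : ({D : Finset Ed | D ⊆ π ∧ flp (ind D) J ∈ LowW Bx Λ π t}).ncard ≤
        ({D : Finset Ed | D ⊆ π ∧ Low π t (flp (ind D) J)}).ncard := by
      refine Set.ncard_le_ncard ?_ ?_
      · rintro D ⟨h3, _, _, h4⟩
        exact ⟨h3, h4⟩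
      · exact (Finset.finite_toSet π.powerset).subset fun D hD => by
          simpa using hD.1
    have h3 : Real.exp (-(t ^ 2 / (2 * ∑ e ∈ π, (wt J e) ^ 2))) ≤
        Real.exp (-(t ^ 2 / (2 * (π.card * Λ ^ 2)))) := by
      rw [Real.exp_le_exp, neg_le_neg_iff]
      rcases π.eq_empty_or_nonempty with rfl | hne
      · simp
      · have h4 : ∑ e ∈ π, (wt J e) ^ 2 ≤ π.card * Λ ^ 2 := by
          rw [← nsmul_eq_mul]
          refine Finset.sum_le_card_nsmul _ _ _ fun e he => ?_
          have := hb e (hπ he)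
          unfold wt
          exact pow_le_pow_left₀ (abs_nonneg _) this 2
        have h5 : 0 < ∑ e ∈ π, (wt J e) ^ 2 := by
          refine Finset.sum_pos (fun e _ => ?_) hne
          have : 0 < wt J e := abs_pos.2 (hJ0.nz e)
          positivity
        exact div_le_div_of_nonneg_left (by positivity) (by positivity) (by linarith)
    calc (({D : Finset Ed | D ⊆ π ∧ flp (ind D) J ∈ LowW Bx Λ π t}).ncard : ℝ) ≤
        (({D : Finset Ed | D ⊆ π ∧ Low π t (flp (ind D) J)}).ncard : ℝ) := by exact_mod_cast h2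
      _ ≤ _ := h1
      _ = 2 * k * Real.exp (-(t ^ 2 / (2 * ∑ e ∈ π, (wt J e) ^ 2))) * 2 ^ π.card := by ring
      _ ≤ _ := by
        refine mul_le_mul_of_nonneg_right ?_ (by positivity)
        exact mul_le_mul_of_nonneg_left h3 (by positivity)
  · have h1 : {D : Finset Ed | D ⊆ π ∧ flp (ind D) J ∈ LowW Bx Λ π t} = ∅ := by
      rw [Set.eq_empty_iff_forall_notMem]
      rintro D ⟨_, _, h2, _⟩
      apply hb
      intro e he
      have := h2 e he
      have h3 : |flp (ind D) J e| = |J e| := congrFun (wt_flp (ind D) J) e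
      rwa [h3] at this
    rw [h1, Set.ncard_empty]
    simp only [Nat.cast_zero]
    positivity

end Pool.Agent.Helper99.TJ
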