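import Pool.Agent.Helper60.TJ.F

set_option autoImplicit false

/-!
# Section 6, part G1: directed wall edges, segments and how often segments meet
-/

namespace Pool.Agent.Helper99.TJ

open Pool.Agent.Helper60.TJ
open scoped symmDiff

/-- directed edges -/
abbrev DE := Vx × Dir

/-- the directed edge lies on `W` -/
def On (W : Ed → Bool) (z : DE) : Prop := W (edg z.1 z.2) = true

/-- reversal of a directed edge -/
def sw (z : DE) : DE := (z.1 + stp z.2, opp z.2)

/-- the other directed wall edge at the same vertex -/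
def rz (W : Ed → Bool) (z : DE) : DE := (z.1, oth W z.1 z.2)

/-- one step along the wall -/
def tau (W : Ed → Bool) (z : DE) : DE := (z.1 + stp z.2, nxt W (z.1 + stp z.2) z.2)

theorem g_nxt_aux : ∀ (f : Fin 4 → Bool) (d : Fin 4),
    xor (xor (f 0) (f 1)) (xor (f 2) (f 3)) = false → (∃ d, f d = false) → f (d + 2) = true →
    (f (if f d then d else if f (d + 1) then d + 1 else d + 3) = true ∧
      (if f d then d else if f (d + 1) then d + 1 else d + 3) ≠ d + 2 ∧
      ∀ d', f d' = true → d' ≠ d + 2 →
        d' = (if f d then d else if f (d + 1) then d + 1 else d + 3)) := by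
  decide

theorem g_nxt_spec {W : Ed → Bool} (h : Deg2 W) {v : Vx} {d : Dir}
    (hd : W (edg v (opp d)) = true) :
    W (edg v (nxt W v d)) = true ∧ nxt W v d ≠ opp d ∧
      ∀ d', W (edg v d') = true → d' ≠ opp d → d' = nxt W v d :=
  g_nxt_aux (fun d => W (edg v d)) d (h.1 v) (h.2 v) hd

theorem g_oth_spec {W : Ed → Bool} (h : Deg2 W) {v : Vx} {d : Dir}
    (hd : W (edg v d) = true) :
    W (edg v (oth W v d)) = true ∧ oth W v d ≠ d ∧
      ∀ d', W (edg v d') = true → d' ≠ d → d' = oth W v d := by
  have e : opp (d + 2) = d := opp_opp d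
  have := g_nxt_spec h (v := v) (d := d + 2) (by rw [e]; exact hd)
  rw [e] at this
  exact this

theorem g_edg_eq {v v' : Vx} {d d' : Dir} (h : edg v d = edg v' d') :
    (v = v' ∧ d = d') ∨ (v' = v + stp d ∧ d' = opp d) := by
  obtain ⟨x, y⟩ := v
  obtain ⟨x', y'⟩ := v'
  fin_cases d <;> fin_cases d' <;> simp [edg, stp, opp] at h ⊢ <;> omega

theorem sw_sw (z : DE) : sw (sw z) = z := by
  unfold sw
  ext1
  · show z.1 + stp z.2 + stp (opp z.2) = z.1
    rw [stp_opp]; abel
  · exact opp_opp _

theorem edg_sw (z : DE) : edg (sw z).1 (sw z).2 = edg z.1 z.2 := edg_opp _ _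

variable {W : Ed → Bool}

theorem on_sw {z : DE} (h : On W z) : On W (sw z) := by
  unfold On
  rw [edg_sw]; exact h

theorem tau_eq (z : DE) : tau W z = rz W (sw z) := by
  unfold tau rz sw oth
  have : opp z.2 + 2 = z.2 := opp_opp z.2
  simp only
  rw [this]

theorem on_rz (hW : Deg2 W) {z : DE} (h : On W z) : On W (rz W z) := (g_oth_spec hW h).1

theorem rz_rz (hW : Deg2 W) {z : DE} (h : On W z) : rz W (rz W z) = z := by
  obtain ⟨v, d⟩ := z
  have a := g_oth_spec hW h
  have b := g_oth_spec hW a.1
  unfold rz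
  simp only at a b ⊢
  rw [← b.2.2 d h a.2.1.symm]

theorem on_tau (hW : Deg2 W) {z : DE} (h : On W z) : On W (tau W z) := by
  rw [tau_eq]; exact on_rz hW (on_sw h)

theorem on_iter (hW : Deg2 W) {z : DE} (h : On W z) (n : ℕ) : On W ((tau W)^[n] z) := by
  induction n with
  | zero => exact h
  | succ n ih => rw [Function.iterate_succ_apply']; exact on_tau hW ih

theorem tau_inj (hW : Deg2 W) {z z' : DE} (h : On W z) (h' : On W z') (he : tau W z = tau W z') :
    z = z' := by
  rw [tau_eq, tau_eq] at he
  have h1 := congrArg (rz W) he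
  rw [rz_rz hW (on_sw h), rz_rz hW (on_sw h')] at h1
  have h2 := congrArg sw h1
  rwa [sw_sw, sw_sw] at h2

theorem iter_inj (hW : Deg2 W) (n : ℕ) {z z' : DE} (h : On W z) (h' : On W z')
    (he : (tau W)^[n] z = (tau W)^[n] z') : z = z' := by
  induction n with
  | zero => exact he
  | succ n ih =>
    rw [Function.iterate_succ_apply', Function.iterate_succ_apply'] at he
    exact ih (tau_inj hW (on_iter hW h n) (on_iter hW h' n) he)

/-- `tau sw tau = sw` -/
theorem tau_sw_tau (hW : Deg2 W) {z : DE} (h : On W z) : tau W (sw (tau W z)) = sw z := by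
  rw [tau_eq, sw_sw, tau_eq, rz_rz hW (on_sw h)]

theorem iter_sw_iter (hW : Deg2 W) (n : ℕ) {z : DE} (h : On W z) :
    (tau W)^[n] (sw ((tau W)^[n] z)) = sw z := by
  induction n with
  | zero => rfl
  | succ n ih =>
    rw [Function.iterate_succ_apply, Function.iterate_succ_apply', tau_sw_tau hW (on_iter hW h n)]
    exact ih

/-- the `i`-th edge from `z` -/
def we (W : Ed → Bool) (z : DE) (i : ℕ) : Ed := edg ((tau W)^[i] z).1 ((tau W)^[i] z).2

/-- the first `n` edges from `z` -/
def sg' (W : Ed → Bool) (n : ℕ) (z : DE) : Finset Ed := (Finset.range n).image (we W z)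

/-- all directed edges whose segment may meet the one of `z` -/
def meets (W : Ed → Bool) (n : ℕ) (z : DE) : Finset DE :=
  ((Finset.range n).image fun k => (tau W)^[k] z) ∪
    (((Finset.range (2 * n)).image fun k => sw ((tau W)^[k] z)) ∪
      (Finset.range n).image fun k => sw ((tau W)^[k] (sw z)))

theorem card_meets (W : Ed → Bool) (n : ℕ) (z : DE) : (meets W n z).card ≤ 4 * n := by
  unfold meets
  refine (Finset.card_union_le _ _).trans ?_
  have h1 : ((Finset.range n).image fun k => (tau W)^[k] z).card ≤ n :=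
    Finset.card_image_le.trans (by rw [Finset.card_range])
  have h2 : ((Finset.range (2 * n)).image fun k => sw ((tau W)^[k] z)).card ≤ 2 * n :=
    Finset.card_image_le.trans (by rw [Finset.card_range])
  have h3 : ((Finset.range n).image fun k => sw ((tau W)^[k] (sw z))).card ≤ n :=
    Finset.card_image_le.trans (by rw [Finset.card_range])
  have h4 := Finset.card_union_le ((Finset.range (2 * n)).image fun k => sw ((tau W)^[k] z))
    ((Finset.range n).image fun k => sw ((tau W)^[k] (sw z)))
  omega

theorem mem_meets (hW : Deg2 W) {n : ℕ} {z z' : DE} (h : On W z) (h' : On W z')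
    (hm : ¬ Disjoint (sg' W n z) (sg' W n z')) : z ∈ meets W n z' := by
  rw [Finset.not_disjoint_iff] at hm
  obtain ⟨e, he, he'⟩ := hm
  obtain ⟨i, hi, hie⟩ := Finset.mem_image.1 he
  obtain ⟨j, hj, hje⟩ := Finset.mem_image.1 he'
  rw [Finset.mem_range] at hi hj
  have hij : we W z i = we W z' j := by rw [hie, hje]
  unfold meets
  rw [Finset.mem_union, Finset.mem_union]
  rcases g_edg_eq hij with ⟨h1, h2⟩ | ⟨h1, h2⟩
  · have h3 : (tau W)^[i] z = (tau W)^[j] z' := Prod.ext h1 h2
    rcases le_total i j with hle | hle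
    · -- `z = tau^(j-i) z'`
      left
      rw [Finset.mem_image]
      refine ⟨j - i, Finset.mem_range.2 (by omega), ?_⟩
      refine (iter_inj hW i h (on_iter hW h' _) ?_).symm
      rw [← Function.iterate_add_apply, Nat.add_sub_cancel' hle]
      exact h3
    · -- `tau^(i-j) z = z'`
      right; right
      rw [Finset.mem_image]
      refine ⟨i - j, Finset.mem_range.2 (by omega), ?_⟩
      have h4 : (tau W)^[i - j] z = z' := by
        refine iter_inj hW j (on_iter hW h _) h' ?_
        rw [← Function.iterate_add_apply, Nat.add_sub_cancel' hle]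
        exact h3
      refine iter_inj hW (i - j) (on_sw (on_iter hW (on_sw h') _)) h ?_
      rw [iter_sw_iter hW _ (on_sw h'), sw_sw]
      exact h4.symm
  · have h3 : (tau W)^[j] z' = sw ((tau W)^[i] z) := Prod.ext h1 h2
    right; left
    rw [Finset.mem_image]
    refine ⟨i + j, Finset.mem_range.2 (by omega), ?_⟩
    refine iter_inj hW i (on_sw (on_iter hW h' _)) h ?_
    rw [Function.iterate_add_apply, iter_sw_iter hW _ (on_iter hW h' _), h3, sw_sw]

/-- **Greedy selection.** -/
theorem exists_disjoint (hW : Deg2 W) {n : ℕ} (hn : 1 ≤ n) (Z : Finset DE) (hZ : ∀ z ∈ Z, On W z) :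
    ∃ Z' ⊆ Z, (∀ z ∈ Z', ∀ z' ∈ Z', z ≠ z' → Disjoint (sg' W n z) (sg' W n z')) ∧
      Z.card ≤ 4 * n * Z'.card := by
  set P := Z.powerset.filter fun A => ∀ z ∈ A, ∀ z' ∈ A, z ≠ z' →
    Disjoint (sg' W n z) (sg' W n z') with hP
  have hne : P.Nonempty := ⟨∅, by rw [hP, Finset.mem_filter]; simp⟩
  obtain ⟨A, hA, hmax⟩ := Finset.exists_max_image P Finset.card hne
  rw [hP, Finset.mem_filter, Finset.mem_powerset] at hA
  refine ⟨A, hA.1, hA.2, ?_⟩
  have hcov : Z ⊆ A.biUnion (meets W n) := by
    intro z hz
    rw [Finset.mem_biUnion]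
    by_contra hcon
    push Not at hcon
    have hdis : ∀ z' ∈ A, Disjoint (sg' W n z) (sg' W n z') := by
      intro z' hz'
      by_contra hnd
      exact hcon z' hz' (mem_meets hW (hZ z hz) (hZ z' (hA.1 hz')) hnd)
    have hzA : z ∉ A := by
      intro hzA
      have h1 := hdis z hzA
      rw [disjoint_self, Finset.bot_eq_empty] at h1
      unfold sg' at h1
      rw [Finset.image_eq_empty, Finset.range_eq_empty_iff] at h1
      omega
    have h2 : insert z A ∈ P := by
      rw [hP, Finset.mem_filter, Finset.mem_powerset]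
      refine ⟨Finset.insert_subset hz hA.1, ?_⟩
      intro a ha b hb hab
      rw [Finset.mem_insert] at ha hb
      rcases ha with rfl | ha
      · rcases hb with rfl | hb
        · exact absurd rfl hab
        · exact hdis b hb
      · rcases hb with rfl | hb
        · exact (hdis a ha).symm
        · exact hA.2 a ha b hb hab
    have h3 := hmax _ h2
    rw [Finset.card_insert_of_notMem hzA] at h3
    omega
  refine (Finset.card_le_card hcov).trans ?_
  refine Finset.card_biUnion_le.trans ?_
  refine (Finset.sum_le_card_nsmul _ _ (4 * n) fun z _ => card_meets W n z).trans ?_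
  rw [smul_eq_mul, mul_comm]

end Pool.Agent.Helper99.TJ
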