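import Pool.Agent.Helper99.TJ.S6H

set_option autoImplicit false

/-!
# Section 6, part G3: the count
-/

namespace Pool.Agent.Helper99.TJ

open Pool.Agent.Helper60.TJ
open scoped symmDiff

/-- the bound for the number of disjoint segments of energy at most `-lam` -/
noncomputable def NB (L : ℕ) (Λ lam : ℝ) : ℝ :=
  Λ ^ 4 * (108 * ((2 * L + 1) * Real.log (2 * L + 1))) ^ 2 / lam ^ 4

theorem NB_nonneg (L : ℕ) {Λ lam : ℝ} : 0 ≤ NB L Λ lam := by
  unfold NB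
  have : Λ ^ 4 = (Λ ^ 2) ^ 2 := by ring
  have h2 : lam ^ 4 = (lam ^ 2) ^ 2 := by ring
  rw [this, h2]
  positivity

theorem arith {L r m' : ℕ} {Λ lam : ℝ} (hΛ : 0 < Λ) (hlam : 0 < lam) (hr : 1 ≤ r) (hm' : m' ≤ r)
    (h : r * lam ≤ tt L Λ m') : (r : ℝ) ≤ NB L Λ lam := by
  set A : ℝ := 108 * ((2 * L + 1) * Real.log (2 * L + 1)) with hA
  have hA0 : 0 ≤ A := by
    have := log_nonneg' L
    positivity
  have hr0 : (0:ℝ) < r := by exact_mod_cast hr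
  have h1 : (r * lam) ^ 2 ≤ tt L Λ m' ^ 2 :=
    pow_le_pow_left₀ (by positivity) h 2
  rw [tt_sq, ← hA] at h1
  have hmr : (m':ℝ) ≤ r := by exact_mod_cast hm'
  have h2 : (m':ℝ) * √m' ≤ r * √r :=
    mul_le_mul hmr (Real.sqrt_le_sqrt hmr) (Real.sqrt_nonneg _) hr0.le
  have h3 : (r * lam) ^ 2 ≤ Λ ^ 2 * (A * (r * √r)) := by
    refine h1.trans ?_
    exact mul_le_mul_of_nonneg_left (mul_le_mul_of_nonneg_left h2 hA0) (by positivity)
  have h4 : ((r * lam) ^ 2) ^ 2 ≤ (Λ ^ 2 * (A * (r * √r))) ^ 2 :=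
    pow_le_pow_left₀ (by positivity) h3 2
  have hs : √(r:ℝ) ^ 2 = r := Real.sq_sqrt hr0.le
  have h5 : (Λ ^ 2 * (A * (r * √r))) ^ 2 = Λ ^ 4 * A ^ 2 * (r:ℝ) ^ 3 := by
    calc (Λ ^ 2 * (A * (r * √r))) ^ 2 = Λ ^ 4 * A ^ 2 * (r:ℝ) ^ 2 * √(r:ℝ) ^ 2 := by ring
      _ = _ := by rw [hs]; ring
  rw [h5] at h4
  unfold NB
  rw [← hA, le_div_iff₀ (by positivity)]
  have h6 : (r * lam ^ 4) * (r:ℝ) ^ 3 ≤ (Λ ^ 4 * A ^ 2) * (r:ℝ) ^ 3 := by
    calc (r * lam ^ 4) * (r:ℝ) ^ 3 = ((r * lam) ^ 2) ^ 2 := by ring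
      _ ≤ _ := h4
  exact le_of_mul_le_mul_right h6 (by positivity)

theorem en_biUnion {w : Ed → ℝ} {U : Ed → Bool} {Z : Finset DE} {Y : DE → Finset Ed}
    (hd : ∀ z ∈ Z, ∀ z' ∈ Z, z ≠ z' → Disjoint (Y z) (Y z')) :
    en w U (Z.biUnion Y) = ∑ z ∈ Z, en w U (Y z) := by
  unfold en
  rw [Finset.sum_biUnion]
  intro z hz z' hz' hne
  exact hd z hz z' hz' hne

theorem box_mono {L L' : ℕ} (h : L ≤ L') : box L ⊆ box L' := by
  intro v hv
  unfold box at *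
  rw [Finset.mem_product, Finset.mem_Icc, Finset.mem_Icc] at *
  omega

theorem add_mem_box {L L' : ℕ} {u v : Vx} (hu : u ∈ box L) (hv : v ∈ box L') :
    u + v ∈ box (L + L') := by
  unfold box at *
  rw [Finset.mem_product, Finset.mem_Icc, Finset.mem_Icc] at *
  simp only [Prod.fst_add, Prod.snd_add, Nat.cast_add]
  omega

theorem count_gen {p : XX} (hdeg : Deg2 (wl p)) (hac : Ac (wl p)) (hnz : ∀ e, p.1 e ≠ 0)
    {U₁ : Ed → Bool} (hU : U₁ ∈ GJ p.1) {n m : ℕ} (hm : 1 ≤ m) (hmn : m ≤ n) {Λ lam : ℝ}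
    (hΛ : 0 < Λ) (hlam : 0 < lam) (hw : ∀ e ∈ BxE (2 * n), |p.1 e| ≤ Λ)
    (hgood : p.1 ∉ BadL (2 * n) Λ) (Z : Finset DE)
    (hZ : ∀ z ∈ Z, z.1 ∈ box n ∧ On (wl p) z ∧ en (wt p.1) U₁ (sg' (wl p) m z) ≤ -lam) :
    (Z.card : ℝ) ≤ 4 * m * NB (2 * n) Λ lam := by
  obtain ⟨Z', hsub, hdis, hcard⟩ := exists_disjoint hdeg hm Z fun z hz => (hZ z hz).2.1
  have h4 : (Z.card : ℝ) ≤ 4 * m * Z'.card := by exact_mod_cast hcard
  refine h4.trans ?_
  refine mul_le_mul_of_nonneg_left ?_ (by positivity)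
  rcases Nat.eq_zero_or_pos Z'.card with h0 | hpos
  · rw [h0]; simp only [Nat.cast_zero]; exact NB_nonneg _
  obtain ⟨S, hS, m', hm', hSc, hpar⟩ := exists_bdry Z' (sg' (wl p) m) (fun z => z.1)
    (fun z => z.1 + pos (yz p z) m) hdis
    (fun z hz => par_sg' hdeg hac (hZ z (hsub hz)).2.1 m) (B := box (2 * n))
    (fun z hz => box_mono (by omega) (hZ z (hsub hz)).1)
    (fun z hz => box_mono (by omega) (add_mem_box (hZ z (hsub hz)).1 (pos_mem_box (yz p z) m)))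
  set Y := Z'.biUnion (sg' (wl p) m) with hY
  have hen : en (wt p.1) U₁ Y ≤ -(Z'.card * lam) := by
    rw [hY, en_biUnion hdis]
    have := Finset.sum_le_card_nsmul Z' (fun z => en (wt p.1) U₁ (sg' (wl p) m z)) (-lam)
      (fun z hz => (hZ z (hsub hz)).2.2)
    rw [nsmul_eq_mul] at this
    linarith
  have hZpos : (0:ℝ) < Z'.card := by exact_mod_cast hpos
  rcases Nat.eq_zero_or_pos m' with h0 | hm'pos
  · exfalso
    rw [h0, mul_zero, Finset.card_eq_zero] at hSc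
    rw [hSc] at hpar
    have hcyc : IsCyc Y := by
      rw [isCyc_iff, hpar]
      funext v; simp
    have h5 := hU.2 Y hcyc
    have : 0 < Z'.card * lam := by positivity
    linarith
  · refine arith hΛ hlam hpos hm' ?_
    by_contra hcon
    push Not at hcon
    apply hgood
    refine ⟨hnz, hw, m', hm'pos, S, hS, hSc, U₁, hU, Y, hpar, ?_⟩
    linarith

open Classical in
/-- starting points in the box with a large energy after `m` steps -/
noncomputable def HZ (p : XX) (n m : ℕ) (lam : ℝ) : Finset DE :=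
  (box n ×ˢ (Finset.univ : Finset Dir)).filter fun z => On (wl p) z ∧ lam ≤ |Vn m (yz p z)|

theorem count_abs {p : XX} (hdeg : Deg2 (wl p)) (hac : Ac (wl p)) (hnz : ∀ e, p.1 e ≠ 0)
    (hU : p.2.1 ∈ GJ p.1) (hU' : p.2.2 ∈ GJ p.1) {n m : ℕ} (hmn : m ≤ n) {Λ lam : ℝ}
    (hΛ : 0 < Λ) (hlam : 0 < lam) (hw : ∀ e ∈ BxE (2 * n), |p.1 e| ≤ Λ)
    (hgood : p.1 ∉ BadL (2 * n) Λ) :
    ((HZ p n m lam).card : ℝ) ≤ 8 * n * NB (2 * n) Λ lam := by
  classical
  rcases Nat.eq_zero_or_pos m with rfl | hm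
  · have : HZ p n 0 lam = ∅ := by
      unfold HZ
      rw [Finset.filter_eq_empty_iff]
      rintro z _ ⟨_, h⟩
      simp only [Vn, Finset.range_zero, Finset.sum_empty, abs_zero] at h
      linarith
    rw [this]
    simp only [Finset.card_empty, Nat.cast_zero]
    have := NB_nonneg (2 * n) (Λ := Λ) (lam := lam)
    positivity
  set Z1 := (HZ p n m lam).filter fun z => Vn m (yz p z) ≤ -lam with hZ1
  set Z2 := (HZ p n m lam).filter fun z => ¬ Vn m (yz p z) ≤ -lam with hZ2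
  have hsplit : Z1.card + Z2.card = (HZ p n m lam).card := Finset.card_filter_add_card_filter_not _
  have hb1 : (Z1.card : ℝ) ≤ 4 * m * NB (2 * n) Λ lam := by
    refine count_gen hdeg hac hnz hU hm hmn hΛ hlam hw hgood Z1 ?_
    intro z hz
    rw [hZ1, Finset.mem_filter, HZ, Finset.mem_filter, Finset.mem_product] at hz
    obtain ⟨⟨⟨h1, _⟩, h2, _⟩, h3⟩ := hz
    exact ⟨h1, h2, by rw [en_sg' hdeg hac h2]; exact h3⟩
  have hb2 : (Z2.card : ℝ) ≤ 4 * m * NB (2 * n) Λ lam := by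
    refine count_gen hdeg hac hnz hU' hm hmn hΛ hlam hw hgood Z2 ?_
    intro z hz
    rw [hZ2, Finset.mem_filter, HZ, Finset.mem_filter, Finset.mem_product] at hz
    obtain ⟨⟨⟨h1, _⟩, h2, h4⟩, h3⟩ := hz
    refine ⟨h1, h2, ?_⟩
    have h5 : en (wt p.1) p.2.2 (sg' (wl p) m z) = - en (wt p.1) p.2.1 (sg' (wl p) m z) := by
      apply en_wall
      intro e he
      unfold sg' at he
      obtain ⟨i, _, rfl⟩ := Finset.mem_image.1 he
      exact on_iter hdeg h2 i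
    rw [h5, en_sg' hdeg hac h2]
    push Not at h3
    rcases abs_cases (Vn m (yz p z)) with ⟨h6, _⟩ | ⟨h6, _⟩ <;> linarith
  have hNB := NB_nonneg (2 * n) (Λ := Λ) (lam := lam)
  have hmn' : (m:ℝ) ≤ n := by exact_mod_cast hmn
  calc ((HZ p n m lam).card : ℝ) = Z1.card + Z2.card := by exact_mod_cast hsplit.symm
    _ ≤ 8 * m * NB (2 * n) Λ lam := by linarith
    _ ≤ 8 * n * NB (2 * n) Λ lam := by
      refine mul_le_mul_of_nonneg_right ?_ hNB
      linarith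

end Pool.Agent.Helper99.TJ
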