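import Pool.Agent.Helper60.TJ.F2
import Pool.Agent.Helper99.TJ.S6I

set_option autoImplicit false

/-!
# Section 6, part H1: averaging over the starting points
-/

namespace Pool.Agent.Helper99.TJ

open Pool.Agent.Helper60.TJ
open scoped symmDiff ENNReal
open MeasureTheory

theorem nuM_eq (Q : Measure XX) {A : Set YY} (hA : MeasurableSet A) :
    nuM Q A = ∑ d : Dir, Q {p | wl p (edg 0 d) = true ∧ (p, d) ∈ A} := by
  unfold nuM
  rw [Measure.finsetSum_apply]
  refine Finset.sum_congr rfl fun d _ => ?_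
  have hm : Measurable (fun p : XX => (p, d)) := measurable_id.prodMk measurable_const
  rw [Measure.map_apply hm hA, Measure.restrict_apply (hm hA)]
  congr 1
  ext p
  simp only [Set.mem_inter_iff, Set.mem_preimage, Set.mem_ofPred_eq]
  tauto

theorem measurableSet_dir {A : Set YY} (hA : MeasurableSet A) (d : Dir) :
    MeasurableSet {p : XX | wl p (edg 0 d) = true ∧ (p, d) ∈ A} := by
  have h1 : Measurable (fun p : XX => (p, d)) := measurable_id.prodMk measurable_const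
  have h2 : Measurable (fun p : XX => wl p (edg 0 d)) := (measurable_pi_apply _).comp measurable_wl
  exact (measurableSet_eq_fun h2 measurable_const).inter (h1 hA)

theorem Q_shift {μ : Measure ℝ} {k : ℕ} {Q : Measure XX} (hQ : IsQ μ k Q) {A : Set YY}
    (hA : MeasurableSet A) (x : Vx) (d : Dir) :
    Q {p | On (wl p) (x, d) ∧ yz p (x, d) ∈ A} = Q {p | wl p (edg 0 d) = true ∧ (p, d) ∈ A} := by
  have h1 := (hQ.inv x).measure_preimage (measurableSet_dir hA d).nullMeasurableSet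
  rw [← h1]
  congr 1
  ext p
  simp only [Set.mem_ofPred_eq, Set.mem_preimage]
  have : wl (shX x p) (edg 0 d) = wl p (edg x d) := by
    show sh x (wl p) (edg 0 d) = _
    rw [sh_edg, zero_add]
  rw [this]
  rfl

theorem average {μ : Measure ℝ} {k : ℕ} {Q : Measure XX} (hQ : IsQ μ k Q) {A : Set YY}
    (hA : MeasurableSet A) (n : ℕ) :
    ((box n).card : ℝ≥0∞) * nuM Q A =
      ∑ z ∈ box n ×ˢ (Finset.univ : Finset Dir), Q {p | On (wl p) z ∧ yz p z ∈ A} := by
  rw [Finset.sum_product, nuM_eq Q hA]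
  have h1 : ∀ x ∈ box n, ∑ d : Dir, Q {p | On (wl p) (x, d) ∧ yz p (x, d) ∈ A} =
      ∑ d : Dir, Q {p | wl p (edg 0 d) = true ∧ (p, d) ∈ A} := fun x _ =>
    Finset.sum_congr rfl fun d _ => Q_shift hQ hA x d
  rw [Finset.sum_congr rfl h1, Finset.sum_const, nsmul_eq_mul]

theorem measurable_yz (z : DE) : Measurable (fun p : XX => yz p z) :=
  (measurable_shX z.1).prodMk measurable_const

theorem lintegral_HZ {μ : Measure ℝ} {k : ℕ} {Q : Measure XX} (hQ : IsQ μ k Q) (n m : ℕ) (lam : ℝ) :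
    ((box n).card : ℝ≥0∞) * nuM Q {y | lam ≤ |Vn m y|} =
      ∫⁻ p, (((HZ p n m lam).card : ℕ) : ℝ≥0∞) ∂Q := by
  classical
  have hA : MeasurableSet {y : YY | lam ≤ |Vn m y|} :=
    measurableSet_le measurable_const (measurable_Vn m).abs
  have hB : ∀ z : DE, MeasurableSet {p : XX | On (wl p) z ∧ yz p z ∈ {y : YY | lam ≤ |Vn m y|}} := by
    intro z
    have h2 : Measurable (fun p : XX => wl p (edg z.1 z.2)) :=
      (measurable_pi_apply _).comp measurable_wl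
    exact (measurableSet_eq_fun h2 measurable_const).inter ((measurable_yz z) hA)
  rw [average hQ hA]
  have h1 : ∀ p : XX, (((HZ p n m lam).card : ℕ) : ℝ≥0∞) =
      ∑ z ∈ box n ×ˢ (Finset.univ : Finset Dir),
        ({p : XX | On (wl p) z ∧ yz p z ∈ {y : YY | lam ≤ |Vn m y|}}).indicator
          (fun _ => (1 : ℝ≥0∞)) p := by
    intro p
    unfold HZ
    rw [Finset.card_filter]
    push_cast
    refine Finset.sum_congr rfl fun z _ => ?_
    by_cases h : On (wl p) z ∧ lam ≤ |Vn m (yz p z)|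
    · rw [if_pos h, Set.indicator_of_mem]
      exact h
    · rw [if_neg h, Set.indicator_of_notMem]
      exact h
  simp_rw [h1]
  rw [lintegral_finsetSum _ fun z _ => measurable_const.indicator (hB z)]
  refine Finset.sum_congr rfl fun z _ => ?_
  rw [lintegral_indicator_const (hB z), one_mul]

/-- the exceptional couplings -/
def Ex (L : ℕ) (Λ : ℝ) : Set (Ed → ℝ) := BadL L Λ ∪ {J | ∃ e ∈ BxE L, Λ < |J e|}

theorem prob_large {μ : Measure ℝ} [IsProbabilityMeasure μ] {q M : ℝ}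
    (hM : ∀ Λ : ℝ, 0 < Λ → μ {x | Λ < |x|} ≤ ENNReal.ofReal (M / Λ ^ q)) (hM0 : 0 ≤ M) (L : ℕ)
    {Λ : ℝ} (hΛ : 0 < Λ) :
    PP μ {J | ∃ e ∈ BxE L, Λ < |J e|} ≤ ENNReal.ofReal (4 * (2 * L + 1) ^ 2 * (M / Λ ^ q)) := by
  have h1 : {J : Ed → ℝ | ∃ e ∈ BxE L, Λ < |J e|} = ⋃ e ∈ BxE L, {J : Ed → ℝ | Λ < |J e|} := by
    ext J; simp
  rw [h1]
  refine (measure_biUnion_finset_le _ _).trans ?_
  have h2 : ∀ e ∈ BxE L, PP μ {J : Ed → ℝ | Λ < |J e|} ≤ ENNReal.ofReal (M / Λ ^ q) := by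
    intro e _
    have h3 := measurePreserving_eval_infinitePi (fun _ : Ed => μ) e
    have h4 : MeasurableSet {x : ℝ | Λ < |x|} := measurableSet_lt measurable_const measurable_id.abs
    have h5 := h3.measure_preimage h4.nullMeasurableSet
    have h6 : (Function.eval e) ⁻¹' {x : ℝ | Λ < |x|} = {J : Ed → ℝ | Λ < |J e|} := rfl
    rw [h6] at h5
    rw [h5]
    exact hM Λ hΛ
  refine (Finset.sum_le_card_nsmul _ _ _ h2).trans ?_
  rw [nsmul_eq_mul, ← ENNReal.ofReal_natCast, ← ENNReal.ofReal_mul (Nat.cast_nonneg _)]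
  refine ENNReal.ofReal_le_ofReal ?_
  refine mul_le_mul_of_nonneg_right ?_ (by positivity)
  exact_mod_cast card_BxE L

theorem prob_Ex {μ : Measure ℝ} [IsProbabilityMeasure μ] (hsym : μ.map (fun x => -x) = μ)
    {k : ℕ} (hnice : ∀ᵐ J ∂(PP μ), ∀ D : Finset Ed, Nice k (flp (ind D) J))
    {q M : ℝ} (hM : ∀ Λ : ℝ, 0 < Λ → μ {x | Λ < |x|} ≤ ENNReal.ofReal (M / Λ ^ q)) (hM0 : 0 ≤ M)
    {L : ℕ} (hL : 1 ≤ L) {Λ : ℝ} (hΛ : 0 < Λ) :
    PP μ (Ex L Λ) ≤ ENNReal.ofReal (4 * k / (2 * L + 1) ^ 2 + 4 * (2 * L + 1) ^ 2 * (M / Λ ^ q)) := by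
  unfold Ex
  refine (measure_union_le _ _).trans ?_
  rw [ENNReal.ofReal_add (by positivity) (by positivity)]
  exact add_le_add (prob_BadL hsym hnice hL hΛ) (prob_large hM hM0 L hΛ)

theorem card_HZ_le (p : XX) (n m : ℕ) (lam : ℝ) : (HZ p n m lam).card ≤ 4 * (2 * n + 1) ^ 2 := by
  classical
  unfold HZ
  refine (Finset.card_le_card (Finset.filter_subset _ _)).trans ?_
  rw [Finset.card_product, card_box, Finset.card_univ, Fintype.card_fin, mul_comm]

/-- **Part H1.** -/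
theorem nu_large {μ : Measure ℝ} [IsProbabilityMeasure μ] (hsym : μ.map (fun x => -x) = μ)
    {k : ℕ} (hnice : ∀ᵐ J ∂(PP μ), ∀ D : Finset Ed, Nice k (flp (ind D) J))
    {Q : Measure XX} (hQ : IsQ μ k Q)
    {q M : ℝ} (hM : ∀ Λ : ℝ, 0 < Λ → μ {x | Λ < |x|} ≤ ENNReal.ofReal (M / Λ ^ q)) (hM0 : 0 ≤ M)
    {n m : ℕ} (hn : 1 ≤ n) (hmn : m ≤ n) {Λ lam : ℝ} (hΛ : 0 < Λ) (hlam : 0 < lam) :
    nuM Q {y | lam ≤ |Vn m y|} ≤ ENNReal.ofReal
      (8 * n * NB (2 * n) Λ lam / (2 * n + 1) ^ 2 * (k * k) +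
        4 * (k * k) * (4 * k / (2 * (2 * n : ℕ) + 1) ^ 2 +
          4 * (2 * (2 * n : ℕ) + 1) ^ 2 * (M / Λ ^ q))) := by
  set b : ℝ := 4 * k / (2 * (2 * n : ℕ) + 1) ^ 2 + 4 * (2 * (2 * n : ℕ) + 1) ^ 2 * (M / Λ ^ q) with hb
  have hb0 : 0 ≤ b := by positivity
  set c : ℝ := 8 * n * NB (2 * n) Λ lam with hc
  have hc0 : 0 ≤ c := by
    have := NB_nonneg (2 * n) (Λ := Λ) (lam := lam)
    positivity
  set B : Set XX := toMeasurable Q (Prod.fst ⁻¹' (Ex (2 * n) Λ)) with hB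
  have hBm : MeasurableSet B := measurableSet_toMeasurable _ _
  have hQB : Q B ≤ ENNReal.ofReal ((k * k) * b) := by
    rw [hB, measure_toMeasurable]
    refine (hQ.fst_le _).trans ?_
    rw [ENNReal.ofReal_mul (by positivity)]
    have h1 : ((k * k : ℕ) : ℝ≥0∞) = ENNReal.ofReal ((k:ℝ) * k) := by
      rw [← ENNReal.ofReal_natCast]; push_cast; rfl
    rw [h1]
    exact mul_le_mul' le_rfl (prob_Ex hsym hnice hM hM0 (by omega) hΛ)
  have hQu : Q Set.univ ≤ ENNReal.ofReal ((k:ℝ) * k) := by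
    rw [hQ.univ_eq, ← ENNReal.ofReal_natCast]
    refine ENNReal.ofReal_le_ofReal ?_
    have : k * (k - 1) ≤ k * k := Nat.mul_le_mul_left _ (Nat.sub_le _ _)
    exact_mod_cast this
  have hpt : ∀ᵐ p ∂Q, (((HZ p n m lam).card : ℕ) : ℝ≥0∞) ≤
      ENNReal.ofReal c + B.indicator (fun _ => ENNReal.ofReal (4 * (2 * n + 1) ^ 2)) p := by
    filter_upwards [hQ.nice, deg_two hQ] with p hp hdeg
    obtain ⟨hN, hU, hU', _⟩ := hp
    have hac : Ac (wl p) := fun C hC h => acyc hU hU' hN.nt hC h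
    by_cases hpB : p ∈ B
    · rw [Set.indicator_of_mem hpB]
      refine le_trans ?_ le_add_self
      rw [← ENNReal.ofReal_natCast]
      refine ENNReal.ofReal_le_ofReal ?_
      exact_mod_cast card_HZ_le p n m lam
    · have hnot : p.1 ∉ Ex (2 * n) Λ := fun h => hpB (subset_toMeasurable _ _ h)
      unfold Ex at hnot
      rw [Set.mem_union, not_or] at hnot
      have hw : ∀ e ∈ BxE (2 * n), |p.1 e| ≤ Λ := by
        intro e he
        by_contra hcon
        exact hnot.2 ⟨e, he, not_le.1 hcon⟩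
      have h1 := count_abs hdeg hac hN.nz hU hU' hmn hΛ hlam hw hnot.1
      refine le_trans ?_ le_self_add
      rw [← ENNReal.ofReal_natCast]
      exact ENNReal.ofReal_le_ofReal h1
  have h1 : ((box n).card : ℝ≥0∞) * nuM Q {y | lam ≤ |Vn m y|} ≤
      ENNReal.ofReal (c * (k * k) + 4 * (2 * n + 1) ^ 2 * ((k * k) * b)) := by
    rw [lintegral_HZ hQ]
    refine (lintegral_mono_ae hpt).trans ?_
    rw [lintegral_add_left measurable_const, lintegral_const, lintegral_indicator_const hBm,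
      ENNReal.ofReal_add (by positivity) (by positivity), ENNReal.ofReal_mul hc0,
      ENNReal.ofReal_mul (by positivity : (0:ℝ) ≤ 4 * (2 * n + 1) ^ 2)]
    exact add_le_add (mul_le_mul' le_rfl hQu) (mul_le_mul' le_rfl hQB)
  have hcard : ((box n).card : ℝ≥0∞) = ENNReal.ofReal ((2 * n + 1) ^ 2) := by
    rw [card_box, ← ENNReal.ofReal_natCast]; push_cast; rfl
  rw [hcard] at h1
  have hpos : (0:ℝ) < (2 * n + 1) ^ 2 := by positivity
  have h2 : c * (k * k) + 4 * (2 * n + 1) ^ 2 * ((k * k) * b) =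
      (2 * n + 1) ^ 2 * (c / (2 * n + 1) ^ 2 * (k * k) + 4 * (k * k) * b) := by
    field_simp
  rw [h2, ENNReal.ofReal_mul hpos.le] at h1
  exact (ENNReal.mul_le_mul_iff_right (ENNReal.ofReal_pos.2 hpos).ne' ENNReal.ofReal_ne_top).1 h1

end Pool.Agent.Helper99.TJ
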